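import Mathlib

/-!
# Power means over a finite set of parameters: the abstract approximation theorem (chunk AP)
-/

set_option autoImplicit false

namespace EinsteinSix.Ap

open Finset Polynomial

/-- Polynomials have antiderivatives. -/
theorem exists_antideriv (q : ℝ[X]) : ∃ p : ℝ[X], derivative p = q := by
  induction q using Polynomial.induction_on' with
  | add p q hp hq =>
    obtain ⟨a, ha⟩ := hp
    obtain ⟨b, hb⟩ := hq
    exact ⟨a + b, by rw [derivative_add, ha, hb]⟩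
  | monomial n c =>
    refine ⟨monomial (n + 1) (c / (n + 1)), ?_⟩
    rw [derivative_monomial]
    have h : (c / ((n : ℝ) + 1)) * ((n + 1 : ℕ) : ℝ) = c := by
      have : (n : ℝ) + 1 ≠ 0 := by positivity
      push_cast
      field_simp
    rw [h]
    simp

/-- `C¹` approximation by polynomials on a compact interval. -/
theorem poly_C1 {a b : ℝ} (hab : a ≤ b) {f f' : ℝ → ℝ}
    (hf : ∀ x ∈ Set.Icc a b, HasDerivAt f (f' x) x)
    (hf' : ContinuousOn f' (Set.Icc a b)) {τ : ℝ} (hτ : 0 < τ) :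
    ∃ p : ℝ[X], (∀ x ∈ Set.Icc a b, |p.eval x - f x| ≤ τ) ∧
      ∀ x ∈ Set.Icc a b, |(derivative p).eval x - f' x| ≤ τ := by
  set σ : ℝ := min τ (τ / (b - a + 1)) with hσ
  have hba : 0 < b - a + 1 := by linarith
  have hσ0 : 0 < σ := lt_min hτ (div_pos hτ hba)
  obtain ⟨q, hq⟩ := exists_polynomial_near_of_continuousOn a b f' hf' σ hσ0
  obtain ⟨p₀, hp₀⟩ := exists_antideriv q
  refine ⟨p₀ + C (f a - p₀.eval a), ?_, ?_⟩
  · intro x hx
    have hd : ∀ y ∈ Set.Icc a b, HasDerivWithinAt (fun y => p₀.eval y - f y)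
        (q.eval y - f' y) (Set.Icc a b) y := by
      intro y hy
      have h1 := (p₀.hasDerivAt y).sub (hf y hy)
      rw [hp₀] at h1
      exact h1.hasDerivWithinAt
    have hb : ∀ y ∈ Set.Icc a b, ‖q.eval y - f' y‖ ≤ σ := fun y hy => (hq y hy).le
    have := (convex_Icc a b).norm_image_sub_le_of_norm_hasDerivWithin_le hd hb
      (Set.left_mem_Icc.2 hab) hx
    simp only [Real.norm_eq_abs] at this
    have e : (p₀ + C (f a - p₀.eval a)).eval x - f x =
        (p₀.eval x - f x) - (p₀.eval a - f a) := by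
      simp; ring
    rw [e]
    refine this.trans ?_
    have h2 : |x - a| ≤ b - a + 1 := by
      rw [abs_le]; constructor <;> linarith [hx.1, hx.2]
    calc σ * |x - a| ≤ (τ / (b - a + 1)) * (b - a + 1) :=
          mul_le_mul (min_le_right _ _) h2 (abs_nonneg _) (by positivity)
      _ = τ := by field_simp
  · intro x hx
    have e : derivative (p₀ + C (f a - p₀.eval a)) = q := by simp [hp₀]
    rw [e]
    exact (hq x hx).le.trans (min_le_left _ _)

/-- Young's inequality in the form needed for the sum of the weights. -/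
theorem young {k : ℕ} (hk : 1 ≤ k) {y : ℝ} (hy : 0 ≤ y) :
    (k : ℝ) * y ^ (k - 1) ≤ ((k : ℝ) - 1) * y ^ k + 1 := by
  rcases hy.eq_or_lt with h0 | h0
  · subst h0
    rcases Nat.lt_or_ge 1 k with h1 | h1
    · rw [zero_pow (by omega), zero_pow (by omega)]; simp
    · have : k = 1 := by omega
      subst this; simp
  · have hb := one_add_mul_le_pow (a := y⁻¹ - 1) (by
      have : 0 < y⁻¹ := inv_pos.2 h0
      linarith) k
    have e : (1 + (y⁻¹ - 1)) = y⁻¹ := by ring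
    rw [e] at hb
    have h2 := mul_le_mul_of_nonneg_left hb (pow_nonneg hy k)
    have h3 : y ^ k * y⁻¹ ^ k = 1 := by
      rw [← mul_pow, mul_inv_cancel₀ h0.ne', one_pow]
    rw [h3] at h2
    obtain ⟨m, rfl⟩ : ∃ m, k = m + 1 := ⟨k - 1, by omega⟩
    have h4 : y ^ (m + 1) * y⁻¹ = y ^ m := by
      rw [pow_succ, mul_assoc, mul_inv_cancel₀ h0.ne', mul_one]
    simp only [Nat.add_sub_cancel]
    nlinarith [h4, h2]

/-- Finite dimensional estimate: power mean weights concentrate on near maximisers. -/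
theorem main_est {N k : ℕ} (hk : 2 ≤ k) {u w : Fin N → ℝ}
    {s δ η B S G γs γ₁ ε₂ ρ : ℝ}
    (hu0 : ∀ i, 0 ≤ u i) (hs : 0 < s) (hsS : s ≤ S) (hδ : 0 < δ)
    (hδs : δ ≤ s) (hnear : ∃ i, s - δ / 2 ≤ u i) (hη : 0 < η) (hη1 : η ≤ 1)
    (hρ : 0 < ρ) (hρk : ρ ^ k = ∑ i, u i ^ k)
    (hB : 0 ≤ B) (hw : ∀ i, |w i| ≤ B) (hG : |G| ≤ B) (hγ0 : 0 ≤ γs) (hγB : γs ≤ B)
    (hγ₁ : |γ₁ - γs| ≤ 2 * η) (hε₂ : 0 ≤ ε₂)
    (hN1 : (N : ℝ) ≤ (1 + η) ^ k) (hN2 : (N : ℝ) * (1 - δ / (2 * S)) ^ (k - 1) ≤ η)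
    (hpt : ∀ i, s - δ ≤ u i → -ε₂ ≤ G + γs * w i) :
    -(5 * B + B ^ 2) * η - 2 * ε₂ ≤ G + γ₁ * ∑ i, (u i / ρ) ^ (k - 1) * w i := by
  classical
  set a : Fin N → ℝ := fun i => u i / ρ with ha
  have ha0 : ∀ i, 0 ≤ a i := fun i => div_nonneg (hu0 i) hρ.le
  have hasum : ∑ i, a i ^ k = 1 := by
    simp only [ha, div_pow, ← sum_div, ← hρk]
    exact div_self (pow_pos hρ k).ne'
  have ha1 : ∀ i, a i ≤ 1 := by
    intro i
    have h1 : a i ^ k ≤ 1 := by
      rw [← hasum]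
      exact single_le_sum (f := fun i => a i ^ k) (fun j _ => pow_nonneg (ha0 j) k) (mem_univ i)
    exact (pow_le_one_iff_of_nonneg (ha0 i) (by omega)).1 h1
  -- total weight
  have hW1 : 1 ≤ ∑ i, a i ^ (k - 1) := by
    rw [← hasum]
    refine sum_le_sum fun i _ => ?_
    exact pow_le_pow_of_le_one (ha0 i) (ha1 i) (by omega)
  have hkpos : (0 : ℝ) < k := by positivity
  have hW2 : ∑ i, a i ^ (k - 1) ≤ 1 + η := by
    have ht : (0 : ℝ) < 1 + η := by linarith
    have h1 : ∀ i, (k : ℝ) * (1 + η) ^ (k - 1) * a i ^ (k - 1) ≤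
        ((k : ℝ) - 1) * (1 + η) ^ k * a i ^ k + 1 := by
      intro i
      have := young (k := k) (by omega) (mul_nonneg ht.le (ha0 i))
      rw [mul_pow, mul_pow] at this
      nlinarith [this]
    have h2 := sum_le_sum fun i (_ : i ∈ (univ : Finset (Fin N))) => h1 i
    rw [← mul_sum, sum_add_distrib, ← mul_sum, hasum] at h2
    simp only [sum_const, card_univ, Fintype.card_fin, nsmul_eq_mul, mul_one] at h2
    have h3 : (k : ℝ) * (1 + η) ^ (k - 1) * ∑ i, a i ^ (k - 1) ≤ (k : ℝ) * (1 + η) ^ k := by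
      nlinarith [h2, hN1]
    have h4 : (1 + η) ^ k = (1 + η) ^ (k - 1) * (1 + η) := by
      rw [← pow_succ]; congr 1; omega
    rw [h4] at h3
    have h5 : 0 < (k : ℝ) * (1 + η) ^ (k - 1) := by positivity
    have h6 : (k : ℝ) * (1 + η) ^ (k - 1) * ∑ i, a i ^ (k - 1) ≤
        (k : ℝ) * (1 + η) ^ (k - 1) * (1 + η) := by linarith
    exact le_of_mul_le_mul_left h6 h5
  -- far weights
  have hρs : s - δ / 2 ≤ ρ := by
    obtain ⟨j, hj⟩ := hnear
    have h1 : u j ^ k ≤ ρ ^ k := by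
      rw [hρk]
      exact single_le_sum (f := fun i => u i ^ k) (fun j _ => pow_nonneg (hu0 j) k) (mem_univ j)
    have h2 : u j ≤ ρ := le_of_pow_le_pow_left₀ (by omega) hρ.le h1
    linarith
  have hS : 0 < S := by linarith
  have hfar : ∀ i, ¬ (s - δ ≤ u i) → a i ^ (k - 1) ≤ (1 - δ / (2 * S)) ^ (k - 1) := by
    intro i hi
    push Not at hi
    refine pow_le_pow_left₀ (ha0 i) ?_ _
    simp only [ha]
    rw [div_le_iff₀ hρ]
    have h1 : δ / (2 * S) ≤ 1 / 2 := by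
      rw [div_le_div_iff₀ (by positivity) (by norm_num)]; nlinarith
    have h2 : (1 - δ / (2 * S)) * (s - δ / 2) ≤ (1 - δ / (2 * S)) * ρ :=
      mul_le_mul_of_nonneg_left hρs (by linarith)
    have h3 : δ / (2 * S) * (s - δ / 2) ≤ δ / 2 := by
      rw [div_mul_eq_mul_div, div_le_div_iff₀ (by positivity) (by norm_num)]
      nlinarith
    nlinarith
  set F : Finset (Fin N) := univ.filter fun i => s - δ ≤ u i with hF
  set F' : Finset (Fin N) := univ.filter fun i => ¬ (s - δ ≤ u i) with hF'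
  have hsplit : ∀ f : Fin N → ℝ, ∑ i, f i = ∑ i ∈ F, f i + ∑ i ∈ F', f i := by
    intro f
    exact (sum_filter_add_sum_filter_not univ (fun i => s - δ ≤ u i) f).symm
  have hq0 : 0 ≤ 1 - δ / (2 * S) := by
    have h1 : δ / (2 * S) ≤ 1 / 2 := by
      rw [div_le_div_iff₀ (by positivity) (by norm_num)]; nlinarith
    linarith
  have hWfar : ∑ i ∈ F', a i ^ (k - 1) ≤ η := by
    calc ∑ i ∈ F', a i ^ (k - 1) ≤ ∑ i ∈ F', (1 - δ / (2 * S)) ^ (k - 1) :=
          sum_le_sum fun i hi => hfar i (by simpa [hF'] using hi)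
      _ = (F'.card : ℝ) * (1 - δ / (2 * S)) ^ (k - 1) := by simp
      _ ≤ (N : ℝ) * (1 - δ / (2 * S)) ^ (k - 1) := by
          refine mul_le_mul_of_nonneg_right ?_ (pow_nonneg hq0 _)
          have := card_le_univ F'
          rw [Fintype.card_fin] at this
          exact_mod_cast this
      _ ≤ η := hN2
  have hWfar0 : 0 ≤ ∑ i ∈ F', a i ^ (k - 1) := sum_nonneg fun i _ => pow_nonneg (ha0 i) _
  have hWn0 : 0 ≤ ∑ i ∈ F, a i ^ (k - 1) := sum_nonneg fun i _ => pow_nonneg (ha0 i) _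
  have hWs := hsplit (fun i => a i ^ (k - 1))
  -- near sum
  have hn : ∑ i ∈ F, a i ^ (k - 1) * (-ε₂ - G) ≤ ∑ i ∈ F, a i ^ (k - 1) * (γs * w i) := by
    refine sum_le_sum fun i hi => mul_le_mul_of_nonneg_left ?_ (pow_nonneg (ha0 i) _)
    have := hpt i (by simpa [hF] using hi)
    linarith
  rw [← sum_mul] at hn
  have hf : -(η * (B * B)) ≤ ∑ i ∈ F', a i ^ (k - 1) * (γs * w i) := by
    have h1 : ∀ i ∈ F', a i ^ (k - 1) * (-(B * B)) ≤ a i ^ (k - 1) * (γs * w i) := by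
      intro i _
      refine mul_le_mul_of_nonneg_left ?_ (pow_nonneg (ha0 i) _)
      have h2 := hw i
      have h3 : |γs * w i| ≤ B * B := by
        rw [abs_mul, abs_of_nonneg hγ0]
        exact mul_le_mul hγB h2 (abs_nonneg _) hB
      exact (abs_le.1 h3).1
    have h2 := sum_le_sum h1
    rw [← sum_mul] at h2
    have h3 : (∑ i ∈ F', a i ^ (k - 1)) * (B * B) ≤ η * (B * B) :=
      mul_le_mul_of_nonneg_right hWfar (mul_nonneg hB hB)
    linarith
  have htot : γs * ∑ i, a i ^ (k - 1) * w i =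
      ∑ i ∈ F, a i ^ (k - 1) * (γs * w i) + ∑ i ∈ F', a i ^ (k - 1) * (γs * w i) := by
    rw [← hsplit (fun i => a i ^ (k - 1) * (γs * w i)), mul_sum]
    exact sum_congr rfl fun i _ => by ring
  have hwsum : |∑ i, a i ^ (k - 1) * w i| ≤ 2 * B := by
    calc |∑ i, a i ^ (k - 1) * w i| ≤ ∑ i, |a i ^ (k - 1) * w i| := abs_sum_le_sum_abs _ _
      _ ≤ ∑ i, a i ^ (k - 1) * B := by
          refine sum_le_sum fun i _ => ?_
          rw [abs_mul, abs_of_nonneg (pow_nonneg (ha0 i) _)]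
          exact mul_le_mul_of_nonneg_left (hw i) (pow_nonneg (ha0 i) _)
      _ = (∑ i, a i ^ (k - 1)) * B := by rw [sum_mul]
      _ ≤ 2 * B := mul_le_mul_of_nonneg_right (by linarith) hB
  have hdiff : |(γ₁ - γs) * ∑ i, a i ^ (k - 1) * w i| ≤ 2 * η * (2 * B) := by
    rw [abs_mul]
    exact mul_le_mul hγ₁ hwsum (abs_nonneg _) (by linarith)
  have hd := (abs_le.1 hdiff).1
  have hG1 := abs_le.1 hG
  set Wn := ∑ i ∈ F, a i ^ (k - 1) with hWn
  have hWn1 : 1 - η ≤ Wn := by linarith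
  have hWn2 : Wn ≤ 1 + η := by linarith
  have hGW : -(B * η) ≤ G * (1 - Wn) := by
    have h1 : |G * (1 - Wn)| ≤ B * η := by
      rw [abs_mul]
      exact mul_le_mul hG (by rw [abs_le]; constructor <;> linarith) (abs_nonneg _) hB
    exact (abs_le.1 h1).1
  have hεW : Wn * ε₂ ≤ 2 * ε₂ := mul_le_mul_of_nonneg_right (by linarith) hε₂
  nlinarith [hn, hf, htot, hd, hGW, hεW]

section Abstract

set_option linter.unusedSectionVars false

variable {X O : Type*} [TopologicalSpace X] [CompactSpace X] [TopologicalSpace O] [CompactSpace O]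

/-- The maximum over the parameters is continuous and attained. -/
theorem exists_max [Nonempty O] (u : X → O → ℝ) (hu : Continuous (Function.uncurry u)) :
    ∃ s : X → ℝ, Continuous s ∧ (∀ x g, u x g ≤ s x) ∧ ∀ x, ∃ g, u x g = s x := by
  refine ⟨fun x => sSup (u x '' Set.univ), ?_, ?_, ?_⟩
  · exact isCompact_univ.continuous_sSup hu
  · intro x g
    have hc : Continuous (u x) := hu.comp (Continuous.prodMk_right x)
    exact le_csSup (isCompact_univ.image hc).bddAbove ⟨g, trivial, rfl⟩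
  · intro x
    have hc : Continuous (u x) := hu.comp (Continuous.prodMk_right x)
    obtain ⟨g, _, hg⟩ := (isCompact_univ.image hc).sSup_mem (Set.univ_nonempty.image _)
    exact ⟨g, hg⟩

/-- Near maximisers satisfy the pointwise inequality up to a small error. -/
theorem near_max (u w : X → O → ℝ) (G s : X → ℝ) (γ : ℝ → ℝ)
    (hu : Continuous (Function.uncurry u)) (hw : Continuous (Function.uncurry w))
    (hG : Continuous G) (hγ : Continuous γ) (hs : Continuous s)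
    (hsu : ∀ x g, u x g ≤ s x)
    (hpt : ∀ x g, u x g = s x → 0 ≤ G x + γ (s x) * w x g) {ε : ℝ} (hε : 0 < ε) :
    ∃ δ : ℝ, 0 < δ ∧ ∀ x g, s x - δ ≤ u x g → -ε ≤ G x + γ (s x) * w x g := by
  set A : Set (X × O) := {p | G p.1 + γ (s p.1) * w p.1 p.2 ≤ -ε} with hA
  have hAc : IsCompact A := by
    refine IsClosed.isCompact ?_
    refine isClosed_le ?_ continuous_const
    exact (hG.comp continuous_fst).add ((hγ.comp (hs.comp continuous_fst)).mul hw)
  rcases A.eq_empty_or_nonempty with h0 | h0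
  · refine ⟨1, one_pos, fun x g _ => ?_⟩
    by_contra hcon
    push Not at hcon
    have : (x, g) ∈ A := hcon.le
    rw [h0] at this
    exact this
  · have hc : Continuous fun p : X × O => s p.1 - u p.1 p.2 :=
      (hs.comp continuous_fst).sub hu
    obtain ⟨p, hpA, hp⟩ := hAc.exists_isMinOn h0 hc.continuousOn
    have hpos : 0 < s p.1 - u p.1 p.2 := by
      rcases (hsu p.1 p.2).lt_or_eq with h | h
      · linarith
      · have h1 := hpt p.1 p.2 h
        have h2 : G p.1 + γ (s p.1) * w p.1 p.2 ≤ -ε := hpA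
        linarith
    refine ⟨(s p.1 - u p.1 p.2) / 2, by linarith, fun x g hxg => ?_⟩
    by_contra hcon
    push Not at hcon
    have hm : (x, g) ∈ A := hcon.le
    have := isMinOn_iff.1 hp (x, g) hm
    simp only at this
    linarith

/-- A finite set of parameters contains near maximisers for all points. -/
theorem exists_net [Nonempty O] (u : X → O → ℝ) (s : X → ℝ)
    (hu : Continuous (Function.uncurry u)) (hs : Continuous s)
    (hatt : ∀ x, ∃ g, u x g = s x) {δ : ℝ} (hδ : 0 < δ) :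
    ∃ (N : ℕ) (g : Fin N → O), ∀ x, ∃ i, s x - δ ≤ u x (g i) := by
  classical
  choose f hf using hatt
  have hU : ∀ x, {y | s y - δ < u y (f x)} ∈ nhds x := by
    intro x
    have h1 : Continuous fun y => u y (f x) := hu.comp (Continuous.prodMk_left (f x))
    refine (isOpen_lt (hs.sub continuous_const) h1).mem_nhds ?_
    show s x - δ < u x (f x)
    rw [hf x]; linarith
  obtain ⟨t, ht⟩ := CompactSpace.elim_nhds_subcover _ hU
  refine ⟨t.card, fun i => f (t.equivFin.symm i), fun x => ?_⟩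
  have hx : x ∈ (⊤ : Set X) := trivial
  rw [← ht] at hx
  simp only [Set.mem_iUnion] at hx
  obtain ⟨y, hy, hxy⟩ := hx
  refine ⟨t.equivFin ⟨y, hy⟩, ?_⟩
  simp only [Equiv.symm_apply_apply]
  exact hxy.le

end Abstract

/-- The function `γ (z^(1/k)) z^(1/k-1) / k`, its derivative and the monotonicity inequality. -/
theorem h0_deriv {k : ℕ} {γ γ' : ℝ → ℝ} (hd : ∀ t, HasDerivAt γ (γ' t) t)
    {z : ℝ} (hz : 0 < z) :
    HasDerivAt (fun z : ℝ => γ (z ^ (1 / (k : ℝ))) * z ^ (1 / (k : ℝ) - 1) / k)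
      ((γ' (z ^ (1 / (k : ℝ))) * (1 / (k : ℝ) * z ^ (1 / (k : ℝ) - 1)) * z ^ (1 / (k : ℝ) - 1) +
        γ (z ^ (1 / (k : ℝ))) * ((1 / (k : ℝ) - 1) * z ^ (1 / (k : ℝ) - 1 - 1))) / k) z := by
  have h1 : HasDerivAt (fun z : ℝ => z ^ (1 / (k : ℝ))) (1 / (k : ℝ) * z ^ (1 / (k : ℝ) - 1)) z :=
    Real.hasDerivAt_rpow_const (Or.inl hz.ne')
  have h2 : HasDerivAt (fun z : ℝ => z ^ (1 / (k : ℝ) - 1))
      ((1 / (k : ℝ) - 1) * z ^ (1 / (k : ℝ) - 1 - 1)) z :=
    Real.hasDerivAt_rpow_const (Or.inl hz.ne')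
  exact (((hd _).comp z h1).mul h2).div_const _

/-- The second order inequality. -/
theorem second_order {N k : ℕ} (hk : 2 ≤ k) {u v : Fin N → ℝ} (hu : ∀ i, 0 ≤ u i)
    {h h' : ℝ} (hh : 0 ≤ h) (hh' : 0 ≤ ((k : ℝ) - 1) * h + k * (∑ i, u i ^ k) * h') :
    0 ≤ h * ∑ i, (k : ℝ) * ((k : ℝ) - 1) * u i ^ (k - 2) * v i ^ 2 +
      h' * (∑ i, (k : ℝ) * u i ^ (k - 1) * v i) ^ 2 := by
  have hkpos : (2 : ℝ) ≤ k := by exact_mod_cast hk
  have hQ0 : 0 ≤ ∑ i, u i ^ (k - 2) * v i ^ 2 :=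
    sum_nonneg fun i _ => mul_nonneg (pow_nonneg (hu i) _) (sq_nonneg _)
  have hCS : (∑ i, u i ^ (k - 1) * v i) ^ 2 ≤
      (∑ i, u i ^ k) * ∑ i, u i ^ (k - 2) * v i ^ 2 := by
    refine Finset.sum_sq_le_sum_mul_sum_of_sq_le_mul _ (fun i _ => pow_nonneg (hu i) _)
      (fun i _ => mul_nonneg (pow_nonneg (hu i) _) (sq_nonneg _)) fun i _ => ?_
    obtain ⟨m, rfl⟩ : ∃ m, k = m + 2 := ⟨k - 2, by omega⟩
    simp only [Nat.add_sub_cancel, show m + 2 - 1 = m + 1 by omega]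
    exact le_of_eq (by ring)
  have e1 : ∑ i, (k : ℝ) * ((k : ℝ) - 1) * u i ^ (k - 2) * v i ^ 2 =
      (k : ℝ) * ((k : ℝ) - 1) * ∑ i, u i ^ (k - 2) * v i ^ 2 := by
    rw [mul_sum]; exact sum_congr rfl fun i _ => by ring
  have e2 : ∑ i, (k : ℝ) * u i ^ (k - 1) * v i = (k : ℝ) * ∑ i, u i ^ (k - 1) * v i := by
    rw [mul_sum]; exact sum_congr rfl fun i _ => by ring
  rw [e1, e2]
  set Q := ∑ i, u i ^ (k - 2) * v i ^ 2
  set L := ∑ i, u i ^ (k - 1) * v i
  set Z := ∑ i, u i ^ k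
  rcases le_or_gt 0 h' with h0 | h0
  · have : 0 ≤ (k : ℝ) * ((k : ℝ) - 1) * Q := by
      refine mul_nonneg (mul_nonneg (by linarith) (by linarith)) hQ0
    exact add_nonneg (mul_nonneg hh this) (mul_nonneg h0 (sq_nonneg _))
  · have h1 : h' * (Z * Q) ≤ h' * L ^ 2 := mul_le_mul_of_nonpos_left hCS h0.le
    have h2 : 0 ≤ (((k : ℝ) - 1) * h + k * Z * h') * Q * k :=
      mul_nonneg (mul_nonneg hh' hQ0) (by linarith)
    nlinarith [h1, h2, mul_le_mul_of_nonneg_left h1 (show (0 : ℝ) ≤ (k : ℝ) ^ 2 by positivity)]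

/-- Choice of the exponent. -/
theorem exists_exp (N : ℕ) {η q : ℝ} (hη : 0 < η) (hq0 : 0 ≤ q) (hq1 : q < 1) :
    ∃ k : ℕ, 2 ≤ k ∧ (N : ℝ) ≤ (1 + η) ^ k ∧ (N : ℝ) * q ^ (k - 1) ≤ η := by
  have h1 : Filter.Tendsto (fun k : ℕ => (1 + η) ^ k) Filter.atTop Filter.atTop :=
    tendsto_pow_atTop_atTop_of_one_lt (by linarith)
  have h2 : Filter.Tendsto (fun k : ℕ => (N : ℝ) * q ^ k) Filter.atTop (nhds ((N : ℝ) * 0)) :=
    (tendsto_pow_atTop_nhds_zero_of_lt_one hq0 hq1).const_mul _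
  rw [mul_zero] at h2
  have h3 := (h1.eventually_ge_atTop (N : ℝ))
  have h4 := h2.eventually (ge_mem_nhds hη)
  obtain ⟨a, ha⟩ := Filter.eventually_atTop.1 h3
  obtain ⟨b, hb⟩ := Filter.eventually_atTop.1 h4
  refine ⟨max a b + 2, by omega, ha _ (by omega), ?_⟩
  have := hb (max a b + 2 - 1) (by omega)
  exact this

/-- **Abstract approximation theorem.** -/
theorem abs_approx {X O : Type*} [TopologicalSpace X] [CompactSpace X] [TopologicalSpace O]
    [CompactSpace O] [Nonempty O] (u w : X → O → ℝ) (G : X → ℝ) (γ : ℝ → ℝ)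
    (hu : Continuous (Function.uncurry u)) (hw : Continuous (Function.uncurry w))
    (hG : Continuous G) (hγ : Continuous γ)
    (hu0 : ∀ x g, 0 ≤ u x g) (hpos : ∀ x, ∃ g, 0 < u x g)
    (hpt : ∀ x g, (∀ g', u x g' ≤ u x g) → 0 ≤ G x + γ (u x g) * w x g)
    (hγ0 : ∀ s, 0 ≤ γ s)
    (hsm : ∀ η : ℝ, 0 < η → ∃ γ₁ γ₁' : ℝ → ℝ, (∀ s, HasDerivAt γ₁ (γ₁' s) s) ∧
      Continuous γ₁' ∧ (∀ s, 0 ≤ γ₁' s) ∧ (∀ s, 0 ≤ γ₁ s) ∧ ∀ s, |γ₁ s - γ s| ≤ η)
    (ε : ℝ) (hε : 0 < ε) :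
    ∃ (N k : ℕ) (g : Fin N → O), 2 ≤ k ∧ ∀ ε₁ : ℝ, 0 < ε₁ → ∃ h : ℝ[X], ∀ x : X,
      (-ε ≤ G x + h.eval (∑ i, u x (g i) ^ k) *
        ∑ i, (k : ℝ) * u x (g i) ^ (k - 1) * w x (g i)) ∧
      ∀ v : Fin N → ℝ, -ε₁ * ∑ i, v i ^ 2 ≤
        h.eval (∑ i, u x (g i) ^ k) *
          ∑ i, (k : ℝ) * ((k : ℝ) - 1) * u x (g i) ^ (k - 2) * v i ^ 2 +
        (derivative h).eval (∑ i, u x (g i) ^ k) *
          (∑ i, (k : ℝ) * u x (g i) ^ (k - 1) * v i) ^ 2 := by
  rcases isEmpty_or_nonempty X with hX | hX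
  · exact ⟨0, 2, fun i => i.elim0, le_rfl, fun ε₁ _ => ⟨0, fun x => (hX.false x).elim⟩⟩
  obtain ⟨s, hs, hus, hatt⟩ := exists_max u hu
  have hspos : ∀ x, 0 < s x := fun x => by
    obtain ⟨g, hg⟩ := hpos x
    exact hg.trans_le (hus x g)
  -- constants
  obtain ⟨xm, -, hxm⟩ := isCompact_univ.exists_isMinOn (Set.univ_nonempty (α := X)) hs.continuousOn
  set c : ℝ := s xm with hc
  have hc0 : 0 < c := hspos xm
  have hcs : ∀ x, c ≤ s x := fun x => isMinOn_iff.1 hxm x trivial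
  obtain ⟨xM, -, hxM⟩ := isCompact_univ.exists_isMaxOn (Set.univ_nonempty (α := X)) hs.continuousOn
  set S : ℝ := s xM with hS
  have hsS : ∀ x, s x ≤ S := fun x => isMaxOn_iff.1 hxM x trivial
  have hS0 : 0 < S := hspos xM
  obtain ⟨BG, hBG⟩ := isCompact_univ.exists_bound_of_continuousOn (f := G) hG.continuousOn
  obtain ⟨Bw, hBw⟩ := isCompact_univ.exists_bound_of_continuousOn (f := Function.uncurry w)
    hw.continuousOn
  obtain ⟨Bγ, hBγ⟩ := isCompact_univ.exists_bound_of_continuousOn (f := fun x => γ (s x))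
    (hγ.comp hs).continuousOn
  set B : ℝ := max 1 (max BG (max Bw Bγ)) with hB
  have hB1 : 1 ≤ B := le_max_left _ _
  have hGB : ∀ x, |G x| ≤ B := fun x =>
    (hBG x trivial).trans ((le_max_left _ _).trans (le_max_right _ _))
  have hwB : ∀ x g, |w x g| ≤ B := fun x g =>
    (hBw (x, g) trivial).trans
      ((le_max_left _ _).trans ((le_max_right _ _).trans (le_max_right _ _)))
  have hγB : ∀ x, γ (s x) ≤ B := fun x => (le_abs_self _).trans
    ((hBγ x trivial).trans ((le_max_right _ _).trans ((le_max_right _ _).trans (le_max_right _ _))))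
  obtain ⟨δ₁, hδ₁, hnm⟩ := near_max u w G s γ hu hw hG hγ hs hus (fun x g hg => by
    have := hpt x g (fun g' => (hus x g').trans hg.ge)
    rwa [hg] at this) (show 0 < ε / 8 by linarith)
  set η : ℝ := min 1 (ε / (4 * (5 * B + B ^ 2))) with hη
  have hBB : 0 < 5 * B + B ^ 2 := by positivity
  have hη0 : 0 < η := lt_min one_pos (by positivity)
  have hη1 : η ≤ 1 := min_le_left _ _
  -- uniform continuity of γ
  have hγu : UniformContinuousOn γ (Set.Icc 0 (2 * S)) :=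
    isCompact_Icc.uniformContinuousOn_of_continuous hγ.continuousOn
  obtain ⟨δ₃, hδ₃, hγδ'⟩ := Metric.uniformContinuousOn_iff_le.1 hγu η hη0
  set η' : ℝ := min η (δ₃ / S) with hη'
  have hη'0 : 0 < η' := lt_min hη0 (by positivity)
  have hη'η : η' ≤ η := min_le_left _ _
  set δ : ℝ := min δ₁ (min δ₃ c) with hδ
  have hδ0 : 0 < δ := lt_min hδ₁ (lt_min hδ₃ hc0)
  have hδδ₁ : δ ≤ δ₁ := min_le_left _ _
  have hδδ₃ : δ ≤ δ₃ := (min_le_right _ _).trans (min_le_left _ _)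
  have hδc : δ ≤ c := (min_le_right _ _).trans (min_le_right _ _)
  obtain ⟨N, g, hg⟩ := exists_net u s hu hs hatt (show 0 < δ / 2 by linarith)
  have hcS : c ≤ S := hcs xM
  have hq : δ / (2 * S) ≤ 1 / 2 := by
    rw [div_le_div_iff₀ (by positivity) (by norm_num)]; nlinarith
  have hq' : 0 < δ / (2 * S) := by positivity
  obtain ⟨k, hk, hN1, hN2⟩ := exists_exp N hη'0 (show 0 ≤ 1 - δ / (2 * S) by linarith)
    (show 1 - δ / (2 * S) < 1 by linarith)
  refine ⟨N, k, g, hk, fun ε₁ hε₁ => ?_⟩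
  obtain ⟨γ₁, γ₁', hγd, hγc, hγ'0, hγ₁0, hγ₁⟩ := hsm η hη0
  have hkpos : (0 : ℝ) < k := by positivity
  have hk2 : (2 : ℝ) ≤ k := by exact_mod_cast hk
  -- the interval for z
  set z : X → ℝ := fun x => ∑ i, u x (g i) ^ k with hz
  have hza : ∀ x, (c / 2) ^ k ≤ z x := by
    intro x
    obtain ⟨j, hj⟩ := hg x
    have h1 : u x (g j) ^ k ≤ z x :=
      single_le_sum (f := fun i => u x (g i) ^ k) (fun i _ => pow_nonneg (hu0 x _) k) (mem_univ j)
    refine le_trans (pow_le_pow_left₀ (by positivity) ?_ k) h1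
    have := hcs x
    linarith
  have hzb : ∀ x, z x ≤ N * S ^ k := by
    intro x
    calc z x ≤ ∑ i : Fin N, S ^ k := sum_le_sum fun i _ =>
          pow_le_pow_left₀ (hu0 x _) ((hus x _).trans (hsS x)) k
      _ = N * S ^ k := by simp
  have ha0 : 0 < (c / 2) ^ k := by positivity
  have hab : (c / 2) ^ k ≤ N * S ^ k := (hza xm).trans (hzb xm)
  set τ : ℝ := min (ε / 2 / (k * N * S ^ (k - 1) * B + 1))
    (ε₁ / (k * (k - 1) * S ^ (k - 2) + k ^ 2 * (N * S ^ (2 * (k - 1))) + 1)) with hτ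
  have hD1 : 0 < k * N * S ^ (k - 1) * B + 1 := by positivity
  have hkk : (0 : ℝ) ≤ k * (k - 1) := mul_nonneg hkpos.le (by linarith)
  have hD2 : 0 < k * (k - 1) * S ^ (k - 2) + k ^ 2 * (N * S ^ (2 * (k - 1))) + 1 := by
    have : 0 ≤ k * (k - 1) * S ^ (k - 2) := mul_nonneg hkk (by positivity)
    positivity
  have hτ0 : 0 < τ := lt_min (by positivity) (by positivity)
  set f : ℝ → ℝ := fun z : ℝ => γ₁ (z ^ (1 / (k : ℝ))) * z ^ (1 / (k : ℝ) - 1) / k with hf
  set f' : ℝ → ℝ := fun z : ℝ => (γ₁' (z ^ (1 / (k : ℝ))) *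
    (1 / (k : ℝ) * z ^ (1 / (k : ℝ) - 1)) * z ^ (1 / (k : ℝ) - 1) +
        γ₁ (z ^ (1 / (k : ℝ))) * ((1 / (k : ℝ) - 1) * z ^ (1 / (k : ℝ) - 1 - 1))) / k with hf'
  have hγ₁c : Continuous γ₁ := continuous_iff_continuousAt.2 fun t => (hγd t).continuousAt
  have hfd : ∀ y ∈ Set.Icc ((c / 2) ^ k) (N * S ^ k), HasDerivAt f (f' y) y :=
    fun y hy => h0_deriv hγd (ha0.trans_le hy.1)
  have hrp : ∀ r : ℝ, ContinuousOn (fun z : ℝ => z ^ r) (Set.Icc ((c / 2) ^ k) (N * S ^ k)) :=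
    fun r y hy => (Real.continuousAt_rpow_const y r (Or.inl (ha0.trans_le hy.1).ne')).continuousWithinAt
  have hf'c : ContinuousOn f' (Set.Icc ((c / 2) ^ k) (N * S ^ k)) := by
    simp only [hf']
    refine ContinuousOn.div_const (ContinuousOn.add ?_ ?_) _
    · exact ((hγc.comp_continuousOn (hrp _)).mul (continuousOn_const.mul (hrp _))).mul (hrp _)
    · exact (hγ₁c.comp_continuousOn (hrp _)).mul (continuousOn_const.mul (hrp _))
  obtain ⟨h, hh1, hh2⟩ := poly_C1 hab hfd hf'c hτ0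
  refine ⟨h, fun x => ?_⟩
  have hzx : z x ∈ Set.Icc ((c / 2) ^ k) (N * S ^ k) := ⟨hza x, hzb x⟩
  have hz0 : 0 < z x := ha0.trans_le (hza x)
  set ρ : ℝ := z x ^ (1 / (k : ℝ)) with hρ
  have hρ0 : 0 < ρ := Real.rpow_pos_of_pos hz0 _
  have hρk : ρ ^ k = z x := by
    rw [hρ, one_div, Real.rpow_inv_natCast_pow hz0.le (by omega)]
  have hρ' : z x ^ (1 / (k : ℝ) - 1) = ρ / ρ ^ k := by
    rw [Real.rpow_sub hz0, Real.rpow_one, hρk]
  have hfz : f (z x) = γ₁ ρ / (k * ρ ^ (k - 1)) := by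
    simp only [hf]
    rw [← hρ, hρ']
    have e : ρ ^ k = ρ ^ (k - 1) * ρ := by rw [← pow_succ]; congr 1; omega
    rw [e]
    field_simp
  have hubd : ∀ i, u x (g i) ≤ S := fun i => (hus x _).trans (hsS x)
  constructor
  · -- first inequality
    have hρlow : s x - δ / 2 ≤ ρ := by
      obtain ⟨j, hj⟩ := hg x
      have h1 : u x (g j) ^ k ≤ ρ ^ k := by
        rw [hρk]
        exact single_le_sum (f := fun i => u x (g i) ^ k) (fun i _ => pow_nonneg (hu0 x _) k)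
          (mem_univ j)
      have h2 : u x (g j) ≤ ρ := le_of_pow_le_pow_left₀ (by omega) hρ0.le h1
      linarith
    have hρup : ρ ≤ (1 + η') * s x := by
      have h1 : ρ ^ k ≤ ((1 + η') * s x) ^ k := by
        rw [hρk, mul_pow]
        calc z x ≤ ∑ i : Fin N, s x ^ k := sum_le_sum fun i _ =>
              pow_le_pow_left₀ (hu0 x _) (hus x _) k
          _ = N * s x ^ k := by simp
          _ ≤ (1 + η') ^ k * s x ^ k :=
              mul_le_mul_of_nonneg_right hN1 (pow_nonneg (hspos x).le _)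
      exact le_of_pow_le_pow_left₀ (by omega) (mul_nonneg (by linarith) (hspos x).le) h1
    have hηS : η' * s x ≤ δ₃ := by
      calc η' * s x ≤ (δ₃ / S) * S :=
            mul_le_mul (min_le_right _ _) (hsS x) (hspos x).le (by positivity)
        _ = δ₃ := by field_simp
    have hdist : |γ ρ - γ (s x)| ≤ η := by
      have h1 := hγδ' ρ ⟨hρ0.le, by nlinarith [hsS x, hspos x]⟩ (s x)
        ⟨(hspos x).le, by linarith [hsS x]⟩ (by
          rw [Real.dist_eq, abs_le]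
          constructor <;> nlinarith)
      rwa [Real.dist_eq] at h1
    have hγ₁s : |γ₁ ρ - γ (s x)| ≤ 2 * η := by
      have h1 := hγ₁ ρ
      calc |γ₁ ρ - γ (s x)| = |(γ₁ ρ - γ ρ) + (γ ρ - γ (s x))| := by ring_nf
        _ ≤ |γ₁ ρ - γ ρ| + |γ ρ - γ (s x)| := abs_add_le _ _
        _ ≤ 2 * η := by linarith
    have hmain := main_est hk (u := fun i => u x (g i)) (w := fun i => w x (g i)) (s := s x)
      (δ := δ) (η := η) (B := B) (S := S) (G := G x) (γs := γ (s x)) (γ₁ := γ₁ ρ)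
      (ε₂ := ε / 8) (ρ := ρ) (fun i => hu0 x _) (hspos x) (hsS x) hδ0 (hδc.trans (hcs x))
      (hg x) hη0 hη1 hρ0 hρk (by linarith) (fun i => hwB x _) (hGB x) (hγ0 _) (hγB x) hγ₁s
      (by linarith) (hN1.trans (pow_le_pow_left₀ (by linarith) (by linarith) k))
      (hN2.trans hη'η) (fun i hi => hnm x (g i) (by linarith))
    have hηb : (5 * B + B ^ 2) * η ≤ ε / 4 := by
      calc (5 * B + B ^ 2) * η ≤ (5 * B + B ^ 2) * (ε / (4 * (5 * B + B ^ 2))) :=
            mul_le_mul_of_nonneg_left (min_le_right _ _) hBB.le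
        _ = ε / 4 := by field_simp
    have e1 : f (z x) * ∑ i, (k : ℝ) * u x (g i) ^ (k - 1) * w x (g i) =
        γ₁ ρ * ∑ i, (u x (g i) / ρ) ^ (k - 1) * w x (g i) := by
      rw [hfz, mul_sum, mul_sum]
      refine sum_congr rfl fun i _ => ?_
      rw [div_pow]
      field_simp
    have hsumw : |∑ i, (k : ℝ) * u x (g i) ^ (k - 1) * w x (g i)| ≤
        k * N * S ^ (k - 1) * B := by
      calc |∑ i, (k : ℝ) * u x (g i) ^ (k - 1) * w x (g i)|
          ≤ ∑ i, |(k : ℝ) * u x (g i) ^ (k - 1) * w x (g i)| := abs_sum_le_sum_abs _ _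
        _ ≤ ∑ i : Fin N, (k : ℝ) * S ^ (k - 1) * B := by
            refine sum_le_sum fun i _ => ?_
            rw [abs_mul, abs_of_nonneg (mul_nonneg hkpos.le (pow_nonneg (hu0 x _) _))]
            exact mul_le_mul (mul_le_mul_of_nonneg_left
              (pow_le_pow_left₀ (hu0 x _) (hubd i) _) hkpos.le) (hwB x _) (abs_nonneg _)
              (by positivity)
        _ = k * N * S ^ (k - 1) * B := by simp; ring
    have herr : |(h.eval (z x) - f (z x)) * ∑ i, (k : ℝ) * u x (g i) ^ (k - 1) * w x (g i)| ≤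
        ε / 2 := by
      rw [abs_mul]
      calc |h.eval (z x) - f (z x)| * |∑ i, (k : ℝ) * u x (g i) ^ (k - 1) * w x (g i)|
          ≤ (ε / 2 / (k * N * S ^ (k - 1) * B + 1)) * (k * N * S ^ (k - 1) * B) :=
            mul_le_mul ((hh1 _ hzx).trans (min_le_left _ _)) hsumw (abs_nonneg _) (by positivity)
        _ ≤ (ε / 2 / (k * N * S ^ (k - 1) * B + 1)) * (k * N * S ^ (k - 1) * B + 1) :=
            mul_le_mul_of_nonneg_left (by linarith) (by positivity)
        _ = ε / 2 := by field_simp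
    have h1 := (abs_le.1 herr).1
    rw [sub_mul, e1] at h1
    linarith
  · -- second inequality
    intro v
    have hγρ : 0 ≤ γ₁ ρ := hγ₁0 ρ
    have hfz0 : 0 ≤ f (z x) := by
      rw [hfz]; positivity
    have hsec : 0 ≤ ((k : ℝ) - 1) * f (z x) + k * (∑ i, u x (g i) ^ k) * f' (z x) := by
      have e2 : z x ^ (1 / (k : ℝ) - 1 - 1) = ρ / ρ ^ k / z x := by
        rw [Real.rpow_sub hz0, Real.rpow_one, hρ']
      have e3 : ((k : ℝ) - 1) * f (z x) + k * z x * f' (z x) =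
          z x * γ₁' ρ * (1 / (k : ℝ)) * (ρ / ρ ^ k) ^ 2 := by
        simp only [hf, hf']
        rw [← hρ, hρ', e2]
        field_simp
        ring
      have e4 : ∑ i, u x (g i) ^ k = z x := rfl
      rw [e4, e3]
      have := hγ'0 ρ
      positivity
    have hso := second_order hk (u := fun i => u x (g i)) (v := v) (fun i => hu0 x _) hfz0 hsec
    set V : ℝ := ∑ i, v i ^ 2 with hV
    have hV0 : 0 ≤ V := sum_nonneg fun i _ => sq_nonneg _
    set T1 : ℝ := ∑ i, (k : ℝ) * ((k : ℝ) - 1) * u x (g i) ^ (k - 2) * v i ^ 2 with hT1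
    set T2 : ℝ := (∑ i, (k : ℝ) * u x (g i) ^ (k - 1) * v i) ^ 2 with hT2
    have hT1a : 0 ≤ T1 := sum_nonneg fun i _ =>
      mul_nonneg (mul_nonneg hkk (pow_nonneg (hu0 x _) _)) (sq_nonneg _)
    have hT1b : T1 ≤ k * (k - 1) * S ^ (k - 2) * V := by
      rw [hV, mul_sum]
      refine sum_le_sum fun i _ => mul_le_mul_of_nonneg_right ?_ (sq_nonneg _)
      exact mul_le_mul_of_nonneg_left (pow_le_pow_left₀ (hu0 x _) (hubd i) _) hkk
    have hT2a : 0 ≤ T2 := sq_nonneg _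
    have hT2b : T2 ≤ k ^ 2 * (N * S ^ (2 * (k - 1))) * V := by
      calc T2 ≤ (∑ i, ((k : ℝ) * u x (g i) ^ (k - 1)) ^ 2) * V :=
            sum_mul_sq_le_sq_mul_sq _ _ _
        _ ≤ (∑ i : Fin N, (k : ℝ) ^ 2 * S ^ (2 * (k - 1))) * V := by
            refine mul_le_mul_of_nonneg_right (sum_le_sum fun i _ => ?_) hV0
            rw [mul_pow, ← pow_mul, mul_comm (k - 1) 2]
            exact mul_le_mul_of_nonneg_left (pow_le_pow_left₀ (hu0 x _) (hubd i) _)
              (by positivity)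
        _ = k ^ 2 * (N * S ^ (2 * (k - 1))) * V := by
            simp only [sum_const, card_univ, Fintype.card_fin, nsmul_eq_mul]; ring
    have hA1 : |h.eval (z x) - f (z x)| ≤ τ := hh1 _ hzx
    have hA2 : |(derivative h).eval (z x) - f' (z x)| ≤ τ := hh2 _ hzx
    have hB1' : -(τ * T1) ≤ (h.eval (z x) - f (z x)) * T1 := by
      have := mul_le_mul_of_nonneg_right (abs_le.1 hA1).1 hT1a
      linarith
    have hB2' : -(τ * T2) ≤ ((derivative h).eval (z x) - f' (z x)) * T2 := by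
      have := mul_le_mul_of_nonneg_right (abs_le.1 hA2).1 hT2a
      linarith
    have hsum : τ * T1 + τ * T2 ≤ ε₁ * V := by
      calc τ * T1 + τ * T2 ≤ τ * ((k * (k - 1) * S ^ (k - 2)
            + k ^ 2 * (N * S ^ (2 * (k - 1)))) * V) := by
            rw [← mul_add]
            refine mul_le_mul_of_nonneg_left ?_ hτ0.le
            linarith
        _ ≤ τ * ((k * (k - 1) * S ^ (k - 2)
            + k ^ 2 * (N * S ^ (2 * (k - 1))) + 1) * V) := by
            refine mul_le_mul_of_nonneg_left ?_ hτ0.le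
            refine mul_le_mul_of_nonneg_right (by linarith) hV0
        _ ≤ (ε₁ / (k * (k - 1) * S ^ (k - 2) + k ^ 2 * (N * S ^ (2 * (k - 1))) + 1)) *
            ((k * (k - 1) * S ^ (k - 2) + k ^ 2 * (N * S ^ (2 * (k - 1))) + 1) * V) :=
            mul_le_mul_of_nonneg_right (min_le_right _ _) (mul_nonneg hD2.le hV0)
        _ = ε₁ * V := by rw [← mul_assoc, div_mul_cancel₀ _ hD2.ne']
    show -ε₁ * V ≤ h.eval (z x) * T1 + (derivative h).eval (z x) * T2
    have hso' : 0 ≤ f (z x) * T1 + f' (z x) * T2 := hso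
    linarith

end EinsteinSix.Ap
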