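import Pool.Agent.Lib.EinsteinSix.Defs
import Pool.Agent.Lib.H91.HopfMax

/-!
# Rotations act on the class `Cls`, and the class is compact (chunk AP)
-/

set_option autoImplicit false

namespace EinsteinSix

open Finset Matrix H91.Split

/-! ### Equivariance of the reaction term -/

theorem frob1 {g : M6} (hg : g * gᵀ = 1) (f h : Fin 6 → ℝ) :
    ∑ p, (∑ c, g c p * f c) * (∑ c, g c p * h c) = ∑ c, f c * h c := by
  have hg' : ∀ b d, ∑ j, g b j * g d j = if b = d then 1 else 0 := by
    intro b d
    have := congrFun (congrFun hg b) d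
    simpa [Matrix.mul_apply, Matrix.one_apply] using this
  calc ∑ p, (∑ c, g c p * f c) * (∑ c, g c p * h c)
      = ∑ p, ∑ c, ∑ d, (f c * h d) * (g c p * g d p) := by
        refine sum_congr rfl fun p _ => ?_
        rw [sum_mul_sum]
        exact sum_congr rfl fun c _ => sum_congr rfl fun d _ => by ring
    _ = ∑ c, ∑ d, (f c * h d) * ∑ p, g c p * g d p := by
        rw [sum_comm]
        refine sum_congr rfl fun c _ => ?_
        rw [sum_comm]
        exact sum_congr rfl fun d _ => by rw [mul_sum]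
    _ = ∑ c, f c * h c := by
        refine sum_congr rfl fun c _ => ?_
        simp [hg']

theorem frob2 {g : M6} (hg : g * gᵀ = 1) (F H : Fin 6 → Fin 6 → ℝ) :
    ∑ p, ∑ q, (∑ c, ∑ d, g c p * g d q * F c d) * (∑ c, ∑ d, g c p * g d q * H c d) =
      ∑ c, ∑ d, F c d * H c d := by
  have h1 : ∀ (F : Fin 6 → Fin 6 → ℝ) (p q : Fin 6), ∑ c, ∑ d, g c p * g d q * F c d =
      ∑ d, g d q * ∑ c, g c p * F c d := by
    intro F p q
    rw [sum_comm]
    refine sum_congr rfl fun d _ => ?_
    rw [mul_sum]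
    exact sum_congr rfl fun c _ => by ring
  simp only [h1]
  have h2 : ∀ p, ∑ q, (∑ d, g d q * ∑ c, g c p * F c d) * (∑ d, g d q * ∑ c, g c p * H c d) =
      ∑ d, (∑ c, g c p * F c d) * (∑ c, g c p * H c d) := fun p => frob1 hg _ _
  simp only [h2]
  rw [sum_comm]
  simp only [frob1 hg]
  rw [sum_comm]

/-- The three quadratic expressions with the two contracted indices in the places given by `T`. -/
theorem quad_term {g : M6} (hg : g * gᵀ = 1) (T T' : T6) (i j k l : Fin 6) :
    ∑ p, ∑ q, (∑ a, ∑ b, ∑ c, ∑ d, g a i * g b j * g c p * g d q * T a b c d) *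
        (∑ a, ∑ b, ∑ c, ∑ d, g a k * g b l * g c p * g d q * T' a b c d) =
      ∑ a, ∑ b, ∑ a', ∑ b', g a i * g b j * g a' k * g b' l *
        ∑ c, ∑ d, T a b c d * T' a' b' c d := by
  have h1 : ∀ (T : T6) (i j p q : Fin 6),
      ∑ a, ∑ b, ∑ c, ∑ d, g a i * g b j * g c p * g d q * T a b c d =
      ∑ c, ∑ d, g c p * g d q * ∑ a, ∑ b, g a i * g b j * T a b c d := by
    intro T i j p q
    rw [sum4_swap]
    refine sum_congr rfl fun c _ => sum_congr rfl fun d _ => ?_
    simp only [mul_sum]
    exact sum_congr rfl fun a _ => sum_congr rfl fun b _ => by ring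
  refine (sum_congr rfl fun p _ => sum_congr rfl fun q _ => by
    rw [h1 T i j p q, h1 T' k l p q]).trans ?_
  have h2 := frob2 hg (fun c d => ∑ a, ∑ b, g a i * g b j * T a b c d)
    (fun c d => ∑ a, ∑ b, g a k * g b l * T' a b c d)
  rw [h2]
  have h3 : ∀ c d, (∑ a, ∑ b, g a i * g b j * T a b c d) *
      (∑ a, ∑ b, g a k * g b l * T' a b c d) =
      ∑ a, ∑ b, ∑ a', ∑ b', g a i * g b j * g a' k * g b' l * (T a b c d * T' a' b' c d) := by
    intro c d
    rw [sum_mul]
    refine sum_congr rfl fun a _ => ?_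
    rw [sum_mul]
    refine sum_congr rfl fun b _ => ?_
    rw [mul_sum]
    refine sum_congr rfl fun a' _ => ?_
    rw [mul_sum]
    exact sum_congr rfl fun b' _ => by ring
  simp only [h3]
  have h4 : ∀ (f : Fin 6 → Fin 6 → Fin 6 → Fin 6 → Fin 6 → ℝ),
      ∑ d, ∑ a, ∑ b, ∑ a', ∑ b', f d a b a' b' = ∑ a, ∑ b, ∑ a', ∑ b', ∑ d, f d a b a' b' :=
    move_in
  have h5 : ∀ c, ∑ d, ∑ a, ∑ b, ∑ a', ∑ b',
      g a i * g b j * g a' k * g b' l * (T a b c d * T' a' b' c d) =
      ∑ a, ∑ b, ∑ a', ∑ b', ∑ d,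
      g a i * g b j * g a' k * g b' l * (T a b c d * T' a' b' c d) := fun c => h4 _
  simp only [h5]
  rw [h4]
  refine sum_congr rfl fun a _ => sum_congr rfl fun b _ => sum_congr rfl fun a' _ =>
    sum_congr rfl fun b' _ => ?_
  simp only [mul_sum]

theorem quad_rot (R : T6) {g : M6} (hg : gᵀ * g = 1) : quad (rot g R) = rot g (quad R) := by
  have hg' : g * gᵀ = 1 := mul_eq_one_comm.1 hg
  funext i j k l
  have t1 := quad_term hg' R R i j k l
  -- second term: arrangement (i, k) with (p, q) in places 2, 4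
  have s : ∀ (i k p q : Fin 6), rot g R i p k q =
      ∑ a, ∑ b, ∑ c, ∑ d, g a i * g b k * g c p * g d q * R a c b d := by
    intro i k p q
    simp only [rot]
    refine sum_congr rfl fun a _ => ?_
    rw [sum_comm]
    refine sum_congr rfl fun b _ => sum_congr rfl fun c _ => sum_congr rfl fun d _ => ?_
    ring
  have t2 := quad_term hg' (fun a b c d => R a c b d) (fun a b c d => R a c b d) i k j l
  have t3 := quad_term hg' (fun a b c d => R a c b d) (fun a b c d => R a c b d) i l j k
  simp only [← s] at t2 t3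
  have e1 : ∀ i j p q : Fin 6, ∑ a, ∑ b, ∑ c, ∑ d, g a i * g b j * g c p * g d q * R a b c d =
      rot g R i j p q := fun _ _ _ _ => rfl
  simp only [e1] at t1
  have L : quad (rot g R) i j k l = (∑ p, ∑ q, rot g R i j p q * rot g R k l p q) +
      2 * (∑ p, ∑ q, rot g R i p k q * rot g R j p l q) -
      2 * (∑ p, ∑ q, rot g R i p l q * rot g R j p k q) := by
    simp only [quad, mul_sum, ← sum_add_distrib, ← sum_sub_distrib]
    exact sum_congr rfl fun p _ => sum_congr rfl fun q _ => by ring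
  rw [L, t1, t2, t3]
  have u2 : (∑ a, ∑ b, ∑ a', ∑ b', g a i * g b k * g a' j * g b' l *
      ∑ c, ∑ d, R a c b d * R a' c b' d) =
      ∑ a, ∑ a', ∑ b, ∑ b', g a i * g a' j * g b k * g b' l *
      ∑ c, ∑ d, R a c b d * R a' c b' d := by
    refine sum_congr rfl fun a _ => ?_
    rw [sum_comm]
    exact sum_congr rfl fun a' _ => sum_congr rfl fun b _ => sum_congr rfl fun b' _ => by ring
  have u3 : (∑ a, ∑ b, ∑ a', ∑ b', g a i * g b l * g a' j * g b' k *
      ∑ c, ∑ d, R a c b d * R a' c b' d) =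
      ∑ a, ∑ a', ∑ b', ∑ b, g a i * g a' j * g b' k * g b l *
      ∑ c, ∑ d, R a c b d * R a' c b' d := by
    refine sum_congr rfl fun a _ => ?_
    rw [sum_comm]
    refine sum_congr rfl fun a' _ => ?_
    rw [sum_comm]
    exact sum_congr rfl fun b' _ => sum_congr rfl fun b _ => by ring
  rw [u2, u3]
  simp only [rot, quad, mul_sum, ← sum_add_distrib, ← sum_sub_distrib]
  refine sum_congr rfl fun a _ => sum_congr rfl fun b _ => sum_congr rfl fun c _ =>
    sum_congr rfl fun d _ => sum_congr rfl fun p _ => sum_congr rfl fun q _ => ?_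
  ring

theorem rot_sub_smul (g : M6) (P Q : T6) (r : ℝ) :
    rot g (fun i j k l => P i j k l - r * Q i j k l) =
      fun i j k l => rot g P i j k l - r * rot g Q i j k l := by
  funext i j k l
  simp only [rot, mul_sum, ← sum_sub_distrib]
  exact sum_congr rfl fun a _ => sum_congr rfl fun b _ => sum_congr rfl fun c _ =>
    sum_congr rfl fun d _ => by ring

theorem react_rot (R : T6) {g : M6} (hg : gᵀ * g = 1) : react (rot g R) = rot g (react R) := by
  have h : react R = fun i j k l => quad R i j k l - 10 * R i j k l := rfl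
  rw [h, rot_sub_smul, ← quad_rot R hg]
  rfl

/-! ### The class is invariant -/

theorem sec_rot {R : T6} (h : SecNonneg R) (g : M6) : SecNonneg (rot g R) := by
  intro x y
  have h1 := Pool.Agent.H69Hopf.ev_comb R (fun i => gᵀ i) x y x y
  rw [← rot_eq_pull] at h1
  have h2 := h (Pool.Agent.H69Hopf.comb (fun i => gᵀ i) x)
    (Pool.Agent.H69Hopf.comb (fun i => gᵀ i) y)
  have h3 : Pool.Agent.H69Hopf.ev (rot g R) x y x y =
      ∑ i, ∑ j, ∑ k, ∑ l, rot g R i j k l * x i * y j * x k * y l := rfl
  rw [← h3, ← h1]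
  exact h2

theorem Cls.rot {R : T6} (h : Cls R) {g : M6} (hg : gᵀ * g = 1) : Cls (rot g R) :=
  ⟨rot_isAlgCurv h.alg g, ric_rot_const h.ein g hg, sec_rot h.sec g⟩

/-- Sectional curvature of coordinate planes. -/
theorem Cls.diag {R : T6} (h : Cls R) (i j : Fin 6) : 0 ≤ R i j i j := by
  have := h.sec (Pi.single i 1) (Pi.single j 1)
  simpa [Pi.single_apply] using this

theorem Cls.diag_le {R : T6} (h : Cls R) (i j : Fin 6) : R i j i j ≤ 5 := by
  have h1 := h.ein i i
  rw [if_pos rfl] at h1
  rw [← h1]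
  exact single_le_sum (f := fun j => R i j i j) (fun j _ => h.diag i j) (mem_univ j)

/-- Expansion of the sectional curvature of `e_i + s e_k`, `e_j + t e_l`. -/
theorem Cls.expand {R : T6} (h : Cls R) (i j k l : Fin 6) (s t : ℝ) :
    0 ≤ R i j i j + s ^ 2 * R k j k j + t ^ 2 * R i l i l + s ^ 2 * t ^ 2 * R k l k l +
      t * (R i j i l + R i l i j) + s * (R i j k j + R k j i j) +
      s ^ 2 * t * (R k j k l + R k l k j) + s * t ^ 2 * (R i l k l + R k l i l) +
      s * t * (R i j k l + R i l k j + R k j i l + R k l i j) := by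
  have := h.sec (fun a => Pi.single (M := fun _ => ℝ) i 1 a + s * Pi.single (M := fun _ => ℝ) k 1 a)
    (fun a => Pi.single (M := fun _ => ℝ) j 1 a + t * Pi.single (M := fun _ => ℝ) l 1 a)
  simp only [Pi.single_apply, mul_add, add_mul, sum_add_distrib, mul_ite, ite_mul, mul_zero,
    zero_mul, mul_one, sum_ite_eq', mem_univ, if_true] at this
  nlinarith [this]

theorem Cls.bound {R : T6} (h : Cls R) (i j k l : Fin 6) : |R i j k l| ≤ 7 := by
  have hD : ∀ i j k l : Fin 6, |R i j k l + R i l k j| ≤ 10 := by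
    intro i j k l
    have h1 := h.expand i j k l 1 1
    have h2 := h.expand i j k l (-1) (-1)
    have h3 := h.expand i j k l 1 (-1)
    have h4 := h.expand i j k l (-1) 1
    have d1 := h.diag_le i j
    have d2 := h.diag_le k j
    have d3 := h.diag_le i l
    have d4 := h.diag_le k l
    have p1 := h.alg.pair k j i l
    have p2 := h.alg.pair k l i j
    rw [abs_le]
    constructor <;> linarith
  have a1 := abs_le.1 (hD i j k l)
  have a2 := abs_le.1 (hD i j l k)
  have b := h.alg.bianchi j k i l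
  have s1 := h.alg.skew j k i l
  have sk2 : ∀ a b c d, R a b c d = - R a b d c := by
    intro a b c d
    rw [h.alg.pair a b c d, h.alg.skew c d a b, h.alg.pair d c a b]
  have e1 : R i j l k = - R i j k l := sk2 i j l k
  have e2 : R k i j l = - R i k j l := h.alg.skew k i j l
  have e3 : R j k i l = R i l j k := h.alg.pair j k i l
  have e4 : R i l j k = - R i l k j := sk2 i l j k
  have e5 : R i k l j = - R i k j l := sk2 i k l j
  rw [abs_le]
  constructor <;> linarith

theorem isClosed_cls : IsClosed {x : T6 | Cls x} := by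
  have : {x : T6 | Cls x} =
      ({x | ∀ i j k l, x i j k l = - x j i k l} ∩ {x | ∀ i j k l, x i j k l = x k l i j} ∩
      {x | ∀ i j k l, x i j k l + x j k i l + x k i j l = 0}) ∩
      {x | ∀ i k, ric x i k = if i = k then 5 else 0} ∩
      {x | ∀ a b : Fin 6 → ℝ, 0 ≤ ∑ i, ∑ j, ∑ k, ∑ l, x i j k l * a i * b j * a k * b l} := by
    ext x
    constructor
    · rintro ⟨⟨h1, h2, h3⟩, h4, h5⟩
      exact ⟨⟨⟨⟨h1, h2⟩, h3⟩, h4⟩, h5⟩
    · rintro ⟨⟨⟨⟨h1, h2⟩, h3⟩, h4⟩, h5⟩
      exact ⟨⟨h1, h2, h3⟩, h4, h5⟩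
  rw [this]
  refine IsClosed.inter (IsClosed.inter (IsClosed.inter (IsClosed.inter ?_ ?_) ?_) ?_) ?_
  · simp only [Set.ofPred_forall]
    exact isClosed_iInter fun i => isClosed_iInter fun j => isClosed_iInter fun k =>
      isClosed_iInter fun l => isClosed_eq (by fun_prop) (by fun_prop)
  · simp only [Set.ofPred_forall]
    exact isClosed_iInter fun i => isClosed_iInter fun j => isClosed_iInter fun k =>
      isClosed_iInter fun l => isClosed_eq (by fun_prop) (by fun_prop)
  · simp only [Set.ofPred_forall]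
    exact isClosed_iInter fun i => isClosed_iInter fun j => isClosed_iInter fun k =>
      isClosed_iInter fun l => isClosed_eq (by fun_prop) (by fun_prop)
  · simp only [Set.ofPred_forall]
    exact isClosed_iInter fun i => isClosed_iInter fun k =>
      isClosed_eq (by unfold ric; fun_prop) (by fun_prop)
  · simp only [Set.ofPred_forall]
    exact isClosed_iInter fun a => isClosed_iInter fun b =>
      isClosed_le (by fun_prop) (by fun_prop)

theorem isCompact_cls : IsCompact {x : T6 | Cls x} := by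
  have hbox : IsCompact (Set.univ.pi fun _ : Fin 6 => Set.univ.pi fun _ : Fin 6 =>
      Set.univ.pi fun _ : Fin 6 => Set.univ.pi fun _ : Fin 6 => Set.Icc (-7 : ℝ) 7) :=
    isCompact_univ_pi fun _ => isCompact_univ_pi fun _ => isCompact_univ_pi fun _ =>
      isCompact_univ_pi fun _ => isCompact_Icc
  refine hbox.of_isClosed_subset isClosed_cls ?_
  intro x hx i _ j _ k _ l _
  exact abs_le.1 (Cls.bound hx i j k l)

end EinsteinSix
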