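import Pool.Agent.Lib.EinsteinSix.Slices

/-!
# Chunk PW: the pointwise inequality
-/

set_option autoImplicit false

namespace EinsteinSix

open Finset Matrix H91.Split

/-- **Pointwise inequality** at a best splitting. -/
theorem pointwise {R : T6} (h : Cls R)
    (hmax : ∀ g : M6, gᵀ * g = 1 → ell (rot g R) ≤ ell R) :
    12 * (15 - 2 * ell R) ≤
      HopfSix.gaussBonnet R + 192 * max 0 (ell R - 11 / 2) * ell (react R) := by
  have hA : AdmE R := ⟨h, hmax⟩
  have he := ell_trT hA.lin
  have ht : 12 * (15 - 2 * ell R) = 12 * HopfKC.trT R := by rw [he]; ring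
  rw [ht]
  rcases le_total 4 (HopfKC.trT R) with h4 | h4
  · have h0 : max 0 (ell R - 11 / 2) = 0 := max_eq_left (by linarith)
    rw [h0, mul_zero, zero_mul, add_zero]
    rcases le_total (47 / 10) (HopfKC.trT R) with h5 | h5
    · exact slice_A1 hA h5
    · exact slice_A2 hA h4 h5
  · have h0 : max 0 (ell R - 11 / 2) = (4 - HopfKC.trT R) / 2 := by
      rw [he, max_eq_right (by linarith)]
      ring
    have e : HopfSix.gaussBonnet R + 192 * max 0 (ell R - 11 / 2) * ell (react R) =
        HopfSix.gaussBonnet R + 96 * (4 - HopfKC.trT R) * ell (react R) := by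
      rw [h0]
      ring
    rw [e]
    rcases le_total 3 (HopfKC.trT R) with h3 | h3
    · exact slice_B1 hA h3 h4
    · exact slice_B2 hA h3

end EinsteinSix
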