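import Pool.Agent.Lib.EinsteinSix.RigidA

/-!
# The equality case: lower bound of the reaction term and the tensor of `H³ × H³`

PROOF of `react_lower` (A = {0,1,2}, B = {3,4,5}, τ = 15 - 2 ell R = sum of the nine mixed
sectional curvatures `R i b i b`, all `≥ 0`; κ_ij = R i j i j; k the third index of A).
`ell (react R) = ∑_{i<j in A} [ ∑_pq R_ijpq² + 2 ∑_pq (R_ipiq R_jpjq - R_ipjq R_jpiq) ] - 10 ell R`.
* `p, q ∈ A` : `2 κ_ij² + 2 κ_ik κ_jk` and squares `R_ikjk²` with net coefficient `+2`;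
  `∑ κ² + ∑ κ κ' ≥ (2/3) ell²`, so the diagonal part minus `10 ell` is `≥ -(2/3) τ ell ≥ -5 τ`.
* one of `p, q` in `A`, the other in `B`: squares `2 R_ijpb²` (all `p ∈ A`, `b ∈ B`) and cross terms
  `4 (R_ikib R_jkjb - R_ikjb R_jkib)`; the first is `≥ -2 (R_ikib² + R_jkjb²)`, absorbed by the
  squares; with `v_0 = R_120b, v_1 = R_201b, v_2 = R_012b`, `∑ v = 0` (Bianchi), the second sums
  over the pairs to `4 (v_0 v_1 + v_0 v_2 + v_1 v_2) = -2 ∑ v²`, cancelled by `2 ∑ v²`. So `≥ 0`.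
* `p, q ∈ B`: `∑_bc R_ijbc² + 2 ∑_bc R_ibic R_jbjc - 2 ∑_bc R_ibjc R_jbic`. The middle term is `≥ 0`
  (trace of a product of two positive semidefinite 3x3 matrices; or bound it by
  `|R_ibic| ≤ (R_ibib + R_icic)/2`, entries `O(τ)`: `≥ -c τ²` is enough). With
  `M = (R_ibjc + R_jbic)/2`, `N = (R_ibjc - R_jbic)/2`, `R_ijbc = 2 N_bc`, the rest is
  `6 |N|² - 2 |M|²`, `6 |N|² = 3 ∑_{b<c} R_ijbc²`, and `|M_bc| ≤ (Q_bb + Q_cc)/2`,
  `Q_bb = (R_ibib + R_jbjb)/2` (use sec >= 0 at `x = e_i ± e_j`, `y = e_b ± e_c`), so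
  `2 ∑|M|² ≤ 2 τ²`.
Total: `≥ -5 τ - 2 τ² + 3 nsq R ≥ 3 nsq R - 7 τ` for `τ ≤ 1`. (Weaker constants are fine: any
`3 nsq R - 11 τ` would do; tell helper60.)

PROOF of `eq_h3h3`: all mixed sectional curvatures vanish. `K(e_i, ·) ≥ 0` has a zero at `e_b`, so
`R_ibil = 0` and `R_ibkb = 0` for all `k, l` (i ∈ A, b ∈ B). Four signs at `x = e_i ± e_k`,
`y = e_b ± e_c`: `R_ibkc = -R_ickb`; hence with Bianchi `R_ikbc = 2 R_ibkc`, which is `0` by
`nsq R = 0`. `R_ibkv` (i, k, v ∈ A): sec at `x = e_i ± e_k`, `y = e_b` is zero, so `R_ibkv + R_kbiv = 0`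
(first order condition in direction `v`), totally skew in `i, k, v`, so `0` by Bianchi; same for
three indices in `B`. Finally Einstein on the three-dimensional block: constant curvature `5/2`.
-/

set_option autoImplicit false

namespace EinsteinSix

open Finset Matrix H91.Split

/-- First block of indices. -/
def fA : Fin 3 → Fin 6 := ![0, 1, 2]
/-- Second block of indices. -/
def fB : Fin 3 → Fin 6 := ![3, 4, 5]

theorem lin_zero {a b : ℝ} (h : ∀ t : ℝ, 0 ≤ t * a + t ^ 2 * b) : a = 0 := by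
  by_contra hne
  have ha : 0 < a ^ 2 := by positivity
  have hb : 0 < |b| + 1 := by positivity
  have h1 := h (-a / (|b| + 1))
  have h2 : (-a / (|b| + 1)) * a + (-a / (|b| + 1)) ^ 2 * b = -(a ^ 2) * (|b| + 1 - b) / (|b| + 1) ^ 2 := by
    field_simp
    ring
  rw [h2, le_div_iff₀ (by positivity), zero_mul] at h1
  have h3 : 0 < |b| + 1 - b := by linarith [le_abs_self b]
  nlinarith [mul_pos ha h3]

theorem z2 {R : T6} (ha : HopfSix.IsAlgCurv R) (h : SecNonneg R) {i b : Fin 6} (h0 : R i b i b = 0)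
    (l : Fin 6) : R i b i l = 0 := by
  have e := ha.pair i l i b
  have := lin_zero (a := 2 * R i b i l) (b := R i l i l) fun t => by
    have := sec_four h i i b l 0 t
    rw [h0, e] at this
    nlinarith
  linarith

theorem z2b {R : T6} (ha : HopfSix.IsAlgCurv R) (h : SecNonneg R) {i b : Fin 6} (h0 : R i b i b = 0)
    (k : Fin 6) : R i b k b = 0 := by
  have e := ha.pair k b i b
  have := lin_zero (a := 2 * R i b k b) (b := R k b k b) fun t => by
    have := sec_four h i k b b t 0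
    rw [h0, e] at this
    nlinarith
  linarith

theorem z3 {R : T6} (ha : HopfSix.IsAlgCurv R) (h : SecNonneg R) {i k b c : Fin 6}
    (h1 : R i b i b = 0) (h2 : R k b k b = 0) (h3 : R i c i c = 0) (h4 : R k c k c = 0) :
    R i b k c + R i c k b = 0 := by
  have e1 := ha.pair k b i c
  have e2 := ha.pair k c i b
  have f1 := z2 ha h h1 c
  have f2 := z2 ha h h3 b
  have f3 := z2 ha h h2 c
  have f4 := z2 ha h h4 b
  have f5 := z2b ha h h1 k
  have f6 := z2b ha h h2 i
  have f7 := z2b ha h h3 k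
  have f8 := z2b ha h h4 i
  have g1 := sec_four h i k b c 1 1
  have g2 := sec_four h i k b c 1 (-1)
  rw [h1, h2, h3, h4, f1, f2, f3, f4, f5, f6, f7, f8, e1, e2] at g1 g2
  linarith

theorem z4 {R : T6} (ha : HopfSix.IsAlgCurv R) (h : SecNonneg R) {i k b : Fin 6} (v : Fin 6)
    (h1 : R i b i b = 0) (h2 : R k b k b = 0) : R i b k v + R k b i v = 0 := by
  have e1 := ha.pair i v k b
  have e2 := ha.pair k v i b
  have e3 := ha.pair i v i b
  have e4 := ha.pair k v k b
  have f1 := z2 ha h h1 v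
  have f3 := z2 ha h h2 v
  have f5 := z2b ha h h1 k
  have f6 := z2b ha h h2 i
  have := lin_zero (a := 2 * (R i b k v + R k b i v)) (b := R i v i v + R i v k v + R k v i v + R k v k v)
    fun t => by
      have := sec_four h i k b v 1 t
      rw [e1, e2, e3, e4, h1, h2, f1, f3, f5, f6] at this
      nlinarith
  linarith

theorem z5 {R : T6} (ha : HopfSix.IsAlgCurv R) (h : SecNonneg R) {i b c : Fin 6} (d : Fin 6)
    (h1 : R i b i b = 0) (h2 : R i c i c = 0) : R i b d c + R i c d b = 0 := by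
  have e1 := ha.pair d b i c
  have e2 := ha.pair d c i b
  have e3 := ha.pair d b i b
  have e4 := ha.pair d c i c
  have e5 := ha.pair i c i b
  have f1 := z2 ha h h1 c
  have f5 := z2b ha h h1 d
  have f6 := z2b ha h h2 d
  have := lin_zero (a := 2 * (R i b d c + R i c d b)) (b := R d b d b + R d b d c + R d c d b + R d c d c)
    fun s => by
      have := sec_four h i d b c s 1
      rw [e1, e2, e3, e4, e5, h1, h2, f1, f5, f6] at this
      nlinarith
  linarith

/-- A three-dimensional algebraic curvature tensor with `Ric = 5` has constant curvature. -/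
theorem three_dim (S : Fin 3 → Fin 3 → Fin 3 → Fin 3 → ℝ) (hs : ∀ i j k l, S i j k l = -S j i k l)
    (hp : ∀ i j k l, S i j k l = S k l i j) (hr : ∀ i k, ∑ j, S i j k j = if i = k then 5 else 0)
    (i j k l : Fin 3) :
    S i j k l = 5 / 2 * ((if i = k then 1 else 0) * (if j = l then 1 else 0) -
      (if i = l then 1 else 0) * (if j = k then 1 else 0)) := by
  have hz1 : ∀ i k l, S i i k l = 0 := fun i k l => by linarith [hs i i k l]
  have hz2 : ∀ i j k, S i j k k = 0 := fun i j k => by rw [hp, hz1]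
  have hs1 : ∀ i j k l, j < i → S i j k l = -S j i k l := fun i j k l _ => hs i j k l
  have hs2 : ∀ i j k l, l < k → S i j k l = -S i j l k := fun i j k l _ => by
    rw [hp i j k l, hs k l i j, hp l k i j]
  have hp1 : ∀ i j k l, (k < i ∨ (k = i ∧ l < j)) → S i j k l = S k l i j := fun i j k l _ => hp i j k l
  have r0 := hr 0 0
  have r1 := hr 1 1
  have r2 := hr 2 2
  have r3 := hr 0 1
  have r4 := hr 0 2
  have r5 := hr 1 2
  simp only [Fin.sum_univ_three] at r0 r1 r2 r3 r4 r5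
  simp (disch := decide) [hz1, hz2, hs1, hs2, hp1] at r0 r1 r2 r3 r4 r5
  have k1 : S 0 1 0 1 = 5 / 2 := by linarith
  have k2 : S 0 2 0 2 = 5 / 2 := by linarith
  have k3 : S 1 2 1 2 = 5 / 2 := by linarith
  have k4 : S 0 1 1 2 = 0 := by linarith
  have k5 : S 0 1 0 2 = 0 := by linarith
  have k6 : S 0 2 1 2 = 0 := by linarith
  have k7 : S 1 2 0 1 = 0 := by rw [hp]; exact k4
  have k8 : S 0 2 0 1 = 0 := by rw [hp]; exact k5
  have k9 : S 1 2 0 2 = 0 := by rw [hp]; exact k6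
  fin_cases i <;> fin_cases j <;> fin_cases k <;> fin_cases l <;>
    simp (disch := decide) [hz1, hz2, hs1, hs2, k1, k2, k3, k4, k5, k6, k7, k8, k9]

/-- Minus the curvature tensor of the product of two hyperbolic three-spaces of curvature `-c`. -/
noncomputable def prodTensor (c : ℝ) : T6 := fun i j k l =>
  if (i < 3 ↔ j < 3) then c * ((if i = k then 1 else 0) * (if j = l then 1 else 0) -
    (if i = l then 1 else 0) * (if j = k then 1 else 0)) else 0

theorem fA_lt (i : Fin 3) : fA i < 3 := by fin_cases i <;> decide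
theorem fB_lt (i : Fin 3) : ¬ fB i < 3 := by fin_cases i <;> decide
theorem fA_inj (i j : Fin 3) : fA i = fA j ↔ i = j := by fin_cases i <;> fin_cases j <;> decide
theorem fB_inj (i j : Fin 3) : fB i = fB j ↔ i = j := by fin_cases i <;> fin_cases j <;> decide
theorem fA_ne (i j : Fin 3) : fA i ≠ fB j := by fin_cases i <;> fin_cases j <;> decide
theorem fB_ne (i j : Fin 3) : fB i ≠ fA j := by fin_cases i <;> fin_cases j <;> decide
theorem split_idx (i : Fin 6) : (∃ a, i = fA a) ∨ ∃ b, i = fB b := by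
  fin_cases i
  exacts [Or.inl ⟨0, rfl⟩, Or.inl ⟨1, rfl⟩, Or.inl ⟨2, rfl⟩, Or.inr ⟨0, rfl⟩, Or.inr ⟨1, rfl⟩,
    Or.inr ⟨2, rfl⟩]

theorem sum_split6 (f : Fin 6 → ℝ) : ∑ j, f j = ∑ a, f (fA a) + ∑ b, f (fB b) := by
  simp only [Fin.sum_univ_six, Fin.sum_univ_three]
  simp [fA, fB]
  ring

theorem eq_h3h3 {R : T6} (h : Cls R) (h0 : 15 - 2 * ell R = 0) (hn : nsq R = 0) :
    R = prodTensor (5 / 2) := by
  have ha := h.alg
  have hs := h.sec
  have sk := ha.skew
  have pr := ha.pair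
  have sk2 : ∀ i j k l, R i j k l = -R i j l k := fun i j k l => by rw [pr i j k l, sk k l i j, pr l k i j]
  have hz1 : ∀ i k l, R i i k l = 0 := fun i k l => by linarith [sk i i k l]
  have hd : ∀ i j, R i j i j = R j i j i := fun i j => by
    rw [sk i j i j, sk2 j i i j]; ring
  -- mixed sectional curvatures vanish
  have e0 : R 0 1 0 1 + R 0 2 0 2 + R 0 3 0 3 + R 0 4 0 4 + R 0 5 0 5 = 5 := by
    have := h.ein 0 0
    simp only [ric, Fin.sum_univ_six, hz1, if_true] at this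
    linarith
  have e1 : R 0 1 0 1 + R 1 2 1 2 + R 1 3 1 3 + R 1 4 1 4 + R 1 5 1 5 = 5 := by
    have := h.ein 1 1
    simp only [ric, Fin.sum_univ_six, hz1, if_true] at this
    rw [hd 0 1]
    linarith
  have e2 : R 0 2 0 2 + R 1 2 1 2 + R 2 3 2 3 + R 2 4 2 4 + R 2 5 2 5 = 5 := by
    have := h.ein 2 2
    simp only [ric, Fin.sum_univ_six, hz1, if_true] at this
    rw [hd 0 2, hd 1 2]
    linarith
  have he : ell R = R 0 1 0 1 + R 0 2 0 2 + R 1 2 1 2 := rfl
  have p := fun i b => pos_diag hs i b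
  have hK : ∀ i b : Fin 3, R (fA i) (fB b) (fA i) (fB b) = 0 := by
    intro i b
    have q1 := p 0 3
    have q2 := p 0 4
    have q3 := p 0 5
    have q4 := p 1 3
    have q5 := p 1 4
    have q6 := p 1 5
    have q7 := p 2 3
    have q8 := p 2 4
    have q9 := p 2 5
    fin_cases i <;> fin_cases b <;> simp only [fA, fB] <;> simp <;> linarith
  -- the mixed part of `Λ² A × Λ² B`
  have hN : ∀ i k b c : Fin 3, R (fA i) (fA k) (fB b) (fB c) = 0 := by
    unfold nsq at hn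
    have q : ∀ x : ℝ, 0 ≤ x ^ 2 := fun x => sq_nonneg x
    have n1 : R 0 1 3 4 = 0 := by
      apply pow_eq_zero_iff (two_ne_zero) |>.1
      linarith [q (R 0 1 3 4), q (R 0 1 3 5), q (R 0 1 4 5), q (R 0 2 3 4), q (R 0 2 3 5), q (R 0 2 4 5),
        q (R 1 2 3 4), q (R 1 2 3 5), q (R 1 2 4 5)]
    have n2 : R 0 1 3 5 = 0 := by
      apply pow_eq_zero_iff (two_ne_zero) |>.1
      linarith [q (R 0 1 3 4), q (R 0 1 3 5), q (R 0 1 4 5), q (R 0 2 3 4), q (R 0 2 3 5), q (R 0 2 4 5),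
        q (R 1 2 3 4), q (R 1 2 3 5), q (R 1 2 4 5)]
    have n3 : R 0 1 4 5 = 0 := by
      apply pow_eq_zero_iff (two_ne_zero) |>.1
      linarith [q (R 0 1 3 4), q (R 0 1 3 5), q (R 0 1 4 5), q (R 0 2 3 4), q (R 0 2 3 5), q (R 0 2 4 5),
        q (R 1 2 3 4), q (R 1 2 3 5), q (R 1 2 4 5)]
    have n4 : R 0 2 3 4 = 0 := by
      apply pow_eq_zero_iff (two_ne_zero) |>.1
      linarith [q (R 0 1 3 4), q (R 0 1 3 5), q (R 0 1 4 5), q (R 0 2 3 4), q (R 0 2 3 5), q (R 0 2 4 5),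
        q (R 1 2 3 4), q (R 1 2 3 5), q (R 1 2 4 5)]
    have n5 : R 0 2 3 5 = 0 := by
      apply pow_eq_zero_iff (two_ne_zero) |>.1
      linarith [q (R 0 1 3 4), q (R 0 1 3 5), q (R 0 1 4 5), q (R 0 2 3 4), q (R 0 2 3 5), q (R 0 2 4 5),
        q (R 1 2 3 4), q (R 1 2 3 5), q (R 1 2 4 5)]
    have n6 : R 0 2 4 5 = 0 := by
      apply pow_eq_zero_iff (two_ne_zero) |>.1
      linarith [q (R 0 1 3 4), q (R 0 1 3 5), q (R 0 1 4 5), q (R 0 2 3 4), q (R 0 2 3 5), q (R 0 2 4 5),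
        q (R 1 2 3 4), q (R 1 2 3 5), q (R 1 2 4 5)]
    have n7 : R 1 2 3 4 = 0 := by
      apply pow_eq_zero_iff (two_ne_zero) |>.1
      linarith [q (R 0 1 3 4), q (R 0 1 3 5), q (R 0 1 4 5), q (R 0 2 3 4), q (R 0 2 3 5), q (R 0 2 4 5),
        q (R 1 2 3 4), q (R 1 2 3 5), q (R 1 2 4 5)]
    have n8 : R 1 2 3 5 = 0 := by
      apply pow_eq_zero_iff (two_ne_zero) |>.1
      linarith [q (R 0 1 3 4), q (R 0 1 3 5), q (R 0 1 4 5), q (R 0 2 3 4), q (R 0 2 3 5), q (R 0 2 4 5),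
        q (R 1 2 3 4), q (R 1 2 3 5), q (R 1 2 4 5)]
    have n9 : R 1 2 4 5 = 0 := by
      apply pow_eq_zero_iff (two_ne_zero) |>.1
      linarith [q (R 0 1 3 4), q (R 0 1 3 5), q (R 0 1 4 5), q (R 0 2 3 4), q (R 0 2 3 5), q (R 0 2 4 5),
        q (R 1 2 3 4), q (R 1 2 3 5), q (R 1 2 4 5)]
    have hz2 : ∀ i j k, R i j k k = 0 := fun i j k => by rw [pr, hz1]
    have hs1 : ∀ i j k l, j < i → R i j k l = -R j i k l := fun i j k l _ => sk i j k l
    have hs2 : ∀ i j k l, l < k → R i j k l = -R i j l k := fun i j k l _ => sk2 i j k l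
    intro i k b c
    fin_cases i <;> fin_cases k <;> fin_cases b <;> fin_cases c <;> simp only [fA, fB] <;>
      simp (disch := decide) [hz1, hz2, hs1, hs2, n1, n2, n3, n4, n5, n6, n7, n8, n9]
  -- one pair in `A × B`
  have hM1 : ∀ i k b c : Fin 3, R (fA i) (fB b) (fA k) (fB c) = 0 := by
    intro i k b c
    have a1 := z3 ha hs (hK i b) (hK k b) (hK i c) (hK k c)
    have a2 := ha.bianchi (fA i) (fA k) (fB b) (fB c)
    have a3 := hN i k b c
    have a4 := pr (fA k) (fB b) (fA i) (fB c)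
    have a5 := sk (fB b) (fA i) (fA k) (fB c)
    linarith
  have hM2 : ∀ i k v b : Fin 3, R (fA i) (fB b) (fA k) (fA v) = 0 := by
    intro i k v b
    have a : ∀ i k v : Fin 3, R (fA i) (fB b) (fA k) (fA v) = -R (fA k) (fB b) (fA i) (fA v) := fun i k v => by
      linarith [z4 ha hs (fA v) (hK i b) (hK k b)]
    have c : ∀ i k v : Fin 3, R (fA i) (fB b) (fA k) (fA v) = -R (fA i) (fB b) (fA v) (fA k) := fun i k v =>
      sk2 _ _ _ _
    have d := ha.bianchi (fA i) (fA k) (fA v) (fB b)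
    rw [pr (fA i) (fA k) (fA v) (fB b), pr (fA k) (fA v) (fA i) (fB b), pr (fA v) (fA i) (fA k) (fB b)] at d
    linarith [a i k v, a v i k, c k i v, c v i k, a k v i, c i v k, a i v k, c v k i, a v k i, c k v i, c i k v]
  have hM3 : ∀ i b c e : Fin 3, R (fA i) (fB b) (fB c) (fB e) = 0 := by
    intro i b c e
    have a : ∀ b c e : Fin 3, R (fA i) (fB b) (fB e) (fB c) = -R (fA i) (fB c) (fB e) (fB b) := fun b c e => by
      linarith [z5 ha hs (fB e) (hK i b) (hK i c)]
    have g : ∀ b c e : Fin 3, R (fA i) (fB b) (fB c) (fB e) = -R (fA i) (fB b) (fB e) (fB c) := fun b c e =>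
      sk2 _ _ _ _
    have d := ha.bianchi (fB c) (fB e) (fB b) (fA i)
    rw [pr (fB c) (fB e) (fB b) (fA i), pr (fB e) (fB b) (fB c) (fA i), pr (fB b) (fB c) (fB e) (fA i),
      sk (fB b) (fA i), sk (fB c) (fA i), sk (fB e) (fA i)] at d
    linarith [a b c e, a c e b, a e b c, g b c e, g c e b, g e b c]
  have hM : ∀ (i b : Fin 3) (k l : Fin 6), R (fA i) (fB b) k l = 0 := by
    intro i b k l
    rcases split_idx k with ⟨k, rfl⟩ | ⟨k, rfl⟩ <;> rcases split_idx l with ⟨l, rfl⟩ | ⟨l, rfl⟩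
    · exact hM2 i k l b
    · exact hM1 i k b l
    · rw [sk2, hM1 i l b k, neg_zero]
    · exact hM3 i b k l
  have hM' : ∀ (i b : Fin 3) (k l : Fin 6), R k l (fA i) (fB b) = 0 := fun i b k l => by rw [pr, hM]
  -- the two blocks
  have hA := three_dim (fun i j k l => R (fA i) (fA j) (fA k) (fA l)) (fun i j k l => sk _ _ _ _)
    (fun i j k l => pr _ _ _ _) (fun i k => by
      have e := h.ein (fA i) (fA k)
      rw [ric, sum_split6] at e
      simp only [hM, sum_const_zero, add_zero, fA_inj] at e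
      exact e)
  have hB := three_dim (fun i j k l => R (fB i) (fB j) (fB k) (fB l)) (fun i j k l => sk _ _ _ _)
    (fun i j k l => pr _ _ _ _) (fun i k => by
      have e := h.ein (fB i) (fB k)
      rw [ric, sum_split6] at e
      simp only [sk (fB _) (fA _), hM, neg_zero, sum_const_zero, zero_add, fB_inj] at e
      exact e)
  funext i j k l
  unfold prodTensor
  rcases split_idx i with ⟨i, rfl⟩ | ⟨i, rfl⟩ <;> rcases split_idx j with ⟨j, rfl⟩ | ⟨j, rfl⟩
  · rw [if_pos (by simp [fA_lt])]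
    rcases split_idx k with ⟨k, rfl⟩ | ⟨k, rfl⟩ <;> rcases split_idx l with ⟨l, rfl⟩ | ⟨l, rfl⟩
    · simp only [fA_inj]; exact hA i j k l
    · rw [hM']; simp [fA_ne]
    · rw [sk2, hM']; simp [fA_ne]
    · rw [hN]; simp [fA_ne]
  · rw [hM, if_neg (by simp [fA_lt, fB_lt])]
  · rw [sk, hM, if_neg (by simp [fA_lt, fB_lt]), neg_zero]
  · rw [if_pos (by simp [fB_lt])]
    rcases split_idx k with ⟨k, rfl⟩ | ⟨k, rfl⟩ <;> rcases split_idx l with ⟨l, rfl⟩ | ⟨l, rfl⟩
    · rw [pr, hN]; simp [fB_ne]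
    · rw [hM']; simp [fB_ne]
    · rw [sk2, hM']; simp [fB_ne]
    · simp only [fB_inj]; exact hB i j k l

end EinsteinSix
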