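import Pool.Agent.Lib.EinsteinSix.ApAbs
import Pool.Agent.Lib.EinsteinSix.ApGeo
import Pool.Agent.Lib.EinsteinSix.Pointwise
import Pool.Agent.Lib.EinsteinSix.Rigid

/-!
# Chunk AP: approximation by power means over a finite set of frames

Idea. `𝒦 = {x | Cls x}` is compact. Let `s x = sup over orthogonal g of ell (rot g x)` (between `3`
and `15/2`). By `pointwise` and compactness there is `δ > 0` such that for `x ∈ 𝒦` and every
`δ`-near maximiser `g`, `gaussBonnet x + 192 max 0 (s x - 11/2) * ell (rot g (react x)) ≥ -ε/2`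
(use `react (rot g x) = rot g (react x)` and `gaussBonnet (rot g x) = gaussBonnet x`).
Take a finite net `g` of orthogonal matrices, `k` large, `u i = ell (rot (g i) x) ≥ 0`,
`z = ∑ u i ^ k`, `‖u‖_k = z^(1/k)`, weights `u i ^ (k-1) / z^((k-1)/k)`, whose sum lies in
`[1, N^(1/k)]` and which are tiny on indices that are not near maximisers. Put
`γη s = 96 (√((s-11/2)²+η²) + (s-11/2))` (smooth, increasing, uniformly close to
`192 max 0 (s-11/2)`), `h₀ z = γη (z^(1/k)) * z^(1/k-1) / k`; then
`h₀ z * ∑ k u^(k-1) ell(..) = γη(‖u‖_k) ∑ w_i ell(..)`, and `z^(1-1/k) h₀ z` is increasing, hence by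
Cauchy–Schwarz `(∑ u^(k-1) v)² ≤ z ∑ u^(k-2) v²`
`h₀ z ∑ k(k-1)u^(k-2)v² + h₀' z (∑ k u^(k-1) v)² ≥ 0`.
Finally approximate `h₀` in `C¹` on `[a,b]` by a polynomial (Weierstrass for `h₀'`, integrate).
The abstract statement is `Ap.abs_approx` in `ApAbs.lean`.
-/

set_option autoImplicit false

namespace EinsteinSix

open Finset Matrix H91.Split Polynomial

/-- Smoothing of `2 c max 0 (s - a)`. -/
theorem smoothing1 (c a : ℝ) (hc : 0 < c) (η : ℝ) (hη : 0 < η) :
    ∃ γ₁ γ₁' : ℝ → ℝ, (∀ s, HasDerivAt γ₁ (γ₁' s) s) ∧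
    Continuous γ₁' ∧ (∀ s, 0 ≤ γ₁' s) ∧ (∀ s, 0 ≤ γ₁ s) ∧
    ∀ s, |γ₁ s - 2 * c * max 0 (s - a)| ≤ η := by
  have hpos : ∀ s : ℝ, 0 < (s - a) ^ 2 + (η / c) ^ 2 := fun s => by positivity
  have habs : ∀ s : ℝ, |s - a| ≤ √((s - a) ^ 2 + (η / c) ^ 2) := fun s =>
    Real.abs_le_sqrt (by nlinarith [sq_nonneg (η / c)])
  refine ⟨fun s => c * (√((s - a) ^ 2 + (η / c) ^ 2) + (s - a)),
    fun s => c * ((s - a) / √((s - a) ^ 2 + (η / c) ^ 2) + 1), ?_, ?_, ?_, ?_, ?_⟩
  · intro s
    have h1 : HasDerivAt (fun s : ℝ => s - a) 1 s := (hasDerivAt_id s).sub_const _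
    have h2 : HasDerivAt (fun s : ℝ => (s - a) ^ 2 + (η / c) ^ 2) (2 * (s - a)) s := by
      refine ((h1.fun_pow 2).add_const ((η / c) ^ 2)).congr_deriv ?_
      norm_num
    have h3 := h2.sqrt (hpos s).ne'
    refine ((h3.fun_add h1).const_mul c).congr_deriv ?_
    rw [mul_div_mul_left _ _ (by norm_num : (2 : ℝ) ≠ 0)]
  · have hc' : Continuous fun s : ℝ => √((s - a) ^ 2 + (η / c) ^ 2) := by fun_prop
    refine continuous_const.mul (Continuous.add (Continuous.div (by fun_prop) hc' ?_)
      continuous_const)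
    exact fun s => (Real.sqrt_pos.2 (hpos s)).ne'
  · intro s
    have h0 : 0 < √((s - a) ^ 2 + (η / c) ^ 2) := Real.sqrt_pos.2 (hpos s)
    have h1 : -1 ≤ (s - a) / √((s - a) ^ 2 + (η / c) ^ 2) := by
      rw [le_div_iff₀ h0]
      have := (abs_le.1 (habs s)).1
      linarith
    exact mul_nonneg hc.le (by linarith)
  · intro s
    have := (abs_le.1 (habs s)).1
    exact mul_nonneg hc.le (by linarith)
  · intro s
    have hη' : 0 < η / c := div_pos hη hc
    have h1 : √((s - a) ^ 2 + (η / c) ^ 2) ≤ |s - a| + η / c := by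
      rw [Real.sqrt_le_left (by positivity)]
      have : (|s - a| + η / c) ^ 2 = (s - a) ^ 2 + (η / c) ^ 2 +
          2 * |s - a| * (η / c) := by
        rw [add_sq, sq_abs]; ring
      rw [this]
      have : 0 ≤ 2 * |s - a| * (η / c) := by positivity
      linarith
    have h2 := habs s
    have h3 : |s - a| = 2 * max 0 (s - a) - (s - a) := by
      rcases le_total 0 (s - a) with h | h
      · rw [abs_of_nonneg h, max_eq_right h]; ring
      · rw [abs_of_nonpos h, max_eq_left h]; ring
    show |c * (√((s - a) ^ 2 + (η / c) ^ 2) + (s - a)) - 2 * c * max 0 (s - a)| ≤ η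
    rw [h3] at h1 h2
    have h4 : c * (√((s - a) ^ 2 + (η / c) ^ 2) + (s - a)) - 2 * c * max 0 (s - a) =
        c * (√((s - a) ^ 2 + (η / c) ^ 2) + (s - a) - 2 * max 0 (s - a)) := by ring
    have h5 : c * (η / c) = η := by field_simp
    rw [h4, abs_mul, abs_of_pos hc]
    calc c * |√((s - a) ^ 2 + (η / c) ^ 2) + (s - a) - 2 * max 0 (s - a)| ≤ c * (η / c) := by
          refine mul_le_mul_of_nonneg_left ?_ hc.le
          rw [abs_le]
          constructor <;> linarith
      _ = η := h5

/-- The convex weight: derivative of `96 (s - 11/2)₊² + (s - 7)₊²`. -/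
noncomputable def gam (s : ℝ) : ℝ := 192 * max 0 (s - 11 / 2) + 2 * max 0 (s - 7)

theorem gam_nonneg (s : ℝ) : 0 ≤ gam s := by
  unfold gam
  positivity

theorem continuous_gam : Continuous gam := by
  unfold gam
  fun_prop

theorem smoothing (η : ℝ) (hη : 0 < η) : ∃ γ₁ γ₁' : ℝ → ℝ, (∀ s, HasDerivAt γ₁ (γ₁' s) s) ∧
    Continuous γ₁' ∧ (∀ s, 0 ≤ γ₁' s) ∧ (∀ s, 0 ≤ γ₁ s) ∧
    ∀ s, |γ₁ s - gam s| ≤ η := by
  obtain ⟨f, f', h1, h2, h3, h4, h5⟩ := smoothing1 96 (11 / 2) (by norm_num) (η / 2) (by positivity)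
  obtain ⟨k, k', g1, g2, g3, g4, g5⟩ := smoothing1 1 7 (by norm_num) (η / 2) (by positivity)
  refine ⟨fun s => f s + k s, fun s => f' s + k' s, fun s => (h1 s).fun_add (g1 s), h2.add g2,
    fun s => add_nonneg (h3 s) (g3 s), fun s => add_nonneg (h4 s) (g4 s), fun s => ?_⟩
  have e1 := h5 s
  have e2 := g5 s
  rw [abs_le] at e1 e2 ⊢
  unfold gam
  constructor <;> linarith [e1.1, e1.2, e2.1, e2.2]

/-- The scalar curvature of a three-plane is nonnegative. -/
theorem Cls.ell_nonneg {R : T6} (h : Cls R) : 0 ≤ ell R := by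
  have h1 := h.diag 0 1
  have h2 := h.diag 0 2
  have h3 := h.diag 1 2
  unfold ell
  linarith

/-- Some three-plane has positive scalar curvature. -/
theorem Cls.exists_pos {R : T6} (h : Cls R) : ∃ g : M6, gᵀ * g = 1 ∧ 0 < ell (H91.Split.rot g R) := by
  have h1 := h.ein 0 0
  rw [if_pos rfl] at h1
  have h2 : ∃ j, 0 < R 0 j 0 j := by
    by_contra hcon
    push Not at hcon
    have : ric R 0 0 ≤ 0 := sum_nonpos fun j _ => hcon j
    linarith
  obtain ⟨j, hj⟩ := h2
  have hj0 : j ≠ 0 := by
    rintro rfl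
    have := h.alg.skew 0 0 0 0
    linarith
  set σ : Equiv.Perm (Fin 6) := Equiv.swap 1 j with hσ
  set g : M6 := fun a i => if a = σ i then 1 else 0 with hg
  have hrot : ∀ i k l m, H91.Split.rot g R i k l m = R (σ i) (σ k) (σ l) (σ m) := by
    intro i k l m
    simp only [H91.Split.rot, hg]
    rw [Finset.sum_eq_single (σ i), Finset.sum_eq_single (σ k), Finset.sum_eq_single (σ l),
      Finset.sum_eq_single (σ m)]
    · simp
    all_goals first | (intro b _ hb; simp [hb]) | (intro h; exact absurd (mem_univ _) h)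
  refine ⟨g, ?_, ?_⟩
  · ext a b
    simp only [Matrix.mul_apply, Matrix.transpose_apply, Matrix.one_apply, hg]
    by_cases hab : a = b
    · subst hab; simp
    · rw [if_neg hab]
      refine sum_eq_zero fun x _ => ?_
      by_cases h1 : x = σ a
      · have : x ≠ σ b := fun h2 => hab (σ.injective (h1.symm.trans h2))
        simp [this]
      · simp [h1]
  · unfold ell
    rw [hrot, hrot, hrot]
    have e0 : σ 0 = 0 := Equiv.swap_apply_of_ne_of_ne (by decide) (Ne.symm hj0)
    have e1 : σ 1 = j := Equiv.swap_apply_left 1 j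
    rw [e0, e1]
    have := h.diag 0 (σ 2)
    have := h.diag j (σ 2)
    linarith

/-- The compact space of curvature tensors. -/
abbrev KX : Type := {x : T6 // Cls x}

/-- The compact space of orthogonal matrices. -/
abbrev KO : Type := {O : Fin 6 → Fin 6 → ℝ // ∀ i j, ∑ m, O m i * O m j = if i = j then 1 else 0}

theorem KO.orth (O : KO) : (Matrix.of O.1 : M6)ᵀ * Matrix.of O.1 = 1 := (orth_iff _).2 O.2

theorem continuous_rot_entry {X : Type*} [TopologicalSpace X] (T : X × KO → T6)
    (hT : ∀ i j k l, Continuous fun p => T p i j k l) (i j k l : Fin 6) :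
    Continuous fun p : X × KO => rot (Matrix.of p.2.1) (T p) i j k l := by
  have hentry : ∀ i j, Continuous fun p : X × KO => (p.2.1 i j : ℝ) := by
    intro i j
    have h1 : Continuous fun p : X × KO => p.2.1 := continuous_subtype_val.comp continuous_snd
    exact (continuous_apply j).comp ((continuous_apply i).comp h1)
  simp only [rot, Matrix.of_apply]
  refine continuous_finsetSum _ fun a _ => continuous_finsetSum _ fun b _ =>
    continuous_finsetSum _ fun c _ => continuous_finsetSum _ fun d _ => ?_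
  exact ((((hentry a i).mul (hentry b j)).mul (hentry c k)).mul (hentry d l)).mul (hT a b c d)

theorem continuous_ell_rot {X : Type*} [TopologicalSpace X] (T : X × KO → T6)
    (hT : ∀ i j k l, Continuous fun p => T p i j k l) :
    Continuous fun p : X × KO => ell (rot (Matrix.of p.2.1) (T p)) := by
  have h1 := continuous_rot_entry T hT
  unfold ell
  exact ((h1 0 1 0 1).add (h1 0 2 0 2)).add (h1 1 2 1 2)

/-- The defect at a splitting. -/
noncomputable def dfr (R : T6) : ℝ := 5 * (15 - 2 * ell R) + 6 * max 0 (ell R - 7) * nsq R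

theorem continuous_dfr_rot {X : Type*} [TopologicalSpace X] (T : X × KO → T6)
    (hT : ∀ i j k l, Continuous fun p => T p i j k l) :
    Continuous fun p : X × KO => dfr (rot (Matrix.of p.2.1) (T p)) := by
  have h1 := continuous_rot_entry T hT
  have h2 := continuous_ell_rot T hT
  have h3 : Continuous fun p : X × KO => nsq (rot (Matrix.of p.2.1) (T p)) := by
    unfold nsq
    exact ((((h1 0 1 3 4).pow 2).add ((h1 0 1 3 5).pow 2)).add ((h1 0 1 4 5).pow 2) |>.add
      ((((h1 0 2 3 4).pow 2).add ((h1 0 2 3 5).pow 2)).add ((h1 0 2 4 5).pow 2))).add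
      ((((h1 1 2 3 4).pow 2).add ((h1 1 2 3 5).pow 2)).add ((h1 1 2 4 5).pow 2))
  unfold dfr
  exact (continuous_const.mul (continuous_const.sub (continuous_const.mul h2))).add
    ((continuous_const.mul (continuous_const.max (h2.sub continuous_const))).mul h3)

/-- The nine mixed sectional curvatures. -/
theorem Cls.mixed {R : T6} (h : Cls R) : 15 - 2 * ell R =
    R 0 3 0 3 + R 0 4 0 4 + R 0 5 0 5 + (R 1 3 1 3 + R 1 4 1 4 + R 1 5 1 5) +
      (R 2 3 2 3 + R 2 4 2 4 + R 2 5 2 5) := by
  have q : ∀ i j, R i j i j = R j i j i := by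
    intro i j
    have h1 := h.alg.skew i j i j
    have h2 := h.alg.pair j i i j
    have h3 := h.alg.skew i j j i
    linarith
  have z : ∀ i, R i i i i = 0 := by
    intro i
    have := h.alg.skew i i i i
    linarith
  have e0 := h.ein 0 0
  have e1 := h.ein 1 1
  have e2 := h.ein 2 2
  simp only [ric, Fin.sum_univ_six, if_true, z] at e0 e1 e2
  have q1 := q 0 1
  have q2 := q 0 2
  have q3 := q 1 2
  unfold ell
  linarith

theorem Cls.mixed_nonneg {R : T6} (h : Cls R) : 0 ≤ 15 - 2 * ell R := by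
  rw [h.mixed]
  have := h.diag 0 3
  have := h.diag 0 4
  have := h.diag 0 5
  have := h.diag 1 3
  have := h.diag 1 4
  have := h.diag 1 5
  have := h.diag 2 3
  have := h.diag 2 4
  have := h.diag 2 5
  positivity

theorem nsq_nonneg (R : T6) : 0 ≤ nsq R := by
  unfold nsq
  positivity

theorem Cls.dfr_nonneg {R : T6} (h : Cls R) : 0 ≤ dfr R := by
  have h1 := h.mixed_nonneg
  have h2 := nsq_nonneg R
  unfold dfr
  positivity

theorem Cls.dfr_zero {R : T6} (h : Cls R) (h0 : dfr R = 0) : R = prodTensor (5 / 2) := by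
  have h1 := h.mixed_nonneg
  have h2 := nsq_nonneg R
  unfold dfr at h0
  have h3 : 0 ≤ 6 * max 0 (ell R - 7) * nsq R := by positivity
  have h4 : 15 - 2 * ell R = 0 := by linarith
  refine eq_h3h3 h h4 ?_
  have h5 : max 0 (ell R - 7) = 1 / 2 := by
    rw [max_eq_right] <;> linarith
  rw [h4, h5] at h0
  linarith

/-- The pointwise inequality with the defect. -/
theorem pointwise_dfr {R : T6} (h : Cls R)
    (hmax : ∀ g : M6, gᵀ * g = 1 → ell (rot g R) ≤ ell R) :
    dfr R ≤ HopfSix.gaussBonnet R + gam (ell R) * ell (react R) := by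
  have h1 := pointwise h hmax
  have h2 := h.mixed_nonneg
  unfold dfr gam
  rcases le_total (ell R) 7 with h7 | h7
  · have h8 : max 0 (ell R - 7) = 0 := max_eq_left (by linarith)
    rw [h8]
    linarith
  · have h8 : max 0 (ell R - 7) = ell R - 7 := max_eq_right (by linarith)
    rw [h8]
    have h3 := react_lower h (by linarith)
    have h4 := nsq_nonneg R
    have h5 : (2 * (ell R - 7)) * (3 * nsq R - 7 * (15 - 2 * ell R)) ≤
        (2 * (ell R - 7)) * ell (react R) := mul_le_mul_of_nonneg_left h3 (by linarith)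
    have h6 : (2 * (ell R - 7)) * (7 * (15 - 2 * ell R)) ≤ 1 * (7 * (15 - 2 * ell R)) :=
      mul_le_mul_of_nonneg_right (by linarith) (by linarith)
    nlinarith

instance : CompactSpace KO := isCompact_iff_compactSpace.1 isCompact_orth
instance : Nonempty KO := ⟨⟨fun i j => if i = j then 1 else 0, fun i j => by simp [eq_comm]⟩⟩

theorem exists_max' {X O : Type*} [TopologicalSpace X] [TopologicalSpace O] [CompactSpace O]
    [Nonempty O] (u : X → O → ℝ) (hu : Continuous (Function.uncurry u)) :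
    ∃ s : X → ℝ, Continuous s ∧ (∀ x g, u x g ≤ s x) ∧ ∀ x, ∃ g, u x g = s x := by
  refine ⟨fun x => sSup (u x '' Set.univ), ?_, ?_, ?_⟩
  · exact isCompact_univ.continuous_sSup hu
  · intro x g
    have hc : Continuous (u x) := hu.comp (Continuous.prodMk_right x)
    exact le_csSup (isCompact_univ.image hc).bddAbove ⟨g, trivial, rfl⟩
  · intro x
    have hc : Continuous (u x) := hu.comp (Continuous.prodMk_right x)
    obtain ⟨g, _, hg⟩ := (isCompact_univ.image hc).sSup_mem (Set.univ_nonempty.image _)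
    exact ⟨g, hg⟩

theorem exists_defect : ∃ s : T6 → ℝ, Continuous s ∧ (∀ x (g : M6), gᵀ * g = 1 →
    s x ≤ dfr (rot g x)) ∧ ∀ x, ∃ g : M6, gᵀ * g = 1 ∧ dfr (rot g x) = s x := by
  have hx : ∀ i j k l, Continuous fun p : T6 × KO => (p.1 i j k l : ℝ) := fun i j k l =>
      (continuous_apply l).comp ((continuous_apply k).comp ((continuous_apply j).comp
        ((continuous_apply i).comp continuous_fst)))
  obtain ⟨s, hs, h1, h2⟩ := exists_max' (X := T6) (O := KO)
    (fun x g => -dfr (rot (Matrix.of g.1) x)) (continuous_dfr_rot (fun p : T6 × KO => p.1) hx).neg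
  refine ⟨fun x => -s x, hs.neg, fun x g hg => ?_, fun x => ?_⟩
  · have := h1 x ⟨Matrix.of.symm g, (orth_iff _).1 hg⟩
    simp only [Equiv.apply_symm_apply] at this
    linarith
  · obtain ⟨g, hg⟩ := h2 x
    exact ⟨Matrix.of g.1, g.orth, by linarith⟩

/-- The defect: minimum over all frames. -/
noncomputable def defect : T6 → ℝ := exists_defect.choose

theorem continuous_defect : Continuous defect := exists_defect.choose_spec.1

theorem defect_le (x : T6) {g : M6} (hg : gᵀ * g = 1) : defect x ≤ dfr (rot g x) :=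
  exists_defect.choose_spec.2.1 x g hg

theorem exists_eq_defect (x : T6) : ∃ g : M6, gᵀ * g = 1 ∧ dfr (rot g x) = defect x :=
  exists_defect.choose_spec.2.2 x

theorem approx (ε : ℝ) (hε : 0 < ε) : ∃ (N k : ℕ) (g : Fin N → M6),
    2 ≤ k ∧ (∀ i, (g i)ᵀ * g i = 1) ∧
    ∀ ε₁ : ℝ, 0 < ε₁ → ∃ h : ℝ[X], ∀ x : T6, Cls x →
      (defect x - ε ≤ HopfSix.gaussBonnet x +
        h.eval (∑ i, ell (rot (g i) x) ^ k) *
          ∑ i, (k : ℝ) * ell (rot (g i) x) ^ (k - 1) * ell (rot (g i) (react x))) ∧
      ∀ v : Fin N → ℝ, -ε₁ * ∑ i, v i ^ 2 ≤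
        h.eval (∑ i, ell (rot (g i) x) ^ k) *
          ∑ i, (k : ℝ) * ((k : ℝ) - 1) * ell (rot (g i) x) ^ (k - 2) * v i ^ 2 +
        (derivative h).eval (∑ i, ell (rot (g i) x) ^ k) *
          (∑ i, (k : ℝ) * ell (rot (g i) x) ^ (k - 1) * v i) ^ 2 := by
  have : CompactSpace KX := isCompact_iff_compactSpace.1 isCompact_cls
  have hx : ∀ i j k l, Continuous fun p : KX × KO => (p.1.1 i j k l : ℝ) := by
    intro i j k l
    have h1 : Continuous fun p : KX × KO => p.1.1 := continuous_subtype_val.comp continuous_fst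
    exact (continuous_apply l).comp ((continuous_apply k).comp ((continuous_apply j).comp
      ((continuous_apply i).comp h1)))
  have hu : Continuous (Function.uncurry fun (x : KX) (g : KO) => ell (rot (Matrix.of g.1) x.1)) :=
    continuous_ell_rot (fun p : KX × KO => p.1.1) hx
  have hw : Continuous (Function.uncurry fun (x : KX) (g : KO) =>
      ell (rot (Matrix.of g.1) (react x.1))) := by
    refine continuous_ell_rot (fun p : KX × KO => react p.1.1) fun i j k l => ?_
    simp only [react, quad]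
    refine Continuous.sub (continuous_finsetSum _ fun a _ => continuous_finsetSum _ fun b _ => ?_)
      (continuous_const.mul (hx i j k l))
    exact ((hx _ _ _ _).mul (hx _ _ _ _)).add (continuous_const.mul
      (((hx _ _ _ _).mul (hx _ _ _ _)).sub ((hx _ _ _ _).mul (hx _ _ _ _))))
  have hG0 : Continuous fun x : KX => HopfSix.gaussBonnet x.1 := by
    have hx' : ∀ i j k l, Continuous fun p : KX => (p.1 i j k l : ℝ) := by
      intro i j k l
      exact (continuous_apply l).comp ((continuous_apply k).comp ((continuous_apply j).comp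
        ((continuous_apply i).comp continuous_subtype_val)))
    unfold HopfSix.gaussBonnet
    refine continuous_finsetSum _ fun a _ => continuous_finsetSum _ fun b _ => ?_
    exact continuous_const.mul (((hx' _ _ _ _).mul (hx' _ _ _ _)).mul (hx' _ _ _ _))
  have hG : Continuous fun x : KX => HopfSix.gaussBonnet x.1 - defect x.1 :=
    hG0.sub (continuous_defect.comp continuous_subtype_val)
  obtain ⟨N, k, g, hk, H⟩ := Ap.abs_approx (X := KX) (O := KO)
    (fun x g => ell (rot (Matrix.of g.1) x.1)) (fun x g => ell (rot (Matrix.of g.1) (react x.1)))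
    (fun x => HopfSix.gaussBonnet x.1 - defect x.1) gam hu hw hG continuous_gam
    (fun x g => (x.2.rot g.orth).ell_nonneg)
    (fun x => by
      obtain ⟨g, hg, hpos⟩ := x.2.exists_pos
      exact ⟨⟨Matrix.of.symm g, (orth_iff _).1 hg⟩, hpos⟩)
    (fun x g hmax => by
      have h1 := pointwise_dfr (x.2.rot g.orth) (fun g' hg' => by
        rw [rot_rot]
        have h2 := orth_mul g.orth hg'
        exact hmax ⟨Matrix.of.symm (Matrix.of g.1 * g' : M6), (orth_iff _).1 h2⟩)
      rw [gb_rot _ g.orth, react_rot _ g.orth] at h1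
      have h3 := defect_le x.1 g.orth
      linarith)
    gam_nonneg smoothing ε hε
  refine ⟨N, k, fun i => Matrix.of (g i).1, hk, fun i => (g i).orth, fun ε₁ hε₁ => ?_⟩
  obtain ⟨h, hh⟩ := H ε₁ hε₁
  refine ⟨h, fun x hx => ⟨?_, (hh ⟨x, hx⟩).2⟩⟩
  have := (hh ⟨x, hx⟩).1
  simp only at this
  linarith

end EinsteinSix
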