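import Mathlib

/-!
# Chunk GE: Cartan's structure equations on the orthonormal frame bundle, algebraically

`A` is the algebra of smooth functions on the orthonormal frame bundle, `B m` the standard
horizontal vector fields, `V i j` the fundamental vertical vector fields of the skew matrices
`eᵢ eⱼᵀ - eⱼ eᵢᵀ`, and `R i j k l` the curvature functions (`R i j i j` = sectional curvature of
the plane spanned by the `i`-th and `j`-th vector of the frame).
-/

set_option autoImplicit false

namespace EinsteinSix

open Finset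

/-- Cartan's structure equations for a torsion-free metric connection. -/
structure Cartan (n : ℕ) (A : Type*) [CommRing A] [Algebra ℝ A] where
  B : Fin n → Derivation ℝ A A
  V : Fin n → Fin n → Derivation ℝ A A
  R : Fin n → Fin n → Fin n → Fin n → A
  V_skew : ∀ i j, V i j = -V j i
  R_skew : ∀ i j k l, R i j k l = -R i j l k
  VV : ∀ i j k l, ⁅V i j, V k l⁆ = (if j = k then V i l else 0) - (if j = l then V i k else 0)
    - (if i = k then V j l else 0) + (if i = l then V j k else 0)
  VB : ∀ i j m, ⁅V i j, B m⁆ = (if j = m then B i else 0) - (if i = m then B j else 0)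
  BB : ∀ i j, ⁅B i, B j⁆ = -((1 / 2 : ℝ) • ∑ k, ∑ l, R i j k l • V k l)
  indep : ∀ (a : Fin n → A) (b : Fin n → Fin n → A), (∀ i j, b i j = -b j i) →
    ∑ i, a i • B i + ∑ i, ∑ j, b i j • V i j = 0 → (∀ i, a i = 0) ∧ ∀ i j, b i j = 0

theorem dsum {ι A : Type*} [CommRing A] [Algebra ℝ A] (s : Finset ι)
    (D : ι → Derivation ℝ A A) (f : A) : (∑ i ∈ s, D i) f = ∑ i ∈ s, D i f := by
  classical
  induction s using Finset.induction_on with
  | empty => simp
  | insert a s ha ih => rw [sum_insert ha, sum_insert ha, Derivation.add_apply, ih]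

namespace Cartan

variable {n : ℕ} {A : Type*} [CommRing A] [Algebra ℝ A] (C : Cartan n A)

theorem skew12 (i j k l : Fin n) : C.R i j k l = -C.R j i k l := by
  have h1 : ⁅C.B i, C.B j⁆ + ⁅C.B j, C.B i⁆ = 0 := by
    rw [← lie_skew, neg_add_cancel]
  rw [C.BB i j, C.BB j i, ← neg_add, ← smul_add, ← sum_add_distrib, neg_eq_zero] at h1
  have h2 : ∑ k, ∑ l, (C.R i j k l + C.R j i k l) • C.V k l = 0 := by
    have h3 := congrArg (fun x => (2 : ℝ) • x) h1
    simp only [smul_zero] at h3
    rw [smul_smul] at h3
    norm_num at h3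
    rw [← h3]
    refine sum_congr rfl fun k _ => ?_
    rw [← sum_add_distrib]
    exact sum_congr rfl fun l _ => add_smul _ _ _
  have h4 := C.indep (fun _ => 0) (fun k l => C.R i j k l + C.R j i k l)
    (fun k l => by rw [C.R_skew i j k l, C.R_skew j i k l]; ring) (by simpa using h2)
  exact eq_neg_of_add_eq_zero_left (h4.2 k l)

theorem VB' (i j m : Fin n) (f : A) : C.V i j (C.B m f) = C.B m (C.V i j f) +
    (if j = m then C.B i f else 0) - (if i = m then C.B j f else 0) := by
  have h := congrArg (fun D : Derivation ℝ A A => D f) (C.VB i j m)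
  simp only [Derivation.commutator_apply] at h
  have e1 : ((if j = m then C.B i else 0) - (if i = m then C.B j else 0) :
      Derivation ℝ A A) f = (if j = m then C.B i f else 0) - (if i = m then C.B j f else 0) := by
    split_ifs <;> simp
  rw [e1] at h
  linear_combination h

theorem BBapp (i j : Fin n) (f : A) : (⁅C.B i, C.B j⁆ : Derivation ℝ A A) f =
    -((1 / 2 : ℝ) • ∑ k, ∑ l, C.R i j k l * C.V k l f) := by
  rw [C.BB i j, Derivation.neg_apply, Derivation.smul_apply, dsum]
  congr 2
  refine sum_congr rfl fun k _ => ?_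
  rw [dsum]
  exact sum_congr rfl fun l _ => by rw [Derivation.smul_apply, smul_eq_mul]

theorem BB' (i j : Fin n) (f : A) : C.B i (C.B j f) = C.B j (C.B i f) -
    (1 / 2 : ℝ) • ∑ k, ∑ l, C.R i j k l * C.V k l f := by
  have h := C.BBapp i j f
  rw [Derivation.commutator_apply] at h
  linear_combination h

/-- Halving is injective. -/
theorem half_cancel {x y : A} (h : (1 / 2 : ℝ) • x = (1 / 2 : ℝ) • y) : x = y := by
  have h3 : (2 : ℝ) • ((1 / 2 : ℝ) • x) = (2 : ℝ) • ((1 / 2 : ℝ) • y) := by rw [h]
  rw [smul_smul, smul_smul] at h3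
  norm_num at h3
  exact h3

theorem half_add (x : A) : (1 / 2 : ℝ) • (x + x) = x := by
  rw [← two_smul ℝ x, smul_smul]
  norm_num

theorem self_zero {x : A} (h : x = -x) : x = 0 := by
  have h1 : x + x = 0 := by nth_rewrite 1 [h]; exact neg_add_cancel x
  rw [← half_add x, h1, smul_zero]

/-- The double commutator of three horizontal fields. -/
theorem BBB (i j k : Fin n) (f : A) : (⁅C.B i, ⁅C.B j, C.B k⁆⁆ : Derivation ℝ A A) f =
    ∑ l, C.R j k l i * C.B l f - (1 / 2 : ℝ) • ∑ l, ∑ m, C.B i (C.R j k l m) * C.V l m f := by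
  rw [Derivation.commutator_apply, C.BBapp, C.BBapp, map_neg, Derivation.map_smul, map_sum]
  simp only [map_sum, Derivation.leibniz, smul_eq_mul, C.VB']
  have e1 : ∑ l, ∑ m, C.R j k l m * ((if m = i then C.B l f else 0) -
      (if l = i then C.B m f else 0)) = ∑ l, (C.R j k l i * C.B l f + C.R j k l i * C.B l f) := by
    have e2 : ∀ l m, C.R j k l m * ((if m = i then C.B l f else 0) -
        (if l = i then C.B m f else 0)) = (if m = i then C.R j k l i * C.B l f else 0) +
        (if l = i then C.R j k m i * C.B m f else 0) := by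
      intro l m
      by_cases h1 : m = i
      · by_cases h2 : l = i
        · subst h1; subst h2
          have := self_zero (C.R_skew j k l l)
          simp [this]
        · subst h1; simp [h2]
      · by_cases h2 : l = i
        · subst h2; simp only [h1, if_false, if_true, C.R_skew j k l m]; ring
        · simp [h1, h2]
    simp only [e2, sum_add_distrib, sum_ite_eq', mem_univ, if_true]
    congr 1
    rw [sum_comm]
    simp
  have e3 : ∑ l, (C.R j k l i * C.B l f) = (1 / 2 : ℝ) • ∑ l, ∑ m, C.R j k l m *
      ((if m = i then C.B l f else 0) - (if l = i then C.B m f else 0)) := by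
    rw [e1, sum_add_distrib, half_add]
  rw [e3, ← smul_sub, ← sub_eq_zero]
  rw [← sub_eq_zero.2 (rfl : (0 : A) = 0)]
  have e4 : ∀ (x y z : A), -((1 / 2 : ℝ) • x) - -((1 / 2 : ℝ) • y) - (1 / 2 : ℝ) • z =
      (1 / 2 : ℝ) • (y - x - z) := by
    intro x y z
    rw [smul_sub, smul_sub]; abel
  rw [e4]
  have e5 : ∀ (x : A), x = 0 → (1 / 2 : ℝ) • x = 0 - 0 := by
    intro x hx; rw [hx]; simp
  apply e5
  simp only [← sum_sub_distrib]
  refine sum_eq_zero fun l _ => sum_eq_zero fun m _ => ?_
  ring

theorem jacobi (i j k : Fin n) :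
    (∀ l, C.R j k l i + C.R k i l j + C.R i j l k = 0) ∧
      ∀ l m, C.B i (C.R j k l m) + C.B j (C.R k i l m) + C.B k (C.R i j l m) = 0 := by
  have h := lie_jacobi (C.B i) (C.B j) (C.B k)
  have h1 : ∑ l, (C.R j k l i + C.R k i l j + C.R i j l k) • C.B l + ∑ l, ∑ m,
      (-((1 / 2 : ℝ) • (C.B i (C.R j k l m) + C.B j (C.R k i l m) + C.B k (C.R i j l m)))) •
        C.V l m = 0 := by
    ext f
    have h2 := congrArg (fun D : Derivation ℝ A A => D f) h
    simp only [Derivation.add_apply, Derivation.zero_apply] at h2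
    rw [C.BBB, C.BBB, C.BBB] at h2
    rw [Derivation.add_apply, dsum, dsum, Derivation.zero_apply, ← h2]
    simp only [dsum, Derivation.smul_apply, smul_eq_mul, add_mul, neg_mul, smul_mul_assoc,
      sum_add_distrib, sum_neg_distrib, smul_add, ← smul_sum]
    abel
  have h3 := C.indep _ _ (fun l m => by
    rw [C.R_skew j k l m, C.R_skew k i l m, C.R_skew i j l m]
    simp only [map_neg]
    rw [← neg_add, ← neg_add, smul_neg]) h1
  refine ⟨h3.1, fun l m => ?_⟩
  have h4 := h3.2 l m
  rw [neg_eq_zero] at h4
  exact half_cancel (by rw [h4, smul_zero])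

/-- First Bianchi identity (from the horizontal part of the Jacobi identity of the `B`s). -/
theorem bianchi (i j k l : Fin n) : C.R i j k l + C.R j k i l + C.R k i j l = 0 := by
  have h := (C.jacobi i j k).1 l
  rw [C.R_skew j k l i, C.R_skew k i l j, C.R_skew i j l k] at h
  linear_combination -h

theorem pair (i j k l : Fin n) : C.R i j k l = C.R k l i j := by
  have b1 := C.bianchi i j k l
  have b2 := C.bianchi j k l i
  have b3 := C.bianchi k l i j
  have b4 := C.bianchi l i j k
  rw [C.R_skew j k l i, C.R_skew k l j i, C.skew12 l j k i] at b2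
  rw [C.skew12 l i k j, C.R_skew i l k j, C.skew12 i k l j, C.R_skew k i l j] at b3
  rw [C.skew12 l i j k, C.R_skew i j l k, C.R_skew j l i k] at b4
  have h : (C.R i j k l - C.R k l i j) + (C.R i j k l - C.R k l i j) = 0 := by
    linear_combination (exp := 1) b1 + b2 - b3 - b4
  exact sub_eq_zero.1 (by rw [← half_add (C.R i j k l - C.R k l i j), h, smul_zero])

/-- Second Bianchi identity (vertical part of the Jacobi identity of the `B`s). -/
theorem bianchi2 (m i j k l : Fin n) :
    C.B m (C.R i j k l) + C.B i (C.R j m k l) + C.B j (C.R m i k l) = 0 :=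
  (C.jacobi m i j).2 k l

theorem VVapp (a b k l : Fin n) (f : A) : (⁅C.V a b, C.V k l⁆ : Derivation ℝ A A) f =
    (if b = k then C.V a l f else 0) - (if b = l then C.V a k f else 0)
    - (if a = k then C.V b l f else 0) + (if a = l then C.V b k f else 0) := by
  rw [C.VV]
  split_ifs <;> simp

/-- The action of a vertical field on the commutator of two horizontal fields. -/
theorem VBB (a b i j : Fin n) (f : A) :
    (⁅C.V a b, ⁅C.B i, C.B j⁆⁆ : Derivation ℝ A A) f =
    -((1 / 2 : ℝ) • ∑ k, ∑ l, (C.V a b (C.R i j k l)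
      - ((if b = k then C.R i j a l else 0) - (if a = k then C.R i j b l else 0))
      - ((if b = l then C.R i j k a else 0) - (if a = l then C.R i j k b else 0))) *
        C.V k l f) := by
  rw [Derivation.commutator_apply, C.BBapp, C.BBapp, map_neg, Derivation.map_smul, map_sum]
  simp only [map_sum, Derivation.leibniz, smul_eq_mul]
  have e0 : ∀ x y z : A, x - y = z → -((1 / 2 : ℝ) • x) - -((1 / 2 : ℝ) • y) =
      -((1 / 2 : ℝ) • z) := by
    intro x y z h
    rw [← h, smul_sub]; abel
  apply e0
  simp only [← sum_sub_distrib]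
  have e1 : ∀ k l, C.R i j k l * C.V a b (C.V k l f) + C.V k l f * C.V a b (C.R i j k l) -
      C.R i j k l * C.V k l (C.V a b f) = C.V a b (C.R i j k l) * C.V k l f +
      (C.R i j k l * (if b = k then C.V a l f else 0) -
        C.R i j k l * (if b = l then C.V a k f else 0)
      - C.R i j k l * (if a = k then C.V b l f else 0) +
        C.R i j k l * (if a = l then C.V b k f else 0)) := by
    intro k l
    have h := C.VVapp a b k l f
    rw [Derivation.commutator_apply] at h
    linear_combination C.R i j k l * h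
  simp only [e1, sub_mul, sum_sub_distrib, sum_add_distrib, mul_ite, mul_zero, ite_mul, zero_mul]
  have r1 : ∑ k, ∑ l, (if b = k then C.R i j k l * C.V a l f else 0) =
      ∑ l, C.R i j b l * C.V a l f := by
    rw [sum_comm]
    simp
  have r2 : ∑ k, ∑ l, (if b = l then C.R i j k l * C.V a k f else 0) =
      ∑ k, C.R i j k b * C.V a k f := by simp
  have r3 : ∑ k, ∑ l, (if a = k then C.R i j k l * C.V b l f else 0) =
      ∑ l, C.R i j a l * C.V b l f := by
    rw [sum_comm]
    simp
  have r4 : ∑ k, ∑ l, (if a = l then C.R i j k l * C.V b k f else 0) =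
      ∑ k, C.R i j k a * C.V b k f := by simp
  have r5 : ∑ k, ∑ l, (if b = k then C.R i j a l * C.V k l f else 0) =
      ∑ l, C.R i j a l * C.V b l f := by
    rw [sum_comm]
    simp
  have r6 : ∑ k, ∑ l, (if a = k then C.R i j b l * C.V k l f else 0) =
      ∑ l, C.R i j b l * C.V a l f := by
    rw [sum_comm]
    simp
  have r7 : ∑ k, ∑ l, (if b = l then C.R i j k a * C.V k l f else 0) =
      ∑ k, C.R i j k a * C.V k b f := by simp
  have r8 : ∑ k, ∑ l, (if a = l then C.R i j k b * C.V k l f else 0) =
      ∑ k, C.R i j k b * C.V k a f := by simp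
  rw [r1, r2, r3, r4, r5, r6, r7, r8]
  have t1 : ∑ k, C.R i j k a * C.V k b f = -∑ k, C.R i j k a * C.V b k f := by
    rw [← sum_neg_distrib]
    refine sum_congr rfl fun k _ => ?_
    rw [C.V_skew k b, Derivation.neg_apply, mul_neg]
  have t2 : ∑ k, C.R i j k b * C.V k a f = -∑ k, C.R i j k b * C.V a k f := by
    rw [← sum_neg_distrib]
    refine sum_congr rfl fun k _ => ?_
    rw [C.V_skew k a, Derivation.neg_apply, mul_neg]
  rw [t1, t2]
  ring

theorem VBB' (a b i j : Fin n) (f : A) :
    (⁅C.V a b, ⁅C.B i, C.B j⁆⁆ : Derivation ℝ A A) f =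
    -((1 / 2 : ℝ) • ∑ k, ∑ l, ((if b = i then C.R a j k l else 0) -
      (if a = i then C.R b j k l else 0) + ((if b = j then C.R i a k l else 0) -
      (if a = j then C.R i b k l else 0))) * C.V k l f) := by
  have h := leibniz_lie (C.V a b) (C.B i) (C.B j)
  rw [h, C.VB, C.VB]
  have e1 : (⁅((if b = i then C.B a else 0) - (if a = i then C.B b else 0) :
      Derivation ℝ A A), C.B j⁆ : Derivation ℝ A A) =
      (if b = i then ⁅C.B a, C.B j⁆ else 0) - (if a = i then ⁅C.B b, C.B j⁆ else 0) := by
    split_ifs <;> simp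
  have e2 : (⁅C.B i, ((if b = j then C.B a else 0) - (if a = j then C.B b else 0) :
      Derivation ℝ A A)⁆ : Derivation ℝ A A) =
      (if b = j then ⁅C.B i, C.B a⁆ else 0) - (if a = j then ⁅C.B i, C.B b⁆ else 0) := by
    split_ifs <;> simp
  rw [e1, e2]
  have e3 : ∀ (p : Prop) [Decidable p] (D : Derivation ℝ A A),
      (if p then D else 0) f = if p then D f else 0 := by
    intro p _ D
    split_ifs <;> simp
  simp only [Derivation.add_apply, Derivation.sub_apply, e3, C.BBapp]
  have e4 : ∀ (p : Prop) [Decidable p] (i j : Fin n),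
      (if p then -((1 / 2 : ℝ) • ∑ k, ∑ l, C.R i j k l * C.V k l f) else 0) =
      -((1 / 2 : ℝ) • ∑ k, ∑ l, (if p then C.R i j k l else 0) * C.V k l f) := by
    intro p _ i j
    split_ifs <;> simp
  simp only [e4, add_mul, sub_mul, sum_add_distrib, sum_sub_distrib, smul_add, smul_sub]
  abel

/-- Equivariance of the curvature functions (Jacobi identity for `V`, `B`, `B`). -/
theorem V_R (a b i j k l : Fin n) : C.V a b (C.R i j k l) =
    (if b = i then C.R a j k l else 0) - (if a = i then C.R b j k l else 0)
    + ((if b = j then C.R i a k l else 0) - (if a = j then C.R i b k l else 0))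
    + ((if b = k then C.R i j a l else 0) - (if a = k then C.R i j b l else 0))
    + ((if b = l then C.R i j k a else 0) - (if a = l then C.R i j k b else 0)) := by
  have h1 : ∑ k, ∑ l, (C.V a b (C.R i j k l)
      - ((if b = k then C.R i j a l else 0) - (if a = k then C.R i j b l else 0))
      - ((if b = l then C.R i j k a else 0) - (if a = l then C.R i j k b else 0)) -
      ((if b = i then C.R a j k l else 0) - (if a = i then C.R b j k l else 0)
      + ((if b = j then C.R i a k l else 0) - (if a = j then C.R i b k l else 0)))) • C.V k l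
      = 0 := by
    ext f
    have h2 := (C.VBB a b i j f).symm.trans (C.VBB' a b i j f)
    have h3 := half_cancel (neg_injective h2)
    rw [dsum, Derivation.zero_apply]
    refine Eq.trans ?_ (sub_eq_zero.2 h3)
    rw [← sum_sub_distrib]
    refine sum_congr rfl fun k _ => ?_
    rw [dsum, ← sum_sub_distrib]
    refine sum_congr rfl fun l _ => ?_
    rw [Derivation.smul_apply, smul_eq_mul]
    ring
  have h2 := C.indep (fun _ => 0) _ (fun k l => ?_) (by
    simpa only [zero_smul, sum_const_zero, zero_add] using h1)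
  · have h3 := h2.2 k l
    linear_combination h3
  · rw [C.R_skew i j k l, C.R_skew a j k l, C.R_skew b j k l, C.R_skew i a k l, C.R_skew i b k l,
      C.R_skew i j a l, C.R_skew i j b l, C.R_skew i j k a, C.R_skew i j k b, map_neg]
    split_ifs <;> ring

/-- Contracted second Bianchi identity for an Einstein metric. -/
theorem contracted (lam : ℝ)
    (hE : ∀ i k, ∑ j, C.R i j k j = algebraMap ℝ A (if i = k then lam else 0))
    (j k l : Fin n) : ∑ m, C.B m (C.R m j k l) = 0 := by
  have h1 : ∀ m, C.B m (C.R m j k l) = C.B k (C.R l m j m) - C.B l (C.R k m j m) := by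
    intro m
    have h := C.bianchi2 m k l m j
    rw [C.R_skew l m m j, C.skew12 m k m j, C.R_skew k m m j, map_neg] at h
    rw [C.pair m j k l]
    simp only [neg_neg] at h
    linear_combination h
  simp only [h1, sum_sub_distrib, ← map_sum, hE, Derivation.map_algebraMap, sub_zero]

theorem contract_one (m i c : Fin n) (G : Fin n → A) :
    ∑ a, ∑ b, C.R m i a b * ((if b = c then G a else 0) - (if a = c then G b else 0)) =
      ∑ a, C.R m i a c * G a + ∑ a, C.R m i a c * G a := by
  have e2 : ∀ a b, C.R m i a b * ((if b = c then G a else 0) - (if a = c then G b else 0)) =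
      (if b = c then C.R m i a c * G a else 0) + (if a = c then C.R m i b c * G b else 0) := by
    intro a b
    by_cases h1 : b = c
    · by_cases h2 : a = c
      · subst h1; subst h2
        have := self_zero (C.R_skew m i a a)
        simp [this]
      · subst h1; simp [h2]
    · by_cases h2 : a = c
      · subst h2; simp only [h1, if_false, if_true, C.R_skew m i a b]; ring
      · simp [h1, h2]
  simp only [e2, sum_add_distrib, sum_ite_eq', mem_univ, if_true]
  congr 1
  rw [sum_comm]
  simp

theorem key (i j k l m : Fin n) :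
    (1 / 2 : ℝ) • ∑ a, ∑ b, C.R m i a b * C.V a b (C.R m j k l) =
    ∑ a, (C.R m i a m * C.R a j k l + C.R m i a j * C.R m a k l + C.R m i a k * C.R m j a l +
      C.R m i a l * C.R m j k a) := by
  simp only [C.V_R, mul_add, sum_add_distrib]
  rw [C.contract_one m i m (fun a => C.R a j k l), C.contract_one m i j (fun a => C.R m a k l),
    C.contract_one m i k (fun a => C.R m j a l), C.contract_one m i l (fun a => C.R m j k a)]
  simp only [smul_add, ← add_assoc]
  have h := fun x : A => half_add x
  simp only [smul_add] at h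
  have h1 := h (∑ a, C.R m i a m * C.R a j k l)
  have h2 := h (∑ a, C.R m i a j * C.R m a k l)
  have h3 := h (∑ a, C.R m i a k * C.R m j a l)
  have h4 := h (∑ a, C.R m i a l * C.R m j k a)
  linear_combination h1 + h2 + h3 + h4

/-- Laplacian of the curvature tensor of an Einstein metric. -/
theorem lapl (lam : ℝ)
    (hE : ∀ i k, ∑ j, C.R i j k j = algebraMap ℝ A (if i = k then lam else 0))
    (i j k l : Fin n) : ∑ m, C.B m (C.B m (C.R i j k l)) =
      (2 * lam) • C.R i j k l - ∑ p, ∑ q, (C.R i j p q * C.R k l p q +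
        2 * (C.R i p k q * C.R j p l q - C.R i p l q * C.R j p k q)) := by
  have h1 : ∀ m, C.B m (C.B m (C.R i j k l)) =
      C.B i (C.B m (C.R m j k l)) - C.B j (C.B m (C.R m i k l)) -
      (1 / 2 : ℝ) • ∑ a, ∑ b, C.R m i a b * C.V a b (C.R m j k l) +
      (1 / 2 : ℝ) • ∑ a, ∑ b, C.R m j a b * C.V a b (C.R m i k l) := by
    intro m
    have h := C.bianchi2 m i j k l
    rw [C.skew12 j m k l, map_neg] at h
    have h2 : C.B m (C.R i j k l) = C.B i (C.R m j k l) - C.B j (C.R m i k l) := by
      linear_combination h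
    rw [h2, map_sub, C.BB' m i, C.BB' m j]
    ring
  have hB : ∀ i j, ∑ m, C.B i (C.B m (C.R m j k l)) = 0 := by
    intro i j
    rw [← map_sum, C.contracted lam hE, map_zero]
  simp only [h1, C.key, sum_add_distrib, sum_sub_distrib]
  have hR : ∀ i a, ∑ m, C.R m i a m = -algebraMap ℝ A (if i = a then lam else 0) := by
    intro i a
    rw [← hE, ← sum_neg_distrib]
    refine sum_congr rfl fun m _ => ?_
    rw [C.skew12 m i a m]
  have hA : ∀ i j, ∑ m, ∑ a, C.R m i a m * C.R a j k l = -(lam • C.R i j k l) := by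
    intro i j
    rw [sum_comm]
    simp only [← sum_mul, hR]
    rw [sum_eq_single i]
    · simp [Algebra.smul_def]
    · intro a _ ha
      simp [Ne.symm ha]
    · simp
  have hS : ∑ m, ∑ a, C.R m i a j * C.R m a k l = -∑ m, ∑ a, C.R m j a i * C.R m a k l := by
    rw [sum_comm, ← sum_neg_distrib]
    refine sum_congr rfl fun m _ => ?_
    rw [← sum_neg_distrib]
    refine sum_congr rfl fun a _ => ?_
    rw [C.pair a i m j, C.skew12 a m k l]
    ring
  have hT : ∑ m, ∑ a, C.R m j a i * C.R m a k l + ∑ m, ∑ a, C.R m j a i * C.R m a k l =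
      -∑ p, ∑ q, C.R i j p q * C.R k l p q := by
    nth_rewrite 2 [← neg_neg (∑ m, ∑ a, C.R m j a i * C.R m a k l)]
    rw [← hS, ← sum_neg_distrib, ← sum_neg_distrib, ← sum_add_distrib]
    refine sum_congr rfl fun m _ => ?_
    rw [← sum_neg_distrib, ← sum_neg_distrib, ← sum_add_distrib]
    refine sum_congr rfl fun a _ => ?_
    have b1 := C.bianchi m j a i
    rw [C.skew12 j a m i, C.pair a j m i, C.pair a m j i, C.R_skew j i a m, C.skew12 j i m a] at b1
    rw [C.pair k l m a]
    linear_combination C.R m a k l * b1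
  rw [hB, hB, hA, hA, hS, C.skew12 j i k l]
  have f1 : ∑ m, ∑ a, C.R m i a k * C.R m j a l = ∑ p, ∑ q, C.R i p k q * C.R j p l q :=
    sum_congr rfl fun m _ => sum_congr rfl fun a _ => by
      rw [C.skew12 m i, C.R_skew i m a k, C.skew12 m j, C.R_skew j m a l]; ring
  have f2 : ∑ m, ∑ a, C.R m i a l * C.R m j k a = -∑ p, ∑ q, C.R i p l q * C.R j p k q := by
    rw [← sum_neg_distrib]
    refine sum_congr rfl fun m _ => ?_
    rw [← sum_neg_distrib]
    refine sum_congr rfl fun a _ => ?_
    rw [C.skew12 m i, C.R_skew i m a l, C.skew12 m j]; ring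
  have f3 : ∑ m, ∑ a, C.R m j a k * C.R m i a l = ∑ p, ∑ q, C.R i p l q * C.R j p k q :=
    sum_congr rfl fun m _ => sum_congr rfl fun a _ => by
      rw [C.skew12 m i, C.R_skew i m a l, C.skew12 m j, C.R_skew j m a k]; ring
  have f4 : ∑ m, ∑ a, C.R m j a l * C.R m i k a = -∑ p, ∑ q, C.R i p k q * C.R j p l q := by
    rw [← sum_neg_distrib]
    refine sum_congr rfl fun m _ => ?_
    rw [← sum_neg_distrib]
    refine sum_congr rfl fun a _ => ?_
    rw [C.skew12 m i, C.skew12 m j, C.R_skew j m a l]; ring
  rw [f1, f2, f3, f4]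
  simp only [mul_sub, ← mul_sum, sum_sub_distrib]
  rw [two_mul lam, add_smul]
  have h5 : lam • -C.R i j k l = -(lam • C.R i j k l) := smul_neg _ _
  rw [h5]
  linear_combination hT

end Cartan

end EinsteinSix
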