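import Pool.Agent.Lib.H87.HopfKC.Cert.Ker

/-!
# Data: the second target polynomial
-/

set_option autoImplicit false

namespace EinsteinSix

open HopfKC

/-- Data. -/
def tpT_0 : Tr ℕ := .nd 23 (.nd 11 (.nd 5 (.nd 2 (.nd 1 (.lf 10948071634878239525188943889211002823802241) (.lf 609932448661554399445121)) (.nd 3 (.lf 2183758362) (.nd 4 (.lf 2183823899) (.lf 2182447629)))) (.nd 8 (.nd 6 (.lf 2081194245) (.nd 7 (.lf 2081652998) (.lf 2182644240))) (.nd 9 (.lf 2081390856) (.nd 10 (.lf 2081849609) (.lf 9307675027200704650))))) (.nd 17 (.nd 14 (.nd 12 (.lf 2183954976) (.nd 13 (.lf 33036) (.lf 33301))) (.nd 15 (.lf 2081718542) (.nd 16 (.lf 33039) (.lf 33304)))) (.nd 20 (.nd 18 (.lf 2081915153) (.nd 19 (.lf 142032440164498) (.lf 33043))) (.nd 21 (.lf 33044) (.nd 22 (.lf 0) (.lf 33046)))))) (.nd 34 (.nd 28 (.nd 25 (.nd 24 (.lf 33047) (.lf 0)) (.nd 26 (.lf 9306830623746261145)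 (.nd 27 (.lf 33321) (.lf 33322)))) (.nd 31 (.nd 29 (.lf 2183627298) (.nd 30 (.lf 2082570525) (.lf 2082832670))) (.nd 32 (.lf 142023850229919) (.nd 33 (.lf 33324) (.lf 33057))))) (.nd 40 (.nd 37 (.nd 35 (.lf 33319) (.nd 36 (.lf 2082898211) (.lf 2167242916))) (.nd 38 (.lf 33061) (.nd 39 (.lf 33062) (.lf 0)))) (.nd 44 (.nd 41 (.lf 142032440623272) (.nd 43 (.lf 0) (.lf 2167242923))) (.nd 45 (.lf 0) (.nd 46 (.lf 32941) (.lf 0))))))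

/-- Packed rows of `v₀ ell(react)`. -/
def tpT : Tr ℕ := .nd 76 (tpT_0) (.lf 0)

/-- Data. -/
def tbT_0 : Tr ℕ := .nd 38 (.nd 19 (.nd 9 (.nd 4 (.nd 2 (.nd 1 (.lf 11383639710778433278468347557311863474258561) (.lf 10730287597212096383000366449917543945243009)) (.nd 3 (.lf 171702526577154) (.lf 171706821609987))) (.nd 6 (.nd 5 (.lf 171616626379268) (.lf 1879868421)) (.nd 7 (.lf 1880327174) (.nd 8 (.lf 171629511477767) (.lf 1880065032))))) (.nd 14 (.nd 11 (.nd 10 (.lf 1880523785) (.lf 163731478975221002768517697742233045386)) (.nd 12 (.lf 171715411872267) (.nd 13 (.lf 33804) (.lf 2618657293)))) (.nd 16 (.nd 15 (.lf 1880392718) (.lf 33807)) (.nd 17 (.lf 2618853904) (.nd 18 (.lf 1880589329) (.lf 2782293502235037841459762804918674)))))) (.nd 28 (.nd 23 (.nd 21 (.nd 20 (.lf 33811) (.lf 33812)) (.nd 22 (.lf 35349) (.lf 33814))) (.nd 25 (.nd 24 (.lf 33815)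 (.lf 35352)) (.nd 26 (.lf 38121639524078790074158778777) (.nd 27 (.lf 2619968026) (.lf 2620033563))))) (.nd 33 (.nd 30 (.nd 29 (.lf 171693937166876) (.lf 1881244701)) (.nd 31 (.lf 1881506846) (.nd 32 (.lf 581691065005504515574175) (.lf 2620164640)))) (.nd 35 (.nd 34 (.lf 33825) (.lf 2619836962)) (.nd 36 (.lf 1881572387) (.nd 37 (.lf 9884692183828171172) (.lf 33829))))))) (.nd 57 (.nd 47 (.nd 42 (.nd 40 (.nd 39 (.lf 33830) (.lf 35367)) (.nd 41 (.lf 150828667865512) (.lf 35369))) (.nd 44 (.nd 43 (.lf 35370) (.lf 2301462955)) (.nd 45 (.lf 35372) (.nd 46 (.lf 35245) (.lf 2318502446))))) (.nd 52 (.nd 49 (.nd 48 (.lf 35375) (.lf 35376)) (.nd 50 (.lf 35377) (.nd 51 (.lf 35378) (.lf 2318830131)))) (.nd 54 (.nd 53 (.lf 35380) (.lf 35381)) (.nd 55 (.lf 35382) (.nd 56 (.lf 35383) (.lf 2319157816)))))) (.nd 66 (.nd 61 (.nd 59 (.nd 58 (.lf 35385) (.lf 35386)) (.nd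 60 (.lf 35387) (.lf 35388))) (.nd 63 (.nd 62 (.lf 2319485501) (.lf 35390)) (.nd 64 (.lf 35391) (.nd 65 (.lf 35392) (.lf 35393))))) (.nd 71 (.nd 68 (.nd 67 (.lf 2319813186) (.lf 35395)) (.nd 69 (.lf 35396) (.nd 70 (.lf 35397) (.lf 35398)))) (.nd 73 (.nd 72 (.lf 2320140871) (.lf 35400)) (.nd 74 (.lf 35401) (.nd 75 (.lf 35402) (.lf 35403)))))))

/-- Data. -/
def tbT_1 : Tr ℕ := .nd 114 (.nd 95 (.nd 85 (.nd 80 (.nd 78 (.nd 77 (.lf 0) (.lf 169048188135193103661638080553567813130)) (.nd 79 (.lf 138716674425346) (.lf 138720969458179))) (.nd 82 (.nd 81 (.lf 138630774227460) (.lf 2215411461)) (.nd 83 (.lf 2215870214) (.nd 84 (.lf 138643659325959) (.lf 2215608072))))) (.nd 90 (.nd 87 (.nd 86 (.lf 2216066825) (.lf 39357180545127520090377584138)) (.nd 88 (.lf 138729559720459) (.nd 89 (.lf 32524) (.lf 2048228877)))) (.nd 92 (.nd 91 (.lf 2215935758) (.lf 32527))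 (.nd 93 (.lf 2048425488) (.nd 94 (.lf 2216132369) (.lf 600579809520998485163538)))))) (.nd 104 (.nd 99 (.nd 97 (.nd 96 (.lf 32531) (.lf 32532)) (.nd 98 (.lf 32277) (.lf 32534))) (.nd 101 (.nd 100 (.lf 32535) (.lf 32280)) (.nd 102 (.lf 8802425266423954969) (.nd 103 (.lf 2049539610) (.lf 2049605147))))) (.nd 109 (.nd 106 (.nd 105 (.lf 138708085015068) (.lf 2216787741)) (.nd 107 (.lf 2217049886) (.nd 108 (.lf 2234351391) (.lf 1982627360)))) (.nd 111 (.nd 110 (.lf 32545) (.lf 1982299682)) (.nd 112 (.lf 33571) (.nd 113 (.lf 2234220324) (.lf 32549))))))) (.nd 133 (.nd 123 (.nd 118 (.nd 116 (.nd 115 (.lf 33574) (.lf 32295)) (.nd 117 (.lf 139833383812648) (.lf 32297))) (.nd 120 (.nd 119 (.lf 32298) (.lf 32555)) (.nd 121 (.lf 32300) (.nd 122 (.lf 32557) (.lf 2184282670))))) (.nd 128 (.nd 125 (.nd 124 (.lf 33327) (.lf 33328)) (.nd 126 (.lf 33329) (.nd 127 (.lf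 33330) (.lf 2117500467)))) (.nd 130 (.nd 129 (.lf 2085191220) (.lf 2219081269)) (.nd 131 (.lf 32310) (.nd 132 (.lf 32311) (.lf 2117828152)))))) (.nd 142 (.nd 137 (.nd 135 (.nd 134 (.lf 2219343417) (.lf 2084798010)) (.nd 136 (.lf 32315) (.lf 32316))) (.nd 139 (.nd 138 (.lf 2185265725) (.lf 33342)) (.nd 140 (.lf 33343) (.nd 141 (.lf 33344) (.lf 33345))))) (.nd 147 (.nd 144 (.nd 143 (.lf 2118483522) (.lf 32323)) (.nd 145 (.lf 32324) (.nd 146 (.lf 32325) (.lf 32326)))) (.nd 149 (.nd 148 (.lf 2118811207) (.lf 32328)) (.nd 150 (.lf 32329) (.nd 151 (.lf 32330) (.lf 32331)))))))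

/-- Data. -/
def tbT_2 : Tr ℕ := .nd 183 (.nd 164 (.nd 158 (.nd 155 (.nd 154 (.lf 0) (.lf 167718939856998579414625309082420150794)) (.nd 156 (.lf 0) (.nd 157 (.lf 2215412741) (.lf 2216002573)))) (.nd 161 (.nd 159 (.lf 0) (.nd 160 (.lf 2215609352) (.lf 2216199184))) (.nd 162 (.lf 0) (.nd 163 (.lf 2116648474) (.lf 0))))) (.nd 177 (.nd 168 (.nd 165 (.lf 2216002573) (.nd 167 (.lf 0) (.lf 2216199184))) (.nd 170 (.lf 0) (.nd 171 (.lf 2116648474) (.lf 0)))) (.nd 180 (.nd 178 (.lf 2049539610) (.nd 179 (.lf 558078151726146024406559) (.lf 33836))) (.nd 181 (.lf 2216789021) (.nd 182 (.lf 2284291106) (.lf 2217113635)))))) (.nd 198 (.nd 188 (.nd 185 (.nd 184 (.lf 31273) (.lf 33834)) (.nd 186 (.lf 2284291106) (.nd 187 (.lf 0) (.lf 33829)))) (.nd 192 (.nd 189 (.lf 30249) (.nd 190 (.lf 30758) (.lf 0))) (.nd 193 (.lf 32297) (.nd 194 (.lf 2116910635) (.lf 0))))) (.nd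 204 (.nd 201 (.nd 199 (.lf 2218166323) (.nd 200 (.lf 2219411508) (.lf 2084866101))) (.nd 202 (.lf 2285274163) (.nd 203 (.lf 34871) (.lf 0)))) (.nd 209 (.nd 205 (.lf 31819) (.nd 206 (.lf 33862) (.lf 0))) (.nd 210 (.lf 2219473991) (.nd 211 (.lf 2084930626) (.lf 0))))))

/-- Data. -/
def tbT_3 : Tr ℕ := .nd 258 (.nd 244 (.nd 236 (.nd 233 (.nd 231 (.lf 0) (.nd 232 (.lf 167718939856998579414625309082420150794) (.lf 2215871494))) (.nd 234 (.lf 0) (.nd 235 (.lf 2216002573) (.lf 2216068105)))) (.nd 239 (.nd 237 (.lf 0) (.nd 238 (.lf 2216199184) (.lf 2116714011))) (.nd 241 (.lf 0) (.nd 242 (.lf 33811) (.lf 0))))) (.nd 251 (.nd 247 (.nd 245 (.lf 33814) (.nd 246 (.lf 0) (.lf 2116714011))) (.nd 248 (.lf 33813) (.nd 250 (.lf 0) (.lf 33816)))) (.nd 255 (.nd 253 (.lf 0) (.nd 254 (.lf 2049605147) (.lf 33836))) (.nd 256 (.lf 576967329427248453549599) (.nd 257 (.lf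 2217051166) (.lf 2015790115)))))) (.nd 271 (.nd 264 (.nd 261 (.nd 259 (.lf 2217183266) (.nd 260 (.lf 30250) (.lf 33833))) (.nd 262 (.lf 2217113635) (.nd 263 (.lf 34853) (.lf 0)))) (.nd 268 (.nd 265 (.lf 31274) (.nd 266 (.lf 33831) (.lf 0))) (.nd 269 (.lf 32298) (.nd 270 (.lf 0) (.lf 2116910635))))) (.nd 279 (.nd 276 (.nd 274 (.lf 0) (.nd 275 (.lf 2218494008) (.lf 2085128249))) (.nd 277 (.lf 2219018298) (.nd 278 (.lf 2285601848) (.lf 34876)))) (.nd 282 (.nd 280 (.lf 0) (.nd 281 (.lf 2219477063) (.lf 2084927554))) (.nd 286 (.nd 285 (.lf 0) (.lf 33867)) (.nd 287 (.lf 31814) (.lf 0))))))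

/-- Data. -/
def tbT_4 : Tr ℕ := .nd 327 (.nd 318 (.nd 311 (.nd 309 (.nd 308 (.lf 0) (.lf 167718939858236519453910693755298676234)) (.nd 310 (.lf 2217313306) (.lf 2217378843))) (.nd 315 (.nd 314 (.lf 0) (.lf 2048228877)) (.nd 316 (.lf 2215937038) (.nd 317 (.lf 2217313306) (.lf 2396928648234851586027968156760594))))) (.nd 322 (.nd 320 (.nd 319 (.lf 2284618784) (.lf 0)) (.nd 321 (.lf 33831) (.lf 2217113635))) (.nd 324 (.nd 323 (.lf 32277) (.lf 2217378843)) (.nd 325 (.lf 2284618784) (.nd 326 (.lf 39050070940917765302810279449) (.lf 0)))))) (.nd 361 (.nd 356 (.nd 329 (.nd 328 (.lf 2015790115) (.lf 33826)) (.nd 355 (.lf 0) (.lf 33865))) (.nd 358 (.nd 357 (.lf 0) (.lf 31807)) (.nd 359 (.lf 31817) (.nd 360 (.lf 33860) (.lf 31816))))) (.nd 366 (.nd 363 (.nd 362 (.lf 0) (.lf 33854)) (.nd 364 (.lf 33864) (.nd 365 (.lf 31811) (.lf 2219149378)))) (.nd 368 (.nd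 367 (.lf 34883) (.lf 34884)) (.nd 369 (.lf 2286257218) (.nd 370 (.lf 34886) (.lf 0))))))

/-- Data. -/
def tbT_5 : Tr ℕ := .nd 403 (.nd 393 (.nd 388 (.nd 386 (.nd 385 (.lf 0) (.lf 174365100118642252163074654962942377738)) (.nd 387 (.lf 30764) (.lf 0))) (.nd 390 (.nd 389 (.lf 30759) (.lf 2217116707)) (.nd 391 (.lf 33804) (.nd 392 (.lf 0) (.lf 40904629206428360650796925970))))) (.nd 398 (.nd 395 (.nd 394 (.lf 2217313306) (.lf 33834)) (.nd 396 (.lf 33831) (.nd 397 (.lf 0) (.lf 2015724574)))) (.nd 400 (.nd 399 (.lf 0) (.lf 33836)) (.nd 401 (.lf 30762) (.nd 402 (.lf 2284422170) (.lf 2015790115)))))) (.nd 432 (.nd 427 (.nd 405 (.nd 404 (.lf 2418374686) (.lf 2015462429)) (.nd 426 (.lf 0) (.lf 30793))) (.nd 429 (.nd 428 (.lf 0) (.lf 34879)) (.nd 430 (.lf 31817) (.nd 431 (.lf 33860) (.lf 31819))))) (.nd 437 (.nd 434 (.nd 433 (.lf 0) (.lf 33857)) (.nd 435 (.lf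 30795) (.nd 436 (.lf 34886) (.lf 2219477063)))) (.nd 439 (.nd 438 (.lf 0) (.lf 2084599869)) (.nd 440 (.lf 2286584903) (.nd 441 (.lf 2017819714) (.lf 0))))))

/-- Data. -/
def tbT_6 : Tr ℕ := .nd 479 (.nd 470 (.nd 465 (.nd 463 (.nd 462 (.lf 0) (.lf 169048269265141003278141122510826143498)) (.nd 464 (.lf 0) (.lf 2217116707))) (.nd 467 (.nd 466 (.lf 30754) (.lf 33811)) (.nd 468 (.lf 0) (.nd 469 (.lf 33836) (.lf 2284487707))))) (.nd 474 (.nd 472 (.nd 471 (.lf 30761) (.lf 2217113635)) (.nd 473 (.lf 2015724574) (.lf 2418112541))) (.nd 476 (.nd 475 (.lf 33811) (.lf 624192002228814543291417)) (.nd 477 (.lf 33833) (.nd 478 (.lf 2217378843) (.lf 33826)))))) (.nd 509 (.nd 504 (.nd 502 (.nd 480 (.lf 2015462429) (.lf 0)) (.nd 503 (.lf 34888) (.lf 0))) (.nd 506 (.nd 505 (.lf 30782) (.lf 33864)) (.nd 507 (.lf 31811) (.nd 508 (.lf 2219473991) (.lf 0))))) (.nd 513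 (.nd 511 (.nd 510 (.lf 2084602941) (.lf 2286584903)) (.nd 512 (.lf 2017819714) (.lf 33867))) (.nd 515 (.nd 514 (.lf 0) (.lf 31809)) (.nd 516 (.lf 34891) (.nd 517 (.lf 30790) (.lf 0))))))

/-- Data. -/
def tbT_7 : Tr ℕ := .nd 556 (.nd 547 (.nd 542 (.nd 540 (.nd 539 (.lf 0) (.lf 167718939858236519453910693755298676234)) (.nd 541 (.lf 2217313306) (.lf 2217378843))) (.nd 544 (.nd 543 (.lf 2048425488) (.lf 2216133649)) (.nd 545 (.lf 0) (.nd 546 (.lf 33831) (.lf 2015790115))))) (.nd 551 (.nd 549 (.nd 548 (.lf 2217313306) (.lf 2478058286649457979493381010192914)) (.nd 550 (.lf 2217510944) (.lf 32280))) (.nd 553 (.nd 552 (.lf 0) (.lf 2217113635)) (.nd 554 (.lf 33826) (.nd 555 (.lf 2217378843) (.lf 2217510944)))))) (.nd 590 (.nd 585 (.nd 583 (.nd 557 (.lf 39050089830383696781324025369) (.lf 0)) (.nd 584 (.lf 30788) (.lf 33855))) (.nd 587 (.nd 586 (.lf 0) (.lf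 31812)) (.nd 588 (.lf 31817) (.nd 589 (.lf 34883) (.lf 31806))))) (.nd 594 (.nd 592 (.nd 591 (.lf 0) (.lf 33859)) (.nd 593 (.lf 33864) (.lf 2219477063))) (.nd 596 (.nd 595 (.lf 34888) (.lf 34889)) (.nd 597 (.lf 2286584903) (.nd 598 (.lf 34891) (.lf 0))))))

/-- Data. -/
def tbT_8 : Tr ℕ := .nd 632 (.nd 623 (.nd 619 (.nd 617 (.nd 616 (.lf 0) (.lf 169048188135502607560925358200401854218)) (.nd 618 (.lf 30752) (.lf 33807))) (.nd 621 (.nd 620 (.lf 0) (.lf 33831)) (.nd 622 (.lf 0) (.lf 2217048094)))) (.nd 627 (.nd 625 (.nd 624 (.lf 40907047113408948030181835794) (.lf 2217313306)) (.nd 626 (.lf 33819) (.lf 0))) (.nd 629 (.nd 628 (.lf 2217113635) (.lf 2015727646)) (.nd 630 (.lf 2216785949) (.nd 631 (.lf 33824) (.lf 30747)))))) (.nd 661 (.nd 656 (.nd 654 (.nd 633 (.lf 2217314330) (.lf 0)) (.nd 655 (.lf 33860) (.lf 30783))) (.nd 658 (.nd 657 (.lf 0) (.lf 31812))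 (.nd 659 (.lf 31817) (.nd 660 (.lf 31814) (.lf 31809))))) (.nd 665 (.nd 663 (.nd 662 (.lf 0) (.lf 30790)) (.nd 664 (.lf 30795) (.lf 2219146306))) (.nd 667 (.nd 666 (.lf 2218821693) (.lf 0)) (.nd 668 (.lf 2286257218) (.nd 669 (.lf 2286584903) (.lf 0))))))

/-- Data. -/
def tbT_9 : Tr ℕ := .nd 709 (.nd 700 (.nd 696 (.nd 694 (.nd 693 (.lf 0) (.lf 169048188135502588671747657097972711178)) (.nd 695 (.lf 33814) (.lf 0))) (.nd 698 (.nd 697 (.lf 2015790115) (.lf 2217048094)) (.nd 699 (.lf 2015465501) (.lf 33824)))) (.nd 704 (.nd 702 (.nd 701 (.lf 2217379867) (.lf 30746)) (.nd 703 (.lf 33814) (.lf 33826))) (.nd 706 (.nd 705 (.lf 2216785949) (.lf 0)) (.nd 707 (.lf 624192003073256653620249) (.nd 708 (.lf 33818) (.lf 2217378843)))))) (.nd 737 (.nd 733 (.nd 731 (.nd 730 (.lf 0) (.lf 31811)) (.nd 732 (.lf 34878) (.lf 0))) (.nd 735 (.nd 734 (.lf 33859) (.lf 33864))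 (.nd 736 (.lf 2219149378) (.lf 2218818621)))) (.nd 741 (.nd 739 (.nd 738 (.lf 0) (.lf 2286257218)) (.nd 740 (.lf 2286584903) (.lf 33862))) (.nd 743 (.nd 742 (.lf 33857) (.lf 0)) (.nd 744 (.lf 34886) (.nd 745 (.lf 34891) (.lf 0))))))

/-- Data. -/
def tbT_10 : Tr ℕ := .nd 802 (.nd 785 (.nd 777 (.nd 773 (.nd 771 (.nd 770 (.lf 0) (.lf 2579470334672439346614333269966354)) (.nd 772 (.lf 138729559720459) (.lf 32524))) (.nd 775 (.nd 774 (.lf 2115338765) (.lf 2215935758)) (.nd 776 (.lf 32527) (.lf 2115535376)))) (.nd 781 (.nd 779 (.nd 778 (.lf 2216132369) (.lf 600579810365423415688722)) (.nd 780 (.lf 32531) (.lf 32532))) (.nd 783 (.nd 782 (.lf 32277) (.lf 32534)) (.nd 784 (.lf 32535) (.lf 32280))))) (.nd 793 (.nd 789 (.nd 787 (.nd 786 (.lf 146430452793113) (.lf 2049539610)) (.nd 788 (.lf 1982496283) (.lf 129911991991836))) (.nd 791 (.nd 790 (.lf 2216787741)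 (.lf 33566)) (.nd 792 (.lf 134327235280415) (.lf 2049736224)))) (.nd 797 (.nd 795 (.nd 794 (.lf 32545) (.lf 2116518434)) (.nd 796 (.lf 2217115427) (.lf 2234023716))) (.nd 799 (.nd 798 (.lf 33573) (.lf 32550)) (.nd 800 (.lf 32295) (.nd 801 (.lf 2133557032) (.lf 32297))))))) (.nd 819 (.nd 810 (.nd 806 (.nd 804 (.nd 803 (.lf 32298) (.lf 2133687851)) (.nd 805 (.lf 32300) (.lf 32557))) (.nd 808 (.nd 807 (.lf 2117172782) (.lf 2219540015)) (.nd 809 (.lf 2084994608) (.lf 32305)))) (.nd 814 (.nd 812 (.nd 811 (.lf 32306) (.lf 2184610355)) (.nd 813 (.lf 33332) (.lf 33333))) (.nd 816 (.nd 815 (.lf 33334) (.lf 33335)) (.nd 817 (.lf 2117828152) (.nd 818 (.lf 2085125689) (.lf 2219015738)))))) (.nd 827 (.nd 823 (.nd 821 (.nd 820 (.lf 32315) (.lf 32316)) (.nd 822 (.lf 2185265725) (.lf 33342))) (.nd 825 (.nd 824 (.lf 33343) (.lf 33344)) (.nd 826 (.lf 33345) (.lf 2118483522))))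 (.nd 831 (.nd 829 (.nd 828 (.lf 32323) (.lf 32324)) (.nd 830 (.lf 32325) (.lf 32326))) (.nd 833 (.nd 832 (.lf 2118811207) (.lf 32328)) (.nd 834 (.lf 32329) (.nd 835 (.lf 32330) (.lf 32331)))))))

/-- Data. -/
def tbT_11 : Tr ℕ := .nd 870 (.nd 857 (.nd 851 (.nd 848 (.nd 847 (.lf 0) (.lf 2559187925064065237649922318762514)) (.nd 849 (.lf 0) (.nd 850 (.lf 2215937038) (.lf 33813)))) (.nd 854 (.nd 852 (.lf 0) (.nd 853 (.lf 2216133649) (.lf 33816))) (.nd 855 (.lf 2116845088) (.nd 856 (.lf 0) (.lf 33813))))) (.nd 864 (.nd 861 (.nd 859 (.lf 0) (.nd 860 (.lf 33816) (.lf 0))) (.nd 862 (.lf 1982627360) (.nd 863 (.lf 33834) (.lf 33833)))) (.nd 867 (.nd 865 (.lf 2284226595) (.nd 866 (.lf 2217048094) (.lf 33825))) (.nd 868 (.lf 2049736224) (.nd 869 (.lf 8803827173663735332) (.lf 30757)))))) (.nd 883 (.nd 875 (.nd 872 (.nd 871 (.lf 2217116707) (.lf 33831)) (.nd 873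 (.lf 31276) (.nd 874 (.lf 0) (.lf 33831)))) (.nd 879 (.nd 876 (.lf 0) (.nd 877 (.lf 32300) (.lf 0))) (.nd 880 (.lf 32300) (.nd 881 (.lf 32301) (.lf 0))))) (.nd 890 (.nd 887 (.nd 884 (.lf 2018147399) (.nd 885 (.lf 2286257218) (.lf 0))) (.nd 888 (.lf 2218494008) (.nd 889 (.lf 2219345977) (.lf 2084800570)))) (.nd 893 (.nd 891 (.lf 2285601848) (.nd 892 (.lf 34876) (.lf 0))) (.nd 894 (.lf 31817) (.nd 895 (.lf 33860) (.lf 0))))))

/-- Data. -/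
def tbT_12 : Tr ℕ := .nd 958 (.nd 930 (.nd 926 (.nd 924 (.lf 0) (.nd 925 (.lf 2660600282572055849656290511519506) (.lf 2217313306))) (.nd 928 (.nd 927 (.lf 30762) (.lf 30759)) (.nd 929 (.lf 0) (.lf 2217051166)))) (.nd 934 (.nd 932 (.nd 931 (.lf 0) (.lf 30764)) (.nd 933 (.lf 33834) (.lf 2284422170))) (.nd 936 (.nd 935 (.lf 2418440227) (.lf 2015724574)) (.nd 937 (.lf 2216785949) (.lf 0))))) (.nd 966 (.nd 962 (.nd 960 (.nd 959 (.lf 33865) (.lf 0)) (.nd 961 (.lf 31807) (.lf 34889))) (.nd 964 (.nd 963 (.lf 30788) (.lf 34891)) (.nd 965 (.lf 0) (.lf 30785)))) (.nd 970 (.nd 968 (.nd 967 (.lf 33867) (.lf 31814)) (.nd 969 (.lf 2018147399) (.lf 0))) (.nd 972 (.nd 971 (.lf 2285929533) (.lf 2085255239)) (.nd 973 (.lf 2219149378) (.lf 0)))))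

/-- Data. -/
def tbT_13 : Tr ℕ := .nd 1036 (.nd 1009 (.nd 1003 (.nd 1001 (.lf 0) (.nd 1002 (.lf 2559189163004104523034595264396818) (.lf 2217509920))) (.nd 1007 (.nd 1006 (.lf 0) (.lf 32277)) (.nd 1008 (.lf 2284487707) (.lf 2217509920)))) (.nd 1012 (.nd 1010 (.lf 39050108719273167507735673369) (.nd 1011 (.lf 2015724574) (.lf 0))) (.nd 1034 (.nd 1013 (.lf 33820) (.lf 0)) (.nd 1035 (.lf 31819) (.lf 0))))) (.nd 1047 (.nd 1039 (.nd 1037 (.lf 33857) (.nd 1038 (.lf 33867) (.lf 31814))) (.nd 1045 (.nd 1044 (.lf 0) (.lf 33864)) (.nd 1046 (.lf 0) (.lf 31806)))) (.nd 1051 (.nd 1049 (.nd 1048 (.lf 31816) (.lf 33859)) (.nd 1050 (.lf 2219149378) (.lf 34883))) (.nd 1053 (.nd 1052 (.lf 34884) (.lf 2286257218)) (.nd 1054 (.lf 34886) (.lf 0)))))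

/-- Data. -/
def tbT_14 : Tr ℕ := .nd 1112 (.nd 1084 (.nd 1080 (.nd 1078 (.lf 0) (.nd 1079 (.lf 2579470644176338633891980087230226) (.lf 2217051166))) (.nd 1082 (.nd 1081 (.lf 0) (.lf 30748)) (.nd 1083 (.lf 33812) (.lf 33833)))) (.nd 1087 (.nd 1085 (.lf 624192003073239473423385) (.nd 1086 (.lf 2217509920) (.lf 2216785949))) (.nd 1110 (.nd 1088 (.lf 33820) (.lf 0)) (.nd 1111 (.lf 2219473991) (.lf 0))))) (.nd 1119 (.nd 1115 (.nd 1113 (.lf 2084602941) (.nd 1114 (.lf 2085255239) (.lf 2219149378))) (.nd 1117 (.nd 1116 (.lf 30792) (.lf 0)) (.nd 1118 (.lf 34878) (.lf 31816)))) (.nd 1122 (.nd 1120 (.lf 33859) (.nd 1121 (.lf 31817) (.lf 0))) (.nd 1124 (.nd 1123 (.lf 33855) (.lf 30793)) (.nd 1125 (.lf 34884) (.lf 0)))))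

/-- Data. -/
def tbT_15 : Tr ℕ := .nd 1188 (.nd 1161 (.nd 1157 (.nd 1155 (.lf 0) (.nd 1156 (.lf 2579470644157449456190877658087186) (.lf 2217313306))) (.nd 1159 (.nd 1158 (.lf 30747) (.lf 0)) (.nd 1160 (.lf 2015793187) (.lf 2217048094)))) (.nd 1164 (.nd 1162 (.lf 2015462429) (.nd 1163 (.lf 30752) (.lf 33819))) (.nd 1186 (.nd 1165 (.lf 2217314330) (.lf 0)) (.nd 1187 (.lf 33860) (.lf 33855))))) (.nd 1195 (.nd 1191 (.nd 1189 (.lf 0) (.nd 1190 (.lf 34884) (.lf 34889))) (.nd 1193 (.nd 1192 (.lf 31814) (.lf 34881)) (.nd 1194 (.lf 0) (.lf 33862)))) (.nd 1198 (.nd 1196 (.lf 33867) (.nd 1197 (.lf 2219146306) (.lf 2017492029))) (.nd 1200 (.nd 1199 (.lf 0) (.lf 2084927554)) (.nd 1201 (.lf 2085255239) (.lf 0)))))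

/-- Data. -/
def tbT_16 : Tr ℕ := .nd 1265 (.nd 1238 (.nd 1234 (.nd 1232 (.lf 0) (.nd 1233 (.lf 2559189163004104523034595264396818) (.lf 2217509920))) (.nd 1236 (.nd 1235 (.lf 32280) (.lf 2217048094)) (.nd 1237 (.lf 0) (.lf 33820)))) (.nd 1241 (.nd 1239 (.lf 2217379867) (.nd 1240 (.lf 2217509920) (.lf 39050108719561397883887384089))) (.nd 1263 (.nd 1262 (.lf 0) (.lf 34886)) (.nd 1264 (.lf 31809) (.lf 0))))) (.nd 1276 (.nd 1272 (.nd 1266 (.lf 33862) (.nd 1267 (.lf 33867) (.lf 0))) (.nd 1274 (.nd 1273 (.lf 30787) (.lf 33854)) (.nd 1275 (.lf 0) (.lf 31811)))) (.nd 1279 (.nd 1277 (.lf 31816) (.nd 1278 (.lf 2219477063) (.lf 34888))) (.nd 1281 (.nd 1280 (.lf 34889) (.lf 2286584903)) (.nd 1282 (.lf 34891) (.lf 0)))))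

/-- Data. -/
def tbT_17 : Tr ℕ := .nd 1341 (.nd 1314 (.nd 1311 (.nd 1309 (.lf 0) (.nd 1310 (.lf 2579470644157449167960501573484306) (.lf 33815))) (.nd 1312 (.lf 2015462429) (.nd 1313 (.lf 33820) (.lf 0)))) (.nd 1317 (.nd 1315 (.lf 33818) (.nd 1316 (.lf 624192003073256653620255) (.lf 2217509920))) (.nd 1339 (.nd 1338 (.lf 0) (.lf 2017819714)) (.nd 1340 (.lf 2218818621) (.lf 0))))) (.nd 1347 (.nd 1344 (.nd 1342 (.lf 2084927554) (.nd 1343 (.lf 2085255239) (.lf 33859))) (.nd 1345 (.lf 30782) (.nd 1346 (.lf 0) (.lf 31811)))) (.nd 1350 (.nd 1348 (.lf 31816) (.nd 1349 (.lf 31812) (.lf 31807))) (.nd 1352 (.nd 1351 (.lf 0) (.lf 30788)) (.nd 1353 (.lf 30793) (.lf 0)))))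

/-- Data. -/
def tbT_18 : Tr ℕ := .nd 1414 (.nd 1399 (.nd 1392 (.nd 1388 (.nd 1386 (.lf 0) (.nd 1387 (.lf 39050113442288168723739016985) (.lf 32531))) (.nd 1390 (.nd 1389 (.lf 32532) (.lf 33301)) (.nd 1391 (.lf 32534) (.lf 32535)))) (.nd 1395 (.nd 1393 (.lf 33304) (.nd 1394 (.lf 146421863186201) (.lf 1982430746))) (.nd 1397 (.nd 1396 (.lf 2049605147) (.lf 138707950796316)) (.nd 1398 (.lf 33565) (.lf 2217049886))))) (.nd 1406 (.nd 1402 (.nd 1400 (.lf 146408978284319) (.nd 1401 (.lf 2049736224) (.lf 33569))) (.nd 1404 (.nd 1403 (.lf 2116517410) (.lf 2217115427)) (.nd 1405 (.lf 2049801764) (.lf 32549)))) (.nd 1410 (.nd 1408 (.nd 1407 (.lf 32550) (.lf 33319)) (.nd 1409 (.lf 2133688104) (.lf 32297))) (.nd 1412 (.nd 1411 (.lf 32298) (.lf 2133688107)) (.nd 1413 (.lf 32300) (.lf 32301)))))) (.nd 1429 (.nd 1421 (.nd 1417 (.nd 1415 (.lf 2117172782) (.nd 1416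 (.lf 2085322287) (.lf 2219212336))) (.nd 1419 (.nd 1418 (.lf 32305) (.lf 32306)) (.nd 1420 (.lf 2117500467) (.lf 2219408948)))) (.nd 1425 (.nd 1423 (.nd 1422 (.lf 2084863541) (.lf 32310)) (.nd 1424 (.lf 32311) (.lf 2184938040))) (.nd 1427 (.nd 1426 (.lf 33337) (.lf 33338)) (.nd 1428 (.lf 33339) (.lf 33340))))) (.nd 1436 (.nd 1432 (.nd 1430 (.lf 2185265725) (.nd 1431 (.lf 33342) (.lf 33343))) (.nd 1434 (.nd 1433 (.lf 33344) (.lf 33345)) (.nd 1435 (.lf 2118483522) (.lf 32323)))) (.nd 1440 (.nd 1438 (.nd 1437 (.lf 32324) (.lf 32325)) (.nd 1439 (.lf 32326) (.lf 2118811207))) (.nd 1442 (.nd 1441 (.lf 32328) (.lf 32329)) (.nd 1443 (.lf 32330) (.lf 32331))))))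

/-- Data. -/
def tbT_19 : Tr ℕ := .nd 1494 (.nd 1467 (.nd 1464 (.nd 1463 (.lf 0) (.lf 39359617341575446370556280601)) (.nd 1465 (.lf 30761) (.nd 1466 (.lf 2217378843) (.lf 30754)))) (.nd 1491 (.nd 1468 (.lf 2216789021) (.nd 1490 (.lf 0) (.lf 31816))) (.nd 1492 (.lf 0) (.nd 1493 (.lf 33854) (.lf 30792))))) (.nd 1500 (.nd 1497 (.nd 1495 (.lf 34883) (.nd 1496 (.lf 2018147399) (.lf 0))) (.nd 1498 (.lf 2285929533) (.nd 1499 (.lf 2085258311) (.lf 2219146306)))) (.nd 1503 (.nd 1501 (.lf 30795) (.nd 1502 (.lf 0) (.lf 34881))) (.nd 1504 (.lf 31819) (.nd 1505 (.lf 33862) (.lf 0)))))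

/-- Data. -/
def tbT_20 : Tr ℕ := .nd 1571 (.nd 1544 (.nd 1541 (.nd 1540 (.lf 0) (.lf 39359598452397745268127137561)) (.nd 1542 (.lf 2217509920) (.nd 1543 (.lf 2216789021) (.lf 30748)))) (.nd 1568 (.nd 1566 (.lf 0) (.nd 1567 (.lf 2219477063) (.lf 0))) (.nd 1569 (.lf 2084599869) (.nd 1570 (.lf 2085258311) (.lf 2219146306))))) (.nd 1576 (.nd 1573 (.nd 1572 (.lf 33864) (.lf 0)) (.nd 1574 (.lf 31806) (.nd 1575 (.lf 34888) (.lf 30787)))) (.nd 1579 (.nd 1577 (.lf 34889) (.nd 1578 (.lf 0) (.lf 30783))) (.nd 1580 (.lf 33865) (.nd 1581 (.lf 31812) (.lf 0)))))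

/-- Data. -/
def tbT_21 : Tr ℕ := .nd 1649 (.nd 1644 (.nd 1618 (.nd 1617 (.lf 0) (.lf 40288048759135012932984733209)) (.nd 1642 (.lf 0) (.nd 1643 (.lf 33867) (.lf 0)))) (.nd 1646 (.nd 1645 (.lf 31809) (.lf 31819)) (.nd 1647 (.lf 33862) (.nd 1648 (.lf 31817) (.lf 0))))) (.nd 1658 (.nd 1651 (.nd 1650 (.lf 33855) (.lf 33865)) (.nd 1652 (.lf 31812) (.nd 1657 (.lf 0) (.lf 2219149378)))) (.nd 1660 (.nd 1659 (.lf 34883) (.lf 34884)) (.nd 1661 (.lf 2286257218) (.nd 1662 (.lf 34886) (.lf 0)))))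

/-- Data. -/
def tbT_22 : Tr ℕ := .nd 1723 (.nd 1718 (.nd 1695 (.nd 1694 (.lf 0) (.lf 39359598452109514892042534681)) (.nd 1696 (.lf 30746) (.nd 1697 (.lf 2217378843) (.lf 0)))) (.nd 1720 (.nd 1719 (.lf 31811) (.lf 31806)) (.nd 1721 (.lf 0) (.nd 1722 (.lf 30787) (.lf 30792))))) (.nd 1728 (.nd 1725 (.nd 1724 (.lf 2219149378) (.lf 2017492029)) (.nd 1726 (.lf 0) (.nd 1727 (.lf 2084930626) (.lf 2085258311)))) (.nd 1731 (.nd 1729 (.lf 33862) (.nd 1730 (.lf 30785) (.lf 0))) (.nd 1732 (.lf 31814) (.nd 1733 (.lf 31819) (.lf 0)))))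

/-- Data. -/
def tbT_23 : Tr ℕ := .nd 1800 (.nd 1795 (.nd 1772 (.nd 1771 (.lf 0) (.lf 39359598452109514891975426841)) (.nd 1773 (.lf 2217509920) (.nd 1794 (.lf 0) (.lf 2017819714)))) (.nd 1797 (.nd 1796 (.lf 2218821693) (.lf 0)) (.nd 1798 (.lf 2084930626) (.nd 1799 (.lf 2085258311) (.lf 33859))))) (.nd 1805 (.nd 1802 (.nd 1801 (.lf 33854) (.lf 0)) (.nd 1803 (.lf 34883) (.nd 1804 (.lf 34888) (.lf 31812)))) (.nd 1807 (.nd 1806 (.lf 34879) (.lf 0)) (.nd 1808 (.lf 33860) (.nd 1809 (.lf 33865) (.lf 0)))))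

/-- Data. -/
def tbT_24 : Tr ℕ := .nd 1877 (.nd 1872 (.nd 1849 (.nd 1848 (.lf 0) (.lf 40288048759135012932984733209)) (.nd 1870 (.lf 0) (.nd 1871 (.lf 30790) (.lf 33857)))) (.nd 1874 (.nd 1873 (.lf 0) (.lf 31814)) (.nd 1875 (.lf 31819) (.nd 1876 (.lf 34884) (.lf 31807))))) (.nd 1886 (.nd 1879 (.nd 1878 (.lf 0) (.lf 33860)) (.nd 1880 (.lf 33865) (.nd 1885 (.lf 0) (.lf 2219477063)))) (.nd 1888 (.nd 1887 (.lf 34888) (.lf 34889)) (.nd 1889 (.lf 2286584903) (.nd 1890 (.lf 34891) (.lf 0)))))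

/-- Data. -/
def tbT_25 : Tr ℕ := .nd 1950 (.nd 1937 (.nd 1930 (.nd 1927 (.nd 1925 (.lf 0) (.nd 1926 (.lf 600579810364341067480607) (.lf 2116649498))) (.nd 1928 (.lf 2116715035) (.nd 1929 (.lf 138708085015068) (.lf 2216787741)))) (.nd 1933 (.nd 1931 (.lf 2217049886) (.nd 1932 (.lf 9163557678640037407) (.lf 2116846112))) (.nd 1935 (.nd 1934 (.lf 32545) (.lf 2049408546)) (.nd 1936 (.lf 2217115427) (.lf 139833383616036))))) (.nd 1943 (.nd 1940 (.nd 1938 (.lf 32549) (.nd 1939 (.lf 32550) (.lf 32295))) (.nd 1941 (.lf 139833383812648) (.nd 1942 (.lf 32297) (.lf 32298)))) (.nd 1946 (.nd 1944 (.lf 32555) (.nd 1945 (.lf 32300) (.lf 32557))) (.nd 1948 (.nd 1947 (.lf 2184282670) (.lf 33327)) (.nd 1949 (.lf 33328) (.lf 33329)))))) (.nd 1963 (.nd 1956 (.nd 1953 (.nd 1951 (.lf 33330) (.nd 1952 (.lf 2117500467) (.lf 2219408948))) (.nd 1954 (.lf 32309) (.nd 1955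 (.lf 32310) (.lf 2084535863)))) (.nd 1959 (.nd 1957 (.lf 2117828152) (.nd 1958 (.lf 2085125689) (.lf 32314))) (.nd 1961 (.nd 1960 (.lf 32315) (.lf 2218688060)) (.nd 1962 (.lf 2118155837) (.lf 32318))))) (.nd 1969 (.nd 1966 (.nd 1964 (.lf 32319) (.nd 1965 (.lf 32320) (.lf 32321))) (.nd 1967 (.lf 2185593410) (.nd 1968 (.lf 33347) (.lf 33348)))) (.nd 1972 (.nd 1970 (.lf 33349) (.nd 1971 (.lf 33350) (.lf 2118811207))) (.nd 1974 (.nd 1973 (.lf 32328) (.lf 32329)) (.nd 1975 (.lf 32330) (.lf 32331))))))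

/-- Data. -/
def tbT_26 : Tr ℕ := .nd 2018 (.nd 2008 (.nd 2004 (.nd 2002 (.lf 0) (.nd 2003 (.lf 595857371823877451448863) (.lf 0))) (.nd 2006 (.nd 2005 (.lf 2216789021) (.lf 2217182242)) (.nd 2007 (.lf 0) (.lf 32297)))) (.nd 2012 (.nd 2009 (.lf 0) (.nd 2010 (.lf 2217182242) (.lf 0))) (.nd 2016 (.nd 2013 (.lf 32297) (.lf 0)) (.nd 2017 (.lf 32297) (.lf 2116910635))))) (.nd 2028 (.nd 2024 (.nd 2022 (.lf 0) (.nd 2023 (.lf 2218166323) (.lf 2085193780))) (.nd 2026 (.nd 2025 (.lf 34869) (.lf 2285274163)) (.nd 2027 (.lf 2218756151) (.lf 0)))) (.nd 2033 (.nd 2031 (.nd 2029 (.lf 33867) (.lf 0)) (.nd 2032 (.lf 31809) (.lf 0))) (.nd 2036 (.nd 2034 (.lf 2085258311) (.lf 0)) (.nd 2037 (.lf 2218818621) (.lf 0)))))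

/-- Data. -/
def tbT_27 : Tr ℕ := .nd 2095 (.nd 2086 (.nd 2081 (.nd 2079 (.lf 0) (.nd 2080 (.lf 595857371823877451448863) (.lf 2217051166))) (.nd 2083 (.nd 2082 (.lf 0) (.lf 2217182242)) (.nd 2084 (.lf 32298) (.lf 0)))) (.nd 2090 (.nd 2088 (.nd 2087 (.lf 33829) (.lf 0)) (.nd 2089 (.lf 32298) (.lf 33831))) (.nd 2093 (.nd 2092 (.lf 0) (.lf 32298)) (.nd 2094 (.lf 0) (.lf 2116910635))))) (.nd 2104 (.nd 2100 (.nd 2098 (.lf 0) (.nd 2099 (.lf 2218494008) (.lf 2219345977))) (.nd 2102 (.nd 2101 (.lf 34874) (.lf 2285601848)) (.nd 2103 (.lf 2084472892) (.lf 0)))) (.nd 2109 (.nd 2107 (.nd 2105 (.lf 2085255239) (.lf 0)) (.nd 2108 (.lf 2218821693) (.lf 0))) (.nd 2112 (.nd 2110 (.lf 31819) (.lf 0)) (.nd 2113 (.lf 33857) (.lf 0)))))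

/-- Data. -/
def tbT_28 : Tr ℕ := .nd 2180 (.nd 2162 (.nd 2158 (.nd 2156 (.lf 0) (.nd 2157 (.lf 595857371828275430850079) (.lf 33833))) (.nd 2160 (.nd 2159 (.lf 33834) (.lf 2049408546)) (.nd 2161 (.lf 2217116707) (.lf 33833)))) (.nd 2166 (.nd 2164 (.nd 2163 (.lf 8803831571844463140) (.lf 33836)) (.nd 2165 (.lf 32295) (.lf 33834))) (.nd 2168 (.nd 2167 (.lf 33836) (.lf 138733788298792)) (.nd 2179 (.lf 0) (.lf 33855))))) (.nd 2187 (.nd 2183 (.nd 2181 (.lf 31812) (.nd 2182 (.lf 33865) (.lf 34879))) (.nd 2185 (.nd 2184 (.lf 0) (.lf 31806)) (.nd 2186 (.lf 33859) (.lf 31816)))) (.nd 2196 (.nd 2194 (.nd 2188 (.lf 30782) (.lf 0)) (.nd 2195 (.lf 2219477063) (.lf 34888))) (.nd 2198 (.nd 2197 (.lf 34889) (.lf 2286584903)) (.nd 2199 (.lf 34891) (.lf 0)))))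

/-- Data. -/
def tbT_29 : Tr ℕ := .nd 2252 (.nd 2238 (.nd 2235 (.nd 2233 (.lf 0) (.nd 2234 (.lf 600579810365440595885855) (.lf 0))) (.nd 2236 (.lf 33825) (.nd 2237 (.lf 0) (.lf 9524414109394175012)))) (.nd 2244 (.nd 2239 (.lf 33833) (.nd 2243 (.lf 0) (.lf 33833))) (.nd 2250 (.lf 0) (.nd 2251 (.lf 33855) (.lf 34884))))) (.nd 2258 (.nd 2255 (.nd 2253 (.lf 33865) (.nd 2254 (.lf 31807) (.lf 0))) (.nd 2256 (.lf 34881) (.nd 2257 (.lf 33862) (.lf 34891)))) (.nd 2261 (.nd 2259 (.lf 33857) (.nd 2260 (.lf 0) (.lf 2017492029))) (.nd 2263 (.nd 2262 (.lf 2084927554) (.lf 2018147399)) (.nd 2264 (.lf 2084602941) (.lf 0)))))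

/-- Data. -/
def tbT_30 : Tr ℕ := .nd 2328 (.nd 2316 (.nd 2312 (.nd 2310 (.lf 0) (.nd 2311 (.lf 600579810365440595885855) (.lf 33829))) (.nd 2314 (.lf 0) (.nd 2315 (.lf 33834) (.lf 0)))) (.nd 2319 (.nd 2317 (.lf 33829) (.nd 2318 (.lf 145331025839144) (.lf 0))) (.nd 2326 (.nd 2320 (.lf 33834) (.lf 0)) (.nd 2327 (.lf 31806) (.lf 30787))))) (.nd 2334 (.nd 2331 (.nd 2329 (.lf 31816) (.nd 2330 (.lf 33854) (.lf 0))) (.nd 2332 (.lf 2017492029) (.nd 2333 (.lf 2084930626) (.lf 2018147399)))) (.nd 2337 (.nd 2335 (.lf 2084599869) (.nd 2336 (.lf 0) (.lf 30785))) (.nd 2339 (.nd 2338 (.lf 31814) (.lf 30795)) (.nd 2340 (.lf 31809) (.lf 0)))))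

/-- Data. -/
def tbT_31 : Tr ℕ := .nd 2409 (.nd 2397 (.nd 2391 (.nd 2388 (.nd 2387 (.lf 0) (.lf 9164119542050881060)) (.nd 2389 (.lf 2116846112) (.nd 2390 (.lf 32545) (.lf 2116518434)))) (.nd 2394 (.nd 2392 (.lf 2217115427) (.nd 2393 (.lf 139833383812644) (.lf 32549))) (.nd 2395 (.lf 32550) (.nd 2396 (.lf 32295) (.lf 2133557032))))) (.nd 2403 (.nd 2400 (.nd 2398 (.lf 32297) (.nd 2399 (.lf 32298) (.lf 2133687851))) (.nd 2401 (.lf 32300) (.nd 2402 (.lf 32557) (.lf 2117172782)))) (.nd 2406 (.nd 2404 (.lf 2085322287) (.nd 2405 (.lf 32304) (.lf 32305))) (.nd 2407 (.lf 2218884658) (.nd 2408 (.lf 2184610355) (.lf 33332)))))) (.nd 2420 (.nd 2414 (.nd 2411 (.nd 2410 (.lf 33333) (.lf 33334)) (.nd 2412 (.lf 33335) (.nd 2413 (.lf 2117828152) (.lf 2219343417)))) (.nd 2417 (.nd 2415 (.lf 32314) (.nd 2416 (.lf 32315) (.lf 2084470332))) (.nd 2418 (.lf 2118155837)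 (.nd 2419 (.lf 32318) (.lf 32319))))) (.nd 2426 (.nd 2423 (.nd 2421 (.lf 32320) (.nd 2422 (.lf 32321) (.lf 2185593410))) (.nd 2424 (.lf 33347) (.nd 2425 (.lf 33348) (.lf 33349)))) (.nd 2429 (.nd 2427 (.lf 33350) (.nd 2428 (.lf 2118811207) (.lf 32328))) (.nd 2430 (.lf 32329) (.nd 2431 (.lf 32330) (.lf 32331))))))

/-- Data. -/
def tbT_32 : Tr ℕ := .nd 2477 (.nd 2469 (.nd 2466 (.nd 2464 (.lf 0) (.nd 2465 (.lf 9092061947996176932) (.lf 0))) (.nd 2467 (.lf 2217116707) (.nd 2468 (.lf 33831) (.lf 32300)))) (.nd 2472 (.nd 2470 (.lf 0) (.nd 2471 (.lf 33831) (.lf 0))) (.nd 2475 (.nd 2473 (.lf 32300) (.lf 0)) (.nd 2476 (.lf 32300) (.lf 32301))))) (.nd 2486 (.nd 2482 (.nd 2479 (.lf 0) (.nd 2480 (.lf 2286584903) (.lf 0))) (.nd 2484 (.nd 2483 (.lf 2017492029) (.lf 2218494008)) (.nd 2485 (.lf 2085128249) (.lf 34874)))) (.nd 2489 (.nd 2487 (.lf 2285601848) (.nd 2488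 (.lf 2218690620) (.lf 0))) (.nd 2492 (.nd 2490 (.lf 33865) (.lf 0)) (.nd 2493 (.lf 31807) (.lf 0)))))

/-- Data. -/
def tbT_33 : Tr ℕ := .nd 2558 (.nd 2548 (.nd 2542 (.nd 2541 (.lf 0) (.lf 9164120641562509092)) (.nd 2543 (.lf 33833) (.nd 2547 (.lf 0) (.lf 33833)))) (.nd 2555 (.nd 2554 (.lf 0) (.lf 30783)) (.nd 2556 (.lf 31812) (.nd 2557 (.lf 30793) (.lf 31807))))) (.nd 2563 (.nd 2560 (.nd 2559 (.lf 0) (.lf 31809)) (.nd 2561 (.lf 30790) (.nd 2562 (.lf 31819) (.lf 33857)))) (.nd 2566 (.nd 2564 (.lf 0) (.nd 2565 (.lf 2218821693) (.lf 2286257218))) (.nd 2567 (.lf 2219477063) (.nd 2568 (.lf 2084602941) (.lf 0)))))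

/-- Data. -/
def tbT_34 : Tr ℕ := .nd 2634 (.nd 2623 (.nd 2620 (.nd 2618 (.lf 0) (.nd 2619 (.lf 9092066346042687012) (.lf 33836))) (.nd 2621 (.lf 32295) (.nd 2622 (.lf 33834) (.lf 33836)))) (.nd 2631 (.nd 2624 (.lf 138733855406632) (.nd 2630 (.lf 0) (.lf 31809))) (.nd 2632 (.lf 33862) (.nd 2633 (.lf 31819) (.lf 30785))))) (.nd 2650 (.nd 2642 (.nd 2640 (.lf 0) (.nd 2641 (.lf 33854) (.lf 31811))) (.nd 2643 (.lf 33864) (.nd 2644 (.lf 34878) (.lf 0)))) (.nd 2653 (.nd 2651 (.lf 2219477063) (.nd 2652 (.lf 34888) (.lf 34889))) (.nd 2654 (.lf 2286584903) (.nd 2655 (.lf 34891) (.lf 0)))))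

/-- Data. -/
def tbT_35 : Tr ℕ := .nd 2710 (.nd 2699 (.nd 2696 (.nd 2695 (.lf 0) (.lf 9164120641562509092)) (.nd 2697 (.lf 33830) (.nd 2698 (.lf 0) (.lf 145331025839144)))) (.nd 2707 (.nd 2700 (.lf 33836) (.nd 2706 (.lf 0) (.lf 2218821693))) (.nd 2708 (.lf 2084930626) (.nd 2709 (.lf 2219477063) (.lf 2285929533))))) (.nd 2715 (.nd 2712 (.nd 2711 (.lf 0) (.lf 33854)) (.nd 2713 (.lf 34883) (.nd 2714 (.lf 33864) (.lf 31806)))) (.nd 2718 (.nd 2716 (.lf 0) (.nd 2717 (.lf 34879) (.lf 33860))) (.nd 2719 (.lf 34889) (.nd 2720 (.lf 33855) (.lf 0)))))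

/-- Data. -/
def tbT_36 : Tr ℕ := .nd 2791 (.nd 2781 (.nd 2776 (.nd 2773 (.nd 2772 (.lf 0) (.lf 138733872185128)) (.nd 2774 (.lf 32549) (.nd 2775 (.lf 32550) (.lf 33319)))) (.nd 2778 (.nd 2777 (.lf 2133688104) (.lf 32297)) (.nd 2779 (.lf 32298) (.nd 2780 (.lf 2133688107) (.lf 32300))))) (.nd 2786 (.nd 2783 (.nd 2782 (.lf 32301) (.lf 2117172782)) (.nd 2784 (.lf 2219540015) (.nd 2785 (.lf 32304) (.lf 32305)))) (.nd 2788 (.nd 2787 (.lf 2084666930) (.lf 2117500467)) (.nd 2789 (.lf 2085191220) (.nd 2790 (.lf 32309) (.lf 32310)))))) (.nd 2801 (.nd 2796 (.nd 2793 (.nd 2792 (.lf 2218753591) (.lf 2184938040)) (.nd 2794 (.lf 33337) (.nd 2795 (.lf 33338) (.lf 33339)))) (.nd 2798 (.nd 2797 (.lf 33340) (.lf 2118155837)) (.nd 2799 (.lf 32318) (.nd 2800 (.lf 32319) (.lf 32320))))) (.nd 2806 (.nd 2803 (.nd 2802 (.lf 32321) (.lf 2185593410)) (.nd 2804 (.lf 33347)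 (.nd 2805 (.lf 33348) (.lf 33349)))) (.nd 2809 (.nd 2807 (.lf 33350) (.nd 2808 (.lf 2118811207) (.lf 32328))) (.nd 2810 (.lf 32329) (.nd 2811 (.lf 32330) (.lf 32331))))))

/-- Data. -/
def tbT_37 : Tr ℕ := .nd 2863 (.nd 2858 (.nd 2850 (.nd 2849 (.lf 0) (.lf 139833383812904)) (.nd 2851 (.lf 0) (.nd 2852 (.lf 33834) (.lf 0)))) (.nd 2860 (.nd 2859 (.lf 34878) (.lf 33859)) (.nd 2861 (.lf 34888) (.nd 2862 (.lf 33854) (.lf 0))))) (.nd 2868 (.nd 2865 (.nd 2864 (.lf 2218818621) (.lf 2286257218)) (.nd 2866 (.lf 2219473991) (.nd 2867 (.lf 2084599869) (.lf 0)))) (.nd 2870 (.nd 2869 (.lf 33857) (.lf 34886)) (.nd 2871 (.lf 33867) (.nd 2872 (.lf 31809) (.lf 0)))))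

/-- Data. -/
def tbT_38 : Tr ℕ := .nd 2939 (.nd 2934 (.nd 2927 (.nd 2926 (.lf 0) (.lf 139833383812904)) (.nd 2928 (.lf 33836) (.lf 0))) (.nd 2936 (.nd 2935 (.lf 2218818621) (.lf 2084927554)) (.nd 2937 (.lf 2219473991) (.nd 2938 (.lf 2285929533) (.lf 0))))) (.nd 2944 (.nd 2941 (.nd 2940 (.lf 30782) (.lf 31811)) (.nd 2942 (.lf 30792) (.nd 2943 (.lf 31806) (.lf 0)))) (.nd 2946 (.nd 2945 (.lf 31807) (.lf 30788)) (.nd 2947 (.lf 31817) (.nd 2948 (.lf 33855) (.lf 0)))))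

/-- Data. -/
def tbT_39 : Tr ℕ := .nd 3016 (.nd 3011 (.nd 3004 (.nd 3003 (.lf 0) (.lf 143131901918760)) (.nd 3010 (.lf 0) (.lf 33857))) (.nd 3013 (.nd 3012 (.lf 31814) (.lf 33867)) (.nd 3014 (.lf 34881) (.nd 3015 (.lf 0) (.lf 31807))))) (.nd 3031 (.nd 3018 (.nd 3017 (.lf 33860) (.lf 31817)) (.nd 3019 (.lf 30783) (.nd 3030 (.lf 0) (.lf 2219477063)))) (.nd 3033 (.nd 3032 (.lf 34888) (.lf 34889)) (.nd 3034 (.lf 2286584903) (.nd 3035 (.lf 34891) (.lf 0)))))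

/-- Data. -/
def tbT_40 : Tr ℕ := .nd 3097 (.nd 3088 (.nd 3083 (.nd 3081 (.nd 3080 (.lf 0) (.lf 2116910635)) (.nd 3082 (.lf 33321) (.lf 33322))) (.nd 3085 (.nd 3084 (.lf 2049801771) (.lf 33324)) (.nd 3086 (.lf 32301) (.nd 3087 (.lf 2184282670) (.lf 33327))))) (.nd 3092 (.nd 3090 (.nd 3089 (.lf 33328) (.lf 33329)) (.nd 3091 (.lf 33330) (.lf 2117500467))) (.nd 3094 (.nd 3093 (.lf 32308) (.lf 2084863541)) (.nd 3095 (.lf 32310) (.nd 3096 (.lf 2218753591) (.lf 2117828152)))))) (.nd 3106 (.nd 3101 (.nd 3099 (.nd 3098 (.lf 32313) (.lf 2219015738)) (.nd 3100 (.lf 32315) (.lf 2084470332))) (.nd 3103 (.nd 3102 (.lf 2118155837) (.lf 32318)) (.nd 3104 (.lf 32319) (.nd 3105 (.lf 32320) (.lf 32321))))) (.nd 3111 (.nd 3108 (.nd 3107 (.lf 2118483522) (.lf 32323)) (.nd 3109 (.lf 32324) (.nd 3110 (.lf 32325) (.lf 32326)))) (.nd 3113 (.nd 3112 (.lf 2185921095) (.lf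 33352)) (.nd 3114 (.lf 33353) (.nd 3115 (.lf 33354) (.lf 33355))))))

/-- Data. -/
def tbT_41 : Tr ℕ := .nd 3167 (.nd 3163 (.nd 3158 (.nd 3157 (.lf 0) (.lf 2184020523)) (.nd 3162 (.lf 0) (.lf 2218166323))) (.nd 3165 (.nd 3164 (.lf 34868) (.lf 2219083829)) (.nd 3166 (.lf 2285274163) (.lf 2084538423)))) (.nd 3172 (.nd 3170 (.nd 3169 (.lf 0) (.lf 31814)) (.nd 3171 (.lf 0) (.lf 33857))) (.nd 3175 (.nd 3174 (.lf 0) (.lf 2219146306)) (.nd 3176 (.lf 0) (.nd 3177 (.lf 2084602941) (.lf 0)))))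

/-- Data. -/
def tbT_42 : Tr ℕ := .nd 3243 (.nd 3239 (.nd 3235 (.nd 3234 (.lf 0) (.lf 2184020523)) (.nd 3238 (.lf 0) (.lf 2218494008))) (.nd 3241 (.nd 3240 (.lf 34873) (.lf 2084800570)) (.nd 3242 (.lf 2285601848) (.lf 2218690620)))) (.nd 3248 (.nd 3246 (.nd 3245 (.lf 0) (.lf 2219149378)) (.nd 3247 (.lf 0) (.lf 2084599869))) (.nd 3251 (.nd 3250 (.lf 0) (.lf 33862)) (.nd 3252 (.lf 0) (.nd 3253 (.lf 31809) (.lf 0)))))

/-- Data. -/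
def tbT_43 : Tr ℕ := .nd 3327 (.nd 3318 (.nd 3314 (.nd 3312 (.nd 3311 (.lf 0) (.lf 32301)) (.nd 3313 (.lf 33324) (.lf 32301))) (.nd 3316 (.nd 3315 (.lf 2117172782) (.lf 32303)) (.nd 3317 (.lf 2219212336) (.lf 32305)))) (.nd 3322 (.nd 3320 (.nd 3319 (.lf 2084666930) (.lf 2184610355)) (.nd 3321 (.lf 33332) (.lf 33333))) (.nd 3324 (.nd 3323 (.lf 33334) (.lf 33335)) (.nd 3325 (.lf 2117828152) (.nd 3326 (.lf 32313) (.lf 2084798010)))))) (.nd 3335 (.nd 3331 (.nd 3329 (.nd 3328 (.lf 32315) (.lf 2218688060)) (.nd 3330 (.lf 2118155837) (.lf 32318))) (.nd 3333 (.nd 3332 (.lf 32319) (.lf 32320)) (.nd 3334 (.lf 32321) (.lf 2118483522)))) (.nd 3339 (.nd 3337 (.nd 3336 (.lf 32323) (.lf 32324)) (.nd 3338 (.lf 32325) (.lf 32326))) (.nd 3341 (.nd 3340 (.lf 2185921095) (.lf 33352)) (.nd 3342 (.lf 33353) (.nd 3343 (.lf 33354) (.lf 33355))))))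

/-- Data. -/
def tbT_44 : Tr ℕ := .nd 3397 (.nd 3393 (.nd 3389 (.nd 3388 (.lf 0) (.lf 33325)) (.nd 3392 (.lf 0) (.lf 2017819714))) (.nd 3395 (.nd 3394 (.lf 0) (.lf 2285929533)) (.nd 3396 (.lf 2218494008) (.lf 34873)))) (.nd 3402 (.nd 3399 (.nd 3398 (.lf 2219018298) (.lf 2285601848)) (.nd 3400 (.lf 2084472892) (.lf 0))) (.nd 3404 (.nd 3403 (.lf 31812) (.lf 0)) (.nd 3405 (.lf 33855) (.lf 0))))

/-- Data. -/
def tbT_45 : Tr ℕ := .nd 3480 (.nd 3472 (.nd 3468 (.nd 3466 (.lf 0) (.nd 3467 (.lf 2117172782) (.lf 32303))) (.nd 3470 (.nd 3469 (.lf 2084994608) (.lf 32305)) (.nd 3471 (.lf 2218884658) (.lf 2117500467)))) (.nd 3476 (.nd 3474 (.nd 3473 (.lf 32308) (.lf 2219081269)) (.nd 3475 (.lf 32310) (.lf 2084535863))) (.nd 3478 (.nd 3477 (.lf 2184938040) (.lf 33337)) (.nd 3479 (.lf 33338) (.lf 33339))))) (.nd 3488 (.nd 3484 (.nd 3482 (.nd 3481 (.lf 33340) (.lf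 2118155837)) (.nd 3483 (.lf 32318) (.lf 32319))) (.nd 3486 (.nd 3485 (.lf 32320) (.lf 32321)) (.nd 3487 (.lf 2118483522) (.lf 32323)))) (.nd 3492 (.nd 3490 (.nd 3489 (.lf 32324) (.lf 32325)) (.nd 3491 (.lf 32326) (.lf 2185921095))) (.nd 3494 (.nd 3493 (.lf 33352) (.lf 33353)) (.nd 3495 (.lf 33354) (.lf 33355)))))

/-- Packed rows of `gaussBonnet / 96 + (4 v₀ - trT) ell(react)`. -/
def tbT : Tr ℕ := .nd 1748 (.nd 836 (.nd 380 (.nd 152 (.nd 76 (tbT_0) (tbT_1)) (.nd 228 (tbT_2) (.nd 304 (tbT_3) (tbT_4)))) (.nd 608 (.nd 456 (tbT_5) (.nd 532 (tbT_6) (tbT_7))) (.nd 684 (tbT_8) (.nd 760 (tbT_9) (tbT_10))))) (.nd 1292 (.nd 1064 (.nd 912 (tbT_11) (.nd 988 (tbT_12) (tbT_13))) (.nd 1140 (tbT_14) (.nd 1216 (tbT_15) (tbT_16)))) (.nd 1520 (.nd 1368 (tbT_17) (.nd 1444 (tbT_18) (tbT_19))) (.nd 1596 (tbT_20) (.nd 1672 (tbT_21) (tbT_22)))))) (.nd 2660 (.nd 2204 (.nd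 1976 (.nd 1824 (tbT_23) (.nd 1900 (tbT_24) (tbT_25))) (.nd 2052 (tbT_26) (.nd 2128 (tbT_27) (tbT_28)))) (.nd 2432 (.nd 2280 (tbT_29) (.nd 2356 (tbT_30) (tbT_31))) (.nd 2508 (tbT_32) (.nd 2584 (tbT_33) (tbT_34))))) (.nd 3116 (.nd 2888 (.nd 2736 (tbT_35) (.nd 2812 (tbT_36) (tbT_37))) (.nd 2964 (tbT_38) (.nd 3040 (tbT_39) (tbT_40)))) (.nd 3344 (.nd 3192 (tbT_41) (.nd 3268 (tbT_42) (tbT_43))) (.nd 3420 (tbT_44) (.nd 3496 (tbT_45) (.lf 0))))))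

end EinsteinSix
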