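import Pool.Agent.Lib.H91.Split

/-!
# Einstein curvature tensors in dimension six: definitions

`quad R = 2 (R² + R#)`; for an Einstein metric with `Ric = λ` one has `Δ Rm = 2 λ Rm - quad Rm`.
For `S = -Rm` and `λ = -5` this reads `Δ S = react S`.
-/

set_option autoImplicit false

namespace EinsteinSix

open Finset Matrix H91.Split

/-- The quadratic expression `2 (R² + R#)` (`R i j i j` is the sectional curvature). -/
def quad (R : T6) : T6 := fun i j k l =>
  ∑ p, ∑ q, (R i j p q * R k l p q + 2 * (R i p k q * R j p l q - R i p l q * R j p k q))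

/-- `Δ S` for `S = -Rm` on an Einstein manifold with `Ric = -5`. -/
def react (R : T6) : T6 := fun i j k l => quad R i j k l - 10 * R i j k l

/-- Nonnegative sectional curvature. -/
def SecNonneg (R : T6) : Prop :=
  ∀ x y : Fin 6 → ℝ, 0 ≤ ∑ i, ∑ j, ∑ k, ∑ l, R i j k l * x i * y j * x k * y l

/-- Normalised Einstein curvature tensors (`Ric = 5`) with nonnegative sectional curvature. -/
structure Cls (R : T6) : Prop where
  alg : HopfSix.IsAlgCurv R
  ein : ∀ i k, ric R i k = if i = k then 5 else 0
  sec : SecNonneg R

end EinsteinSix
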