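import Pool.Agent.Lib.EinsteinSix.Approx
import Pool.Agent.Lib.EinsteinSix.Cartan

/-!
# Assembly, part 1: algebra
-/

set_option autoImplicit false

open MeasureTheory Finset H91.Split

namespace EinsteinSix

/-- Coefficients of the linear form `x ↦ ell (rot g x)`. -/
def cf (g : M6) (i j k l : Fin 6) : ℝ :=
  g i 0 * g j 1 * g k 0 * g l 1 + g i 0 * g j 2 * g k 0 * g l 2 + g i 1 * g j 2 * g k 1 * g l 2

theorem ell_rot_eq (g : M6) (x : T6) :
    ell (rot g x) = ∑ i, ∑ j, ∑ k, ∑ l, cf g i j k l * x i j k l := by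
  simp only [ell, rot, cf, add_mul, sum_add_distrib]

theorem quad_smul (c : ℝ) (R : T6) (i j k l : Fin 6) :
    quad (fun i j k l => c * R i j k l) i j k l = c ^ 2 * quad R i j k l := by
  simp only [quad, mul_sum]
  refine sum_congr rfl fun p _ => sum_congr rfl fun q _ => ?_
  ring

theorem gb_smul (c : ℝ) (R : T6) :
    HopfSix.gaussBonnet (fun i j k l => c * R i j k l) = c ^ 3 * HopfSix.gaussBonnet R := by
  simp only [HopfSix.gaussBonnet, mul_sum]
  refine sum_congr rfl fun p _ => sum_congr rfl fun q _ => ?_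
  ring

section alg

variable {A : Type*} [CommRing A] [Algebra ℝ A] (C : Cartan 6 A)

/-- The element of `A` whose value at a frame is `ell (rot g S)`, `S = -c R`. -/
noncomputable def Cartan.U (C : Cartan 6 A) (c : ℝ) (g : M6) : A :=
  ∑ i, ∑ j, ∑ k, ∑ l, (-c * cf g i j k l) • C.R i j k l

variable (e : A →ₐ[ℝ] ℝ)

/-- The curvature tensor at a point of the spectrum. -/
def Cartan.at (C : Cartan 6 A) (e : A →ₐ[ℝ] ℝ) : T6 := fun i j k l => e (C.R i j k l)

theorem Cartan.U_at (c : ℝ) (g : M6) :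
    e (C.U c g) = ell (rot g (fun i j k l => -c * C.at e i j k l)) := by
  rw [ell_rot_eq]
  simp only [Cartan.U, map_sum, map_smul, smul_eq_mul, Cartan.at]
  refine sum_congr rfl fun _ _ => sum_congr rfl fun _ _ => sum_congr rfl fun _ _ =>
    sum_congr rfl fun _ _ => ?_
  ring

theorem Cartan.lapl_U {lam : ℝ} (hlam : lam < 0)
    (hE : ∀ i k, ∑ j, C.R i j k j = algebraMap ℝ A (if i = k then lam else 0)) (g : M6) :
    e (∑ m, C.B m (C.B m (C.U (5 / -lam) g))) =
      (-lam / 5) * ell (rot g (react (fun i j k l => -(5 / -lam) * C.at e i j k l))) := by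
  have hl : lam ≠ 0 := hlam.ne
  rw [ell_rot_eq]
  have h1 : ∑ m, C.B m (C.B m (C.U (5 / -lam) g)) =
      ∑ i, ∑ j, ∑ k, ∑ l, (-(5 / -lam) * cf g i j k l) • ∑ m, C.B m (C.B m (C.R i j k l)) := by
    simp only [Cartan.U, map_sum, Derivation.map_smul, smul_sum]
    rw [sum_comm]
    refine sum_congr rfl fun i _ => ?_
    rw [sum_comm]
    refine sum_congr rfl fun j _ => ?_
    rw [sum_comm]
    refine sum_congr rfl fun k _ => ?_
    rw [sum_comm]
  rw [h1]
  simp only [C.lapl lam hE, map_sum, map_smul, smul_eq_mul, mul_sum, map_sub]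
  simp only [← mul_sum]
  rw [mul_sum]
  refine sum_congr rfl fun i _ => ?_
  rw [mul_sum]
  refine sum_congr rfl fun j _ => ?_
  rw [mul_sum]
  refine sum_congr rfl fun k _ => ?_
  rw [mul_sum]
  refine sum_congr rfl fun l _ => ?_
  have h2 : ∑ p, ∑ q, e (C.R i j p q * C.R k l p q +
        2 * (C.R i p k q * C.R j p l q - C.R i p l q * C.R j p k q)) = quad (C.at e) i j k l := by
    simp only [quad, Cartan.at, map_add, map_mul, map_sub, map_ofNat]
  rw [h2]
  simp only [react]
  rw [quad_smul]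
  simp only [Cartan.at]
  field_simp
  ring

end alg

end EinsteinSix
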