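import Pool.Agent.Lib.EinsteinSix.Fin

/-!
# Assembly, part 2: the divergence of `h(z) ∇ z`
-/

set_option autoImplicit false

open MeasureTheory Finset H91.Split Polynomial

namespace EinsteinSix

variable {A : Type*} [CommRing A] [Algebra ℝ A] (e : A →ₐ[ℝ] ℝ)

theorem div_single (D : Derivation ℝ A A) {N k : ℕ} (U : Fin N → A) (h : ℝ[X]) :
    e (D (aeval (∑ i, U i ^ k) h * D (∑ i, U i ^ k))) =
      h.eval (∑ i, e (U i) ^ k) * (∑ i, (k : ℝ) * e (U i) ^ (k - 1) * e (D (D (U i))) +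
        ∑ i, (k : ℝ) * ((k : ℝ) - 1) * e (U i) ^ (k - 2) * e (D (U i)) ^ 2) +
      (derivative h).eval (∑ i, e (U i) ^ k) *
        (∑ i, (k : ℝ) * e (U i) ^ (k - 1) * e (D (U i))) ^ 2 := by
  have hz : e (∑ i, U i ^ k) = ∑ i, e (U i) ^ k := by simp [map_sum, map_pow]
  have hae : ∀ p : ℝ[X], e (aeval (∑ i, U i ^ k) p) = p.eval (∑ i, e (U i) ^ k) := by
    intro p
    rw [← hz, ← Polynomial.aeval_algHom_apply]
    simp [Polynomial.aeval_def, Polynomial.eval₂_eq_eval_map]
  have hD : D (∑ i, U i ^ k) = ∑ i, (k : ℝ) • (U i ^ (k - 1) * D (U i)) := by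
    rw [map_sum]
    refine sum_congr rfl fun i _ => ?_
    rw [Derivation.leibniz_pow, smul_eq_mul, Nat.cast_smul_eq_nsmul]
  have hD1 : e (D (∑ i, U i ^ k)) = ∑ i, (k : ℝ) * e (U i) ^ (k - 1) * e (D (U i)) := by
    rw [hD, map_sum]
    refine sum_congr rfl fun i _ => ?_
    simp only [map_smul, map_mul, map_pow, smul_eq_mul]
    ring
  have hDD : e (D (D (∑ i, U i ^ k))) =
      ∑ i, (k : ℝ) * e (U i) ^ (k - 1) * e (D (D (U i))) +
        ∑ i, (k : ℝ) * ((k : ℝ) - 1) * e (U i) ^ (k - 2) * e (D (U i)) ^ 2 := by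
    rw [hD, map_sum, map_sum, ← sum_add_distrib]
    refine sum_congr rfl fun i _ => ?_
    rw [Derivation.map_smul, Derivation.leibniz, Derivation.leibniz_pow]
    simp only [map_smul, map_add, smul_eq_mul, map_mul, map_pow, nsmul_eq_mul]
    rcases k with _ | k
    · simp
    · rcases k with _ | k
      · simp
      · have e1 : k + 1 + 1 - 1 = k + 1 := rfl
        have e2 : k + 1 + 1 - 2 = k := rfl
        have e3 : k + 1 + 1 - 1 - 1 = k := rfl
        rw [e3, e1, e2]
        have e4 : e ((k + 1 : ℕ) : A) = (k : ℝ) + 1 := by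
          rw [map_natCast]; push_cast; ring
        push_cast at e4 ⊢
        try rw [e4]
        ring_nf
  rw [Derivation.leibniz, Derivation.map_aeval]
  simp only [smul_eq_mul, map_add, map_mul, hae, hD1, hDD]
  ring

end EinsteinSix
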