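import Pool.Agent.Lib.EinsteinSix.Fin2

/-!
# Assembly, part 3: the Ricci-flat case
-/

set_option autoImplicit false

open Finset H91.Split

namespace EinsteinSix

/-- The four-linear form of a curvature tensor. -/
def form4 (R : T6) (x y z w : Fin 6 → ℝ) : ℝ :=
  ∑ i, ∑ j, ∑ k, ∑ l, R i j k l * x i * y j * z k * w l

theorem form4_add (R : T6) (x z y w : Fin 6 → ℝ) (s t : ℝ) :
    form4 R (fun i => x i + s * z i) (fun i => y i + t * w i) (fun i => x i + s * z i)
      (fun i => y i + t * w i) =
    form4 R x y x y + s ^ 2 * form4 R z y z y + t ^ 2 * form4 R x w x w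
      + s ^ 2 * t ^ 2 * form4 R z w z w
      + s * (form4 R x y z y + form4 R z y x y)
      + t * (form4 R x y x w + form4 R x w x y)
      + s * t ^ 2 * (form4 R x w z w + form4 R z w x w)
      + s ^ 2 * t * (form4 R z y z w + form4 R z w z y)
      + s * t * (form4 R x y z w + form4 R x w z y + form4 R z y x w + form4 R z w x y) := by
  simp only [form4, mul_sum, ← sum_add_distrib]
  refine sum_congr rfl fun i _ => sum_congr rfl fun j _ => sum_congr rfl fun k _ =>
    sum_congr rfl fun l _ => ?_
  ring

theorem form4_single (R : T6) (i j k l : Fin 6) :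
    form4 R (Pi.single i 1) (Pi.single j 1) (Pi.single k 1) (Pi.single l 1) = R i j k l := by
  simp only [form4, Pi.single_apply, mul_ite, mul_one, mul_zero, sum_ite_eq', mem_univ, if_true]

theorem ricci_flat {R : T6} (h : HopfSix.IsAlgCurv R) (hric : ∀ i, ∑ j, R i j i j = 0)
    (hK : ∀ x y : Fin 6 → ℝ, ∑ i, ∑ j, ∑ k, ∑ l, R i j k l * x i * y j * x k * y l ≤ 0) :
    R = fun _ _ _ _ => 0 := by
  have hK' : ∀ x y, form4 R x y x y ≤ 0 := hK
  have hd : ∀ i j, R i j i j = 0 := by
    intro i j
    have h1 : ∀ j ∈ univ, R i j i j ≤ 0 := fun j _ => by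
      have := hK' (Pi.single i 1) (Pi.single j 1)
      rwa [form4_single] at this
    exact (sum_eq_zero_iff_of_nonpos h1).1 (hric i) j (mem_univ _)
  have h24 : ∀ i j k l, R i j k l = -R i l k j := by
    intro i j k l
    have hh : ∀ s t : ℝ, s ^ 2 = 1 → t ^ 2 = 1 →
      s * (R i j k j + R k j i j) + t * (R i j i l + R i l i j)
      + s * (R i l k l + R k l i l) + t * (R k j k l + R k l k j)
      + s * t * (R i j k l + R i l k j + R k j i l + R k l i j) ≤ 0 := by
      intro s t hs ht
      have := hK' (fun a => (Pi.single i 1 : Fin 6 → ℝ) a + s * (Pi.single k 1 : Fin 6 → ℝ) a)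
        (fun a => (Pi.single j 1 : Fin 6 → ℝ) a + t * (Pi.single l 1 : Fin 6 → ℝ) a)
      rw [form4_add] at this
      simp only [form4_single, hd, hs, ht, mul_zero, mul_one, one_mul, zero_add] at this
      linarith
    have a1 := hh 1 1 (by norm_num) (by norm_num)
    have a2 := hh 1 (-1) (by norm_num) (by norm_num)
    have a3 := hh (-1) 1 (by norm_num) (by norm_num)
    have a4 := hh (-1) (-1) (by norm_num) (by norm_num)
    have b1 := h.pair i j k l
    have b2 := h.pair i l k j
    linarith
  funext i j k l
  have c1 := h.bianchi i j k l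
  have c2 : R j k i l = R i j k l := by
    have d1 := h.skew j k i l
    have d2 := h.pair k j i l
    have d3 := h24 i l k j
    linarith
  have c3 : R k i j l = R i j k l := by
    have d1 := h.skew k i j l
    have d2 := h24 i k j l
    have d3 := h.pair i l j k
    have d4 := h.skew j k i l
    have d5 := h.pair k j i l
    have d6 := h24 i l k j
    linarith
  linarith

theorem gb_zero : HopfSix.gaussBonnet (fun _ _ _ _ => 0) = 0 := by
  simp [HopfSix.gaussBonnet]

end EinsteinSix
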