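import Mathlib

/-!
# Derivations from measure preserving flows
-/

set_option autoImplicit false

open MeasureTheory

namespace EinsteinSix

variable {P : Type*} [TopologicalSpace P]

/-- `g` is the derivative of `f` along the flow `φ`. -/
def HasDer (φ : ℝ → P → P) (f g : C(P, ℝ)) : Prop :=
  ∀ p, HasDerivAt (fun t => f (φ t p)) (g p) 0

theorem HasDer.unique {φ : ℝ → P → P} {f g g' : C(P, ℝ)} (h : HasDer φ f g)
    (h' : HasDer φ f g') : g = g' := by
  ext p
  exact (h p).unique (h' p)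

theorem HasDer.at {φ : ℝ → P → P}
    (hadd : ∀ s t p, φ (s + t) p = φ s (φ t p)) {f g : C(P, ℝ)} (h : HasDer φ f g) (p : P)
    (s : ℝ) : HasDerivAt (fun t => f (φ t p)) (g (φ s p)) s := by
  have h4 : HasDerivAt (fun t => f (φ t (φ s p))) (g (φ s p)) (s - s) := by
    rw [sub_self]
    exact h (φ s p)
  have h3 := HasDerivAt.comp_sub_const s s h4
  have h5 : (fun t => f (φ (t - s) (φ s p))) = fun t => f (φ t p) := by
    funext t
    rw [← hadd, sub_add_cancel]
  rwa [h5] at h3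

theorem hasDer_adjoin {φ : ℝ → P → P} (h0 : ∀ p, φ 0 p = p) (S : Set C(P, ℝ))
    (hS : ∀ f ∈ S, ∃ g ∈ Algebra.adjoin ℝ S, HasDer φ f g) :
    ∀ f ∈ Algebra.adjoin ℝ S, ∃ g ∈ Algebra.adjoin ℝ S, HasDer φ f g := by
  intro f hf
  induction hf using Algebra.adjoin_induction with
  | mem x hx => exact hS x hx
  | algebraMap r =>
    refine ⟨0, zero_mem _, fun p => ?_⟩
    simpa using hasDerivAt_const (0 : ℝ) r
  | add x y hx hy ihx ihy =>
    obtain ⟨g, hg, hxg⟩ := ihx
    obtain ⟨g', hg', hyg⟩ := ihy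
    exact ⟨g + g', add_mem hg hg', fun p => (hxg p).fun_add (hyg p)⟩
  | mul x y hx hy ihx ihy =>
    obtain ⟨g, hg, hxg⟩ := ihx
    obtain ⟨g', hg', hyg⟩ := ihy
    refine ⟨g * y + x * g', add_mem (mul_mem hg hy) (mul_mem hx hg'), fun p => ?_⟩
    have := (hxg p).fun_mul (hyg p)
    rw [h0] at this
    exact this

/-- The derivation of the algebra generated by `S` given by a flow. -/
noncomputable def flowDer {φ : ℝ → P → P} (h0 : ∀ p, φ 0 p = p) (S : Set C(P, ℝ))
    (hS : ∀ f ∈ S, ∃ g ∈ Algebra.adjoin ℝ S, HasDer φ f g) :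
    Derivation ℝ (Algebra.adjoin ℝ S) (Algebra.adjoin ℝ S) :=
  let D : Algebra.adjoin ℝ S → Algebra.adjoin ℝ S := fun f =>
    ⟨(hasDer_adjoin h0 S hS f f.2).choose, (hasDer_adjoin h0 S hS f f.2).choose_spec.1⟩
  have hD : ∀ f : Algebra.adjoin ℝ S, HasDer φ (f : C(P, ℝ)) (D f : C(P, ℝ)) := fun f =>
    (hasDer_adjoin h0 S hS f f.2).choose_spec.2
  Derivation.mk'
    { toFun := D
      map_add' := fun x y => Subtype.ext <| (hD (x + y)).unique fun p =>
        (hD x p).fun_add (hD y p)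
      map_smul' := fun c x => Subtype.ext <| (hD (c • x)).unique fun p =>
        (hD x p).const_mul c }
    (fun x y => Subtype.ext <| (hD (x * y)).unique fun p => by
        have h1 := (hD x p).fun_mul (hD y p)
        rw [h0] at h1
        have h2 : (D x : C(P, ℝ)) p * (y : C(P, ℝ)) p + (x : C(P, ℝ)) p * (D y : C(P, ℝ)) p =
          (x : C(P, ℝ)) p * (D y : C(P, ℝ)) p + (y : C(P, ℝ)) p * (D x : C(P, ℝ)) p := by ring
        rw [h2] at h1
        exact h1)

theorem hasDer_flowDer {φ : ℝ → P → P} (h0 : ∀ p, φ 0 p = p) (S : Set C(P, ℝ))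
    (hS : ∀ f ∈ S, ∃ g ∈ Algebra.adjoin ℝ S, HasDer φ f g) (f : Algebra.adjoin ℝ S) :
    HasDer φ (f : C(P, ℝ)) (flowDer h0 S hS f : C(P, ℝ)) :=
  (hasDer_adjoin h0 S hS f f.2).choose_spec.2

theorem flowDer_eq {φ : ℝ → P → P} (h0 : ∀ p, φ 0 p = p) (S : Set C(P, ℝ))
    (hS : ∀ f ∈ S, ∃ g ∈ Algebra.adjoin ℝ S, HasDer φ f g) {f g : Algebra.adjoin ℝ S}
    (h : HasDer φ (f : C(P, ℝ)) (g : C(P, ℝ))) : flowDer h0 S hS f = g :=
  Subtype.ext ((hasDer_flowDer h0 S hS f).unique h)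

/-- Two derivations that agree on the generators are equal. -/
theorem der_ext {S : Set C(P, ℝ)} {D D' : Derivation ℝ (Algebra.adjoin ℝ S) (Algebra.adjoin ℝ S)}
    (h : ∀ f (hf : f ∈ S), D ⟨f, Algebra.subset_adjoin hf⟩ = D' ⟨f, Algebra.subset_adjoin hf⟩) :
    D = D' := by
  have key : ∀ f (hf : f ∈ Algebra.adjoin ℝ S), D ⟨f, hf⟩ = D' ⟨f, hf⟩ := by
    intro f hf
    induction hf using Algebra.adjoin_induction with
    | mem x hx => exact h x hx
    | algebraMap r =>
      have e1 : (⟨algebraMap ℝ C(P, ℝ) r, Subalgebra.algebraMap_mem _ r⟩ :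
        Algebra.adjoin ℝ S) = algebraMap ℝ (Algebra.adjoin ℝ S) r := rfl
      rw [e1, D.map_algebraMap, D'.map_algebraMap]
    | add x y hx hy ihx ihy =>
      have e1 : (⟨x + y, add_mem hx hy⟩ : Algebra.adjoin ℝ S) = ⟨x, hx⟩ + ⟨y, hy⟩ := rfl
      rw [e1, map_add, map_add, ihx, ihy]
    | mul x y hx hy ihx ihy =>
      have e1 : (⟨x * y, mul_mem hx hy⟩ : Algebra.adjoin ℝ S) = ⟨x, hx⟩ * ⟨y, hy⟩ := rfl
      rw [e1, D.leibniz, D'.leibniz, ihx, ihy]
  ext1 ⟨f, hf⟩
  exact key f hf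

theorem integral_der {φ : ℝ → P → P} [CompactSpace P] [MeasurableSpace P] [BorelSpace P]
    {μ : Measure P} [IsFiniteMeasure μ] (h0 : ∀ p, φ 0 p = p)
    (hadd : ∀ s t p, φ (s + t) p = φ s (φ t p)) (hφ : ∀ t, MeasurePreserving (φ t) μ μ)
    {f g : C(P, ℝ)} (h : HasDer φ f g) : ∫ p, g p ∂μ = 0 := by
  have hf : ∀ f : C(P, ℝ), Integrable (fun p => f p) μ := fun f =>
    Integrable.of_bound f.continuous.aestronglyMeasurable ‖f‖
      (Filter.Eventually.of_forall fun p => f.norm_coe_le_norm p)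
  have h1 : HasDerivAt (fun t => ∫ p, f (φ t p) ∂μ) (∫ p, g (φ 0 p) ∂μ) 0 := by
    refine (hasDerivAt_integral_of_dominated_loc_of_deriv_le (bound := fun _ => ‖g‖)
      (s := Set.univ) (F' := fun t p => g (φ t p)) Filter.univ_mem ?_ ?_ ?_ ?_ ?_ ?_).2
    · refine Filter.Eventually.of_forall fun t => ?_
      exact f.continuous.aestronglyMeasurable.comp_measurePreserving (hφ t)
    · exact (hφ 0).integrable_comp_of_integrable (hf f)
    · exact g.continuous.aestronglyMeasurable.comp_measurePreserving (hφ 0)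
    · exact Filter.Eventually.of_forall fun p t _ => g.norm_coe_le_norm _
    · exact integrable_const _
    · exact Filter.Eventually.of_forall fun p t _ => h.at hadd p t
  have h2 : ∀ t, ∫ p, f (φ t p) ∂μ = ∫ p, f p ∂μ := by
    intro t
    have := integral_map (μ := μ) (hφ t).measurable.aemeasurable
      (f := fun p => f p) f.continuous.aestronglyMeasurable
    rw [(hφ t).map_eq] at this
    exact this.symm
  simp_rw [h2, h0] at h1
  exact (h1.unique (hasDerivAt_const 0 _))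

end EinsteinSix
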