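import Pool.Agent.Lib.EinsteinSix.Cartan

/-!
# The orthonormal frame bundle of a closed Riemannian manifold
-/

set_option autoImplicit false

open MeasureTheory

namespace EinsteinSix

/-- The orthonormal frame bundle `P = O(M)` of a closed Riemannian `n`-manifold `M`, as a compact
space with a finite measure `μ` (the Riemannian volume of `M` times Haar measure of `O(n)`), an
algebra `A` of smooth functions on `P`, the standard horizontal vector fields `B`, the fundamental
vertical vector fields `V` and the curvature functions `R` satisfying Cartan's structure equations;
the horizontal fields preserve `μ`. -/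
structure FrameBundle (n : ℕ) (P : Type*) [TopologicalSpace P] [CompactSpace P]
    [MeasurableSpace P] [BorelSpace P] (μ : Measure P) where
  A : Subalgebra ℝ C(P, ℝ)
  cartan : Cartan n A
  integral_B : ∀ (i : Fin n) (u : A), ∫ p, (cartan.B i u : C(P, ℝ)) p ∂μ = 0

/-- The curvature tensor at a frame. -/
def FrameBundle.curv {n : ℕ} {P : Type*} [TopologicalSpace P] [CompactSpace P]
    [MeasurableSpace P] [BorelSpace P] {μ : Measure P} (F : FrameBundle n P μ) (p : P) :
    Fin n → Fin n → Fin n → Fin n → ℝ :=
  fun i j k l => (F.cartan.R i j k l : C(P, ℝ)) p


end EinsteinSix
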