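import Pool.Agent.Lib.EinsteinSix.React
import Pool.Agent.Lib.H87.HopfKC.Coord

/-!
# Tensors at a best splitting: rotations, maximisation of a cubic, global optimality
-/

set_option autoImplicit false

namespace EinsteinSix

open Finset Matrix H91.Split NormedSpace
open Pool.Agent.H69Hopf (ev pull comb)

/-- Biquadratic form of the sectional curvature. -/
def Kf (R : T6) (x y : Fin 6 → ℝ) : ℝ := ∑ i, ∑ j, ∑ k, ∑ l, R i j k l * x i * y j * x k * y l

theorem Kf_eq (R : T6) (x y : Fin 6 → ℝ) : Kf R x y = ev R x y x y := rfl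

theorem Kf_rot (g : M6) (R : T6) (x y : Fin 6 → ℝ) :
    Kf (rot g R) x y = Kf R (fun a => ∑ i, g a i * x i) (fun a => ∑ i, g a i * y i) := by
  have e : ∀ x : Fin 6 → ℝ, comb (fun i => (gᵀ : M6) i) x = fun a => ∑ i, g a i * x i := by
    intro x
    funext a
    simp only [comb, Matrix.transpose_apply]
    exact sum_congr rfl fun i _ => mul_comm _ _
  rw [Kf_eq, rot_eq_pull, ← Pool.Agent.H69Hopf.ev_comb, e, e, Kf_eq]

/-- Normalised Einstein tensors with nonnegative sectional curvature at a best splitting. -/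
structure AdmE (R : T6) : Prop extends Cls R where
  mx : ∀ g : M6, gᵀ * g = 1 → ell (H91.Split.rot g R) ≤ ell R

/-- The relations at a best splitting. -/
theorem AdmE.best {R : T6} (h : AdmE R) : HopfKC.Best R := by
  have hX : ∀ X : M6, Xᵀ = -X → ell (lie X R) = 0 ∧ ell (lie X (lie X R)) ≤ 0 := by
    intro X hX
    have hd : ∀ t, ∀ i j k l, HasDerivAt (fun s : ℝ => rot (exp (s • X)) R i j k l)
        (lie X (rot (exp (t • X)) R) i j k l) t := fun t i j k l =>
      hasDerivAt_rot (g := fun s : ℝ => exp (s • X)) (fun a b => hasDerivAt_exp_entry X t a b)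
        i j k l
    have h1 : ∀ t, HasDerivAt (fun s : ℝ => ell (rot (exp (s • X)) R))
        (ell (lie X (rot (exp (t • X)) R))) t := fun t => hasDerivAt_ell (hd t)
    have h2 : HasDerivAt (fun s : ℝ => ell (lie X (rot (exp (s • X)) R)))
        (ell (lie X (lie X (rot (exp ((0 : ℝ) • X)) R)))) 0 :=
      hasDerivAt_ell (hasDerivAt_lie (hd 0))
    have h0 : rot (exp ((0 : ℝ) • X)) R = R := by
      rw [zero_smul, exp_zero, rot_one]
    have := second_order h1 h2 (fun t => by
      simp only [zero_smul, exp_zero, rot_one]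
      exact h.mx _ (exp_orth hX t))
    rw [h0] at this
    exact this
  have h1 : ∀ α a, ∑ b, R (hi α) (lo b) (lo a) (lo b) = 0 := by
    intro α a
    have h' := (hX (offd fun β b => if β = α ∧ b = a then 1 else 0) (offd_skew _)).1
    rw [ell_lie h.alg] at h'
    have e : ∑ β, ∑ c, (if β = α ∧ c = a then (1 : ℝ) else 0) *
        ∑ b, R (hi β) (lo b) (lo c) (lo b) = ∑ b, R (hi α) (lo b) (lo a) (lo b) := by
      rw [Finset.sum_eq_single α, Finset.sum_eq_single a]
      · simp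
      · intro c _ hc; simp [hc]
      · intro h; exact absurd (mem_univ _) h
      · intro β _ hβ; simp [hβ]
      · intro h; exact absurd (mem_univ _) h
    rw [e] at h'
    linarith
  refine ⟨h.alg, h.ein, h1, ?_, ?_⟩
  · intro α a
    have h2 := h.ein (hi α) (lo a)
    have hne : hi α ≠ lo a := hi_ne_lo α a
    rw [if_neg hne] at h2
    have h3 := h1 α a
    unfold ric at h2
    rw [Fin.sum_univ_six] at h2
    simp only [Fin.sum_univ_three] at h3 ⊢
    have l0 : lo 0 = 0 := rfl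
    have l1 : lo 1 = 1 := rfl
    have l2 : lo 2 = 2 := rfl
    have m0 : HopfKC.lo 0 = 0 := rfl
    have m1 : HopfKC.lo 1 = 1 := rfl
    have m2 : HopfKC.lo 2 = 2 := rfl
    have i0 : HopfKC.hi 0 = 3 := rfl
    have i1 : HopfKC.hi 1 = 4 := rfl
    have i2 : HopfKC.hi 2 = 5 := rfl
    rw [l0, l1, l2] at h3
    rw [i0, i1, i2]
    change R (hi α) 3 (lo a) 3 + R (hi α) 4 (lo a) 4 + R (hi α) 5 (lo a) 5 = 0
    linarith
  · intro x
    have h' := (hX (offd x) (offd_skew x)).2
    rw [ell_lie_lie h.alg] at h'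
    linarith

theorem AdmE.lin {R : T6} (h : AdmE R) : HopfKC.Lin 1 R := h.best.lin

/-! ### Block rotations -/

/-- `ell` only uses the skew and pair symmetries. -/
theorem ell_eq' {R : T6} (hs : ∀ i j k l, R i j k l = -R j i k l)
    (hp : ∀ i j k l, R i j k l = R k l i j) :
    ell R = (1 / 2) * ∑ a : Fin 3, ∑ b : Fin 3, R (lo a) (lo b) (lo a) (lo b) := by
  have h0 : ∀ i k l, R i i k l = 0 := fun i k l => by have := hs i i k l; linarith
  have q : ∀ i j, R i j i j = R j i j i := fun i j => by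
    have h1 := hs i j i j
    have h2 := hp j i i j
    have h3 := hs i j j i
    linarith
  simp only [Fin.sum_univ_three]
  have l0 : lo 0 = 0 := rfl
  have l1 : lo 1 = 1 := rfl
  have l2 : lo 2 = 2 := rfl
  rw [l0, l1, l2, h0, h0, h0, q 1 0, q 2 0, q 2 1]
  unfold ell
  ring

theorem ell_rot_blk' {R : T6} (hs : ∀ i j k l, R i j k l = -R j i k l)
    (hp : ∀ i j k l, R i j k l = R k l i j) {g : M6} (hg : IsBlk g)
    (ho : gᵀ * g = 1) : ell (rot g R) = ell R := by
  rw [ell_eq' (rot_skew hs g) (rot_pair hp g), ell_eq' hs hp]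
  congr 1
  simp only [rot_lo g hg]
  calc ∑ a : Fin 3, ∑ b : Fin 3, ∑ a', ∑ b', ∑ c', ∑ d',
        g (lo a') (lo a) * g (lo b') (lo b) * g (lo c') (lo a) * g (lo d') (lo b) *
          R (lo a') (lo b') (lo c') (lo d')
      = ∑ a', ∑ b', ∑ c', ∑ d', (∑ a, g (lo a') (lo a) * g (lo c') (lo a)) *
          (∑ b, g (lo b') (lo b) * g (lo d') (lo b)) * R (lo a') (lo b') (lo c') (lo d') := by
        have e1 : ∀ a : Fin 3, ∑ b : Fin 3, ∑ a', ∑ b', ∑ c', ∑ d',
            g (lo a') (lo a) * g (lo b') (lo b) * g (lo c') (lo a) * g (lo d') (lo b) *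
              R (lo a') (lo b') (lo c') (lo d') =
            ∑ a', ∑ b', ∑ c', ∑ d', ∑ b,
              g (lo a') (lo a) * g (lo b') (lo b) * g (lo c') (lo a) * g (lo d') (lo b) *
              R (lo a') (lo b') (lo c') (lo d') := fun a => move3 _
        simp only [e1]
        rw [move3]
        refine sum_congr rfl fun a' _ => sum_congr rfl fun b' _ => sum_congr rfl fun c' _ =>
          sum_congr rfl fun d' _ => ?_
        rw [sum_mul_sum, sum_mul]
        refine sum_congr rfl fun a _ => ?_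
        rw [sum_mul]
        refine sum_congr rfl fun b _ => ?_
        ring
    _ = ∑ a : Fin 3, ∑ b : Fin 3, R (lo a) (lo b) (lo a) (lo b) := by
        simp only [blk_orth hg ho, ite_mul, one_mul, zero_mul, mul_ite, mul_one, mul_zero]
        simp

theorem ell_react_rot_blk {R : T6} (hA : HopfSix.IsAlgCurv R) {g : M6} (hg : IsBlk g)
    (ho : gᵀ * g = 1) : ell (react (rot g R)) = ell (react R) := by
  rw [react_rot R ho]
  exact ell_rot_blk' (react_skew hA.skew) (react_pair hA.pair) hg ho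

theorem AdmE.rot {R : T6} (h : AdmE R) {g : M6} (hg : IsBlk g) (ho : gᵀ * g = 1) :
    AdmE (rot g R) := by
  refine ⟨h.toCls.rot ho, ?_⟩
  intro k hk
  rw [ell_rot_blk h.alg hg ho, rot_rot]
  exact h.mx _ (orth_mul ho hk)

/-! ### Maximisation of an auxiliary cubic -/

theorem exists_max_blk (R : T6) (f : ℕ → ℕ → ℕ → ℝ) (n : ℕ)
    (q : ℕ → Fin 6 × Fin 6 × Fin 6 × Fin 6) :
    ∃ g : M6, IsBlk g ∧ gᵀ * g = 1 ∧ ∀ h : M6, IsBlk h → hᵀ * h = 1 →
      P f n (vq q (rot h (rot g R))) ≤ P f n (vq q (rot g R)) := by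
  have hc : Continuous fun O : Fin 6 → Fin 6 → ℝ => P f n (vq q (rot (Matrix.of O) R)) := by
    have hv : ∀ i, Continuous fun O : Fin 6 → Fin 6 → ℝ => vq q (rot (Matrix.of O) R) i := by
      intro i
      unfold vq
      by_cases hi : i = 0
      · simp only [hi, if_true]; exact continuous_const
      · simp only [hi, if_false, H91.Split.rot, Matrix.of_apply]
        fun_prop
    unfold P
    refine continuous_finsetSum _ fun k _ => continuous_finsetSum _ fun i _ =>
      continuous_finsetSum _ fun j _ => ?_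
    exact continuous_const.mul (((hv k).mul (hv i)).mul (hv j))
  have hne : ({O : Fin 6 → Fin 6 → ℝ |
    (∀ i j, ∑ m, O m i * O m j = if i = j then 1 else 0) ∧
      ∀ a α, O (lo a) (hi α) = 0 ∧ O (hi α) (lo a) = 0}).Nonempty := by
    refine ⟨fun i j => (1 : M6) i j, (orth_iff (1 : M6)).1 (by simp), ?_⟩
    exact isBlk_one
  obtain ⟨O, hO, hmax⟩ := isCompact_blk.exists_isMaxOn hne hc.continuousOn
  have hO1 : (Matrix.of O : M6)ᵀ * Matrix.of O = 1 := (orth_iff _).2 hO.1
  have hO2 : IsBlk (Matrix.of O : M6) := hO.2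
  refine ⟨Matrix.of O, hO2, hO1, ?_⟩
  intro g hg ho
  rw [rot_rot]
  have h2 := isMaxOn_iff.1 hmax (Matrix.of.symm (Matrix.of O * g : M6))
    ⟨(orth_iff _).1 (orth_mul hO1 ho), hO2.mul hg⟩
  simpa using h2

/-- Replace an admissible tensor by one which maximises a cubic form over block rotations. -/
theorem AdmE.exists_max {R : T6} (h : AdmE R) (f : ℕ → ℕ → ℕ → ℝ) (n : ℕ)
    (q : ℕ → Fin 6 × Fin 6 × Fin 6 × Fin 6) :
    ∃ S : T6, AdmE S ∧ HopfSix.gaussBonnet S = HopfSix.gaussBonnet R ∧ ell S = ell R ∧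
      ell (react S) = ell (react R) ∧
      ∀ g : M6, IsBlk g → gᵀ * g = 1 → P f n (vq q (H91.Split.rot g S)) ≤ P f n (vq q S) := by
  obtain ⟨g, h1, h2, h3⟩ := exists_max_blk R f n q
  exact ⟨H91.Split.rot g R, h.rot h1 h2, gb_rot R h2, ell_rot_blk h.alg h1 h2,
    ell_react_rot_blk h.alg h1 h2, h3⟩

/-! ### Scalar relations -/

/-- `ell` and the trace of the mixed block. -/
theorem ell_trT {R : T6} (h : HopfKC.Lin 1 R) : ell R = (15 - HopfKC.trT R) / 2 := by
  have h0 := h.bA_eq 0 0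
  have h1 := h.bA_eq 1 1
  have h2 := h.bA_eq 2 2
  have e0 : HopfKC.bA R 0 0 = R 1 2 1 2 := rfl
  have e1 : HopfKC.bA R 1 1 = R 2 0 2 0 := rfl
  have e2 : HopfKC.bA R 2 2 = R 0 1 0 1 := rfl
  have q : R 2 0 2 0 = R 0 2 0 2 := by
    have h1 := h.alg.skew 2 0 2 0
    have h2 := h.alg.pair 0 2 2 0
    have h3 := h.alg.skew 2 0 0 2
    linarith
  rw [if_pos rfl] at h0 h1 h2
  unfold ell
  simp only [HopfKC.trT, Fin.sum_univ_three] at h0 h1 h2 ⊢
  linarith

/-! ### Global optimality -/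

theorem Kf_smul (R : T6) (a b : ℝ) (x y : Fin 6 → ℝ) :
    Kf R (fun i => a * x i) (fun i => b * y i) = a ^ 2 * b ^ 2 * Kf R x y := by
  simp only [Kf, mul_sum]
  exact sum_congr rfl fun _ _ => sum_congr rfl fun _ _ => sum_congr rfl fun _ _ =>
    sum_congr rfl fun _ _ => by ring

theorem Kf_zero_left (R : T6) (y : Fin 6 → ℝ) : Kf R (fun _ => 0) y = 0 := by
  simp [Kf]

theorem Kf_zero_right (R : T6) (x : Fin 6 → ℝ) : Kf R x (fun _ => 0) = 0 := by
  simp [Kf]

/-- Extension of three orthonormal vectors to an orthogonal matrix. -/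
theorem exists_cols (u : Fin 3 → Fin 6 → ℝ)
    (hu : ∀ a b, ∑ i, u a i * u b i = if a = b then 1 else 0) :
    ∃ g : M6, gᵀ * g = 1 ∧ ∀ a i, g i (lo a) = u a i := by
  let v : Fin 6 → EuclideanSpace ℝ (Fin 6) := ![WithLp.toLp 2 (u 0), WithLp.toLp 2 (u 1),
    WithLp.toLp 2 (u 2), 0, 0, 0]
  have hv : Orthonormal ℝ (({0, 1, 2} : Set (Fin 6)).domRestrict v) := by
    have hin : ∀ a b : Fin 3, inner ℝ (v (lo a)) (v (lo b)) = if a = b then (1 : ℝ) else 0 := by
      intro a b
      have e : ∀ a : Fin 3, v (lo a) = WithLp.toLp 2 (u a) := by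
        intro a
        fin_cases a <;> rfl
      rw [e, e, ← hu a b, EuclideanSpace.inner_eq_star_dotProduct]
      simp [dotProduct, mul_comm]
    have hex : ∀ i : ({0, 1, 2} : Set (Fin 6)), ∃ a : Fin 3, (i : Fin 6) = lo a := by
      rintro ⟨i, hi⟩
      simp only [Set.mem_insert_iff, Set.mem_singleton_iff] at hi
      rcases hi with h | h | h
      · exact ⟨0, h⟩
      · exact ⟨1, h⟩
      · exact ⟨2, h⟩
    rw [orthonormal_iff_ite]
    intro i j
    obtain ⟨a, ha⟩ := hex i
    obtain ⟨b, hb⟩ := hex j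
    have h1 := hin a b
    rw [Set.domRestrict_apply, Set.domRestrict_apply, ha, hb, h1]
    have h2 : (i = j) ↔ a = b := by
      rw [← Subtype.coe_injective.eq_iff, ha, hb]
      exact lo_inj a b
    simp only [h2]
  obtain ⟨b, hb⟩ := hv.exists_orthonormalBasis_extension_of_card_eq (ι := Fin 6) (by simp)
  refine ⟨Matrix.of fun i j => b j i, ?_, ?_⟩
  · ext i j
    rw [Matrix.mul_apply, Matrix.one_apply]
    simp only [Matrix.transpose_apply, Matrix.of_apply]
    have h := orthonormal_iff_ite.1 b.orthonormal i j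
    rw [EuclideanSpace.inner_eq_star_dotProduct] at h
    rw [← h]
    simp [dotProduct, mul_comm]
  · intro a i
    have h1 : b (lo a) = v (lo a) := hb _ (by fin_cases a <;> simp [lo])
    change (b (lo a)) i = u a i
    rw [h1]
    fin_cases a <;> rfl

theorem pl_unit {R : T6} (hmx : ∀ g : M6, gᵀ * g = 1 → ell (rot g R) ≤ ell R)
    (u : Fin 3 → Fin 6 → ℝ) (hu : ∀ a b, ∑ i, u a i * u b i = if a = b then 1 else 0) :
    Kf R (u 0) (u 1) + Kf R (u 0) (u 2) + Kf R (u 1) (u 2) ≤ ell R := by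
  obtain ⟨g, hg, hc⟩ := exists_cols u hu
  have h := hmx g hg
  have e : ∀ a b : Fin 3, rot g R (lo a) (lo b) (lo a) (lo b) = Kf R (u a) (u b) := by
    intro a b
    simp only [rot, Kf, hc]
    exact sum_congr rfl fun _ _ => sum_congr rfl fun _ _ => sum_congr rfl fun _ _ =>
      sum_congr rfl fun _ _ => by ring
  have e01 : rot g R 0 1 0 1 = Kf R (u 0) (u 1) := e 0 1
  have e02 : rot g R 0 2 0 2 = Kf R (u 0) (u 2) := e 0 2
  have e12 : rot g R 1 2 1 2 = Kf R (u 1) (u 2) := e 1 2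
  unfold ell at h ⊢
  rw [e01, e02, e12] at h
  exact h

/-- Global optimality of the splitting. -/
theorem pl_ineq {R : T6} (hmx : ∀ g : M6, gᵀ * g = 1 → ell (rot g R) ≤ ell R)
    (x y w : Fin 6 → ℝ) (h1 : ∑ i, x i * y i = 0) (h2 : ∑ i, x i * w i = 0)
    (h3 : ∑ i, y i * w i = 0) :
    Kf R x y * ∑ i, w i ^ 2 + Kf R x w * ∑ i, y i ^ 2 + Kf R y w * ∑ i, x i ^ 2 ≤
      ell R * ((∑ i, x i ^ 2) * (∑ i, y i ^ 2) * ∑ i, w i ^ 2) := by
  have hz : ∀ x : Fin 6 → ℝ, ∑ i, x i ^ 2 = 0 → x = fun _ => 0 := by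
    intro x hx
    funext i
    have := (sum_eq_zero_iff_of_nonneg (fun i _ => sq_nonneg (x i))).1 hx i (mem_univ i)
    exact pow_eq_zero_iff (two_ne_zero) |>.1 this
  have hn : ∀ x : Fin 6 → ℝ, 0 ≤ ∑ i, x i ^ 2 := fun x => sum_nonneg fun i _ => sq_nonneg _
  rcases eq_or_lt_of_le (hn x) with hx | hx
  · rw [← hx, hz x hx.symm]
    simp [Kf_zero_left]
  rcases eq_or_lt_of_le (hn y) with hy | hy
  · rw [← hy, hz y hy.symm]
    simp [Kf_zero_left, Kf_zero_right]
  rcases eq_or_lt_of_le (hn w) with hw | hw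
  · rw [← hw, hz w hw.symm]
    simp [Kf_zero_right]
  set X := ∑ i, x i ^ 2 with hX
  set Y := ∑ i, y i ^ 2 with hY
  set W := ∑ i, w i ^ 2 with hW
  have hx2 : (1 / √X) ^ 2 * X = 1 := by
    rw [div_pow, Real.sq_sqrt hx.le]
    field_simp
  have hy2 : (1 / √Y) ^ 2 * Y = 1 := by
    rw [div_pow, Real.sq_sqrt hy.le]
    field_simp
  have hw2 : (1 / √W) ^ 2 * W = 1 := by
    rw [div_pow, Real.sq_sqrt hw.le]
    field_simp
  set a := 1 / √X with ha
  set b := 1 / √Y with hb
  set c := 1 / √W with hc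
  have key := pl_unit hmx ![fun i => a * x i, fun i => b * y i, fun i => c * w i] (by
    have s : ∀ (p q : ℝ) (x y : Fin 6 → ℝ), ∑ i, (p * x i) * (q * y i) = p * q * ∑ i, x i * y i := by
      intro p q x y
      rw [mul_sum]
      exact sum_congr rfl fun i _ => by ring
    have s' : ∀ (p : ℝ) (x : Fin 6 → ℝ), ∑ i, (p * x i) * (p * x i) = p ^ 2 * ∑ i, x i ^ 2 := by
      intro p x
      rw [mul_sum]
      exact sum_congr rfl fun i _ => by ring
    have h1' : ∑ i, y i * x i = 0 := by rw [← h1]; exact sum_congr rfl fun i _ => mul_comm _ _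
    have h2' : ∑ i, w i * x i = 0 := by rw [← h2]; exact sum_congr rfl fun i _ => mul_comm _ _
    have h3' : ∑ i, w i * y i = 0 := by rw [← h3]; exact sum_congr rfl fun i _ => mul_comm _ _
    intro p q
    fin_cases p <;> fin_cases q
    · simpa [s', ← hX] using hx2
    · simp [s, h1]
    · simp [s, h2]
    · simp [s, h1']
    · simpa [s', ← hY] using hy2
    · simp [s, h3]
    · simp [s, h2']
    · simp [s, h3']
    · simpa [s', ← hW] using hw2)
  simp only [Matrix.cons_val_zero, Matrix.cons_val_one, Matrix.cons_val, Kf_smul] at key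
  have hpos : 0 ≤ X * Y * W := by positivity
  have h4 := mul_le_mul_of_nonneg_right key hpos
  have e1 : (a ^ 2 * b ^ 2 * Kf R x y + a ^ 2 * c ^ 2 * Kf R x w + b ^ 2 * c ^ 2 * Kf R y w) *
      (X * Y * W) = Kf R x y * W + Kf R x w * Y + Kf R y w * X := by
    linear_combination (Kf R x y * W * (b ^ 2 * Y) + Kf R x w * Y * (c ^ 2 * W)) * hx2 +
      (Kf R x y * W + Kf R y w * X * (c ^ 2 * W)) * hy2 +
      (Kf R x w * Y + Kf R y w * X) * hw2
  rw [e1] at h4
  linarith

end EinsteinSix
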