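import Pool.Agent.Lib.H13.HopfEChk
import Pool.Agent.Lib.H56S.Unp
import Pool.Agent.Lib.EinsteinSix.Geo
import Pool.Agent.Lib.EinsteinSix.DataTP
import Pool.Agent.Lib.H87.HopfKC.Cert.GenSum

/-!
# The second target polynomial

`ell (react R)` in the 76 coordinates, and the table `tb` of
`gaussBonnet R / 96 + (4 - trT R) ell (react R)`.
-/

set_option autoImplicit false

open Finset H91.Split HopfKC HopfKC.Gs

namespace EinsteinSix

/-- Sorted coefficients of `v₀ ell(react)`. -/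
noncomputable def tp (k i j : ℕ) : ℤ := lkf 16 256 j 10 (Tr.get tpT (Nat.add (Nat.mul 76 k) i))

/-- Sorted coefficients of `gaussBonnet / 96 + (4 v₀ - trT) ell(react)`. -/
noncomputable def tb (k i j : ℕ) : ℤ := lkf 16 256 j 10 (Tr.get tbT (Nat.add (Nat.mul 76 k) i))

/-- The elements of `Fin 6`. -/
def fin6 : List (Fin 6) := [0, 1, 2, 3, 4, 5]

theorem sum_fin6 (f : Fin 6 → ℝ) : (fin6.map f).sum = ∑ i, f i := by
  simp [fin6, Fin.sum_univ_six, add_assoc]

/-- The pairs of the first block. -/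
def pr3 : List (Fin 6 × Fin 6) := [(0, 1), (0, 2), (1, 2)]

/-- The products which represent `4 l(v) ell(react)`. -/
def eTP (l : List (ℕ × ℤ)) : List Tri := pr3.flatMap fun a =>
  [(-20, l, [(0, 1)], ent a.1 a.2 a.1 a.2)] ++ fin6.flatMap fun p => fin6.flatMap fun q =>
    [(1, l, ent a.1 a.2 p q, ent a.1 a.2 p q), (2, l, ent a.1 p a.1 q, ent a.2 p a.2 q),
      (-2, l, ent a.1 p a.2 q, ent a.2 p a.1 q)]

/-- Its trie. -/
noncomputable def tTP (l : List (ℕ × ℤ)) : BT := sumT pr3 fun a =>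
  (triT (-20, l, [(0, 1)], ent a.1 a.2 a.1 a.2)).add (sumT fin6 fun p => sumT fin6 fun q =>
    sumT [(1, l, ent a.1 a.2 p q, ent a.1 a.2 p q), (2, l, ent a.1 p a.1 q, ent a.2 p a.2 q),
      (-2, l, ent a.1 p a.2 q, ent a.2 p a.1 q)] fun t => triT t)

theorem okEnt : ∀ a b c d, okL (ent a b c d) = true := by decide +kernel

theorem ev_tTP (v : ℕ → ℝ) {l : List (ℕ × ℤ)} (hl : okL l = true) :
    (tTP l).ev v 0 0 = tevs v (eTP l) := by
  unfold tTP eTP
  rw [ev_sumT, tevs_flatMap]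
  refine map_sum_congr _ _ _ fun a => ?_
  rw [BT.ev_add, tevs_append, ev_triT v _ hl rfl (okEnt _ _ _ _)]
  congr 1
  · simp [tevs]
  rw [ev_sumT, tevs_flatMap]
  refine map_sum_congr _ _ _ fun p => ?_
  rw [ev_sumT, tevs_flatMap]
  refine map_sum_congr _ _ _ fun q => ?_
  rw [ev_sumT]
  unfold tevs
  simp only [List.map_cons, List.map_nil]
  rw [ev_triT v _ hl (okEnt _ _ _ _) (okEnt _ _ _ _), ev_triT v _ hl (okEnt _ _ _ _) (okEnt _ _ _ _),
    ev_triT v _ hl (okEnt _ _ _ _) (okEnt _ _ _ _)]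

/-- The products represent `4 l(v) ell(react)`. -/
theorem tevs_eTP {R : T6'} (h : Lin 1 R) (l : List (ℕ × ℤ)) :
    tevs (cv 1 R) (eTP l) = 4 * (lev (cv 1 R) l * ell (react R)) := by
  have h1 : ∀ a : Fin 6 × Fin 6, tevs (cv 1 R)
      ([(-20, l, [(0, 1)], ent a.1 a.2 a.1 a.2)] ++ fin6.flatMap fun p => fin6.flatMap fun q =>
        ([(1, l, ent a.1 a.2 p q, ent a.1 a.2 p q), (2, l, ent a.1 p a.1 q, ent a.2 p a.2 q),
        (-2, l, ent a.1 p a.2 q, ent a.2 p a.1 q)] : List Tri)) =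
      4 * (lev (cv 1 R) l * react R a.1 a.2 a.1 a.2) := by
    intro a
    have z : lev (cv 1 R) [(0, 1)] = 1 := by simp [lev, cv]
    rw [tevs_append, tevs_flatMap, sum_fin6]
    have h2 : tevs (cv 1 R) [(-20, l, [(0, 1)], ent a.1 a.2 a.1 a.2)] =
        -40 * (lev (cv 1 R) l * R a.1 a.2 a.1 a.2) := by
      simp only [tevs, List.map_cons, List.map_nil, List.sum_cons, List.sum_nil, tev, lev_ent h, z]
      push_cast
      ring
    rw [h2]
    simp only [react, quad]
    have h3 : ∀ p : Fin 6, tevs (cv 1 R) (fin6.flatMap fun q =>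
        ([(1, l, ent a.1 a.2 p q, ent a.1 a.2 p q), (2, l, ent a.1 p a.1 q, ent a.2 p a.2 q),
        (-2, l, ent a.1 p a.2 q, ent a.2 p a.1 q)] : List Tri)) =
        ∑ q, 4 * lev (cv 1 R) l * (R a.1 a.2 p q * R a.1 a.2 p q +
          2 * (R a.1 p a.1 q * R a.2 p a.2 q - R a.1 p a.2 q * R a.2 p a.1 q)) := by
      intro p
      rw [tevs_flatMap, sum_fin6]
      refine Finset.sum_congr rfl fun q _ => ?_
      simp only [tevs, List.map_cons, List.map_nil, List.sum_cons, List.sum_nil, tev, lev_ent h]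
      push_cast
      ring
    simp only [h3]
    rw [mul_sub, Finset.mul_sum, mul_sub, Finset.mul_sum]
    have h4 : ∀ p : Fin 6, ∑ q, 4 * lev (cv 1 R) l * (R a.1 a.2 p q * R a.1 a.2 p q +
          2 * (R a.1 p a.1 q * R a.2 p a.2 q - R a.1 p a.2 q * R a.2 p a.1 q)) =
        4 * (lev (cv 1 R) l * ∑ q, (R a.1 a.2 p q * R a.1 a.2 p q +
          2 * (R a.1 p a.1 q * R a.2 p a.2 q - R a.1 p a.2 q * R a.2 p a.1 q))) := by
      intro p
      rw [← Finset.mul_sum]
      ring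
    simp only [h4]
    rw [← Finset.mul_sum]
    ring
  unfold eTP
  rw [tevs_flatMap]
  simp only [h1, pr3, List.map_cons, List.map_nil, List.sum_cons, List.sum_nil, ell]
  ring

/-- The linear form `4 v₀ - trT`. -/
def l4M : List (ℕ × ℤ) := [(0, 4), (1, -1), (10, -1), (18, -1), (25, -1), (31, -1), (36, -1),
  (40, -1), (43, -1), (45, -1)]

theorem lev_l4M {R : T6'} (h : Lin 1 R) : lev (cv 1 R) l4M = 4 - trT R := by
  have h0 := cv_diag h.alg 1
  have z : cv 1 R 0 = 1 := by simp [cv]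
  have e : lev (cv 1 R) diag5 = cv 1 R 0 + lev (cv 1 R) l4M := by
    simp only [diag5, l4M, lev_cons, lev_nil]
    push_cast
    ring
  rw [z, h0] at e
  linarith

theorem chkTP : ((tTP [(0, 1)]).add (tabU I76 (Tr.get tpT) (-4) 16 256 10)).isZero = true := by
  decide +kernel

/-- Row `i` of the quadratic form `ell (react)`. -/
noncomputable def rowTQ (i : ℕ) : List (ℕ × ℤ) :=
  bif Nat.beq (Tr.get tpT i) 0 then [] else flt (rowL I76 1 16 256 10 (Tr.get tpT i))

/-- The trie of `4 l(v) ell (react)`, from the table `tpT`. -/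
noncomputable def tLQ (l : List (ℕ × ℤ)) : BT := sumT I76 fun i => sumT (rowTQ i) fun q =>
  sumT l fun e => monoT (Int.mul (.ofNat 4) (Int.mul e.2 q.2)) e.1 i q.1

theorem okL_flt {x : List (ℕ × ℤ)} (h : ∀ e ∈ x, e.1 < 76) : ∀ e ∈ flt x, e.1 < 76 := by
  induction x with
  | nil => intro e he; exact absurd he (by simp [flt])
  | cons p t ih =>
    have e1 : flt (p :: t) = bif isz p.2 then flt t else p :: flt t := rfl
    have h2 := ih fun e he => h e (List.mem_cons_of_mem _ he)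
    intro e he
    rw [e1] at he
    cases hz : isz p.2 with
    | true =>
      rw [hz, cond_true] at he
      exact h2 e he
    | false =>
      rw [hz, cond_false] at he
      rcases List.mem_cons.1 he with rfl | he
      · exact h _ List.mem_cons_self
      · exact h2 e he

theorem okL_rowL (m : ℤ) (w o fuel r : ℕ) {J : List ℕ} (h : ∀ j ∈ J, j < 76) :
    ∀ e ∈ rowL J m w o fuel r, e.1 < 76 := by
  induction J with
  | nil => intro e he; exact absurd he (by simp [rowL])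
  | cons j J ih =>
    have e1 : rowL (j :: J) m w o fuel r =
        (j, Int.mul m (lkf w o j fuel r)) :: rowL J m w o fuel r := rfl
    intro e he
    rw [e1] at he
    rcases List.mem_cons.1 he with rfl | he
    · exact h _ List.mem_cons_self
    · exact ih (fun j hj => h j (List.mem_cons_of_mem _ hj)) e he

theorem okL_rowTQ (i : ℕ) : ∀ e ∈ rowTQ i, e.1 < 76 := by
  unfold rowTQ
  cases hb : Nat.beq (Tr.get tpT i) 0 with
  | true => intro e he; exact absurd he (by simp)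
  | false =>
    rw [cond_false]
    refine okL_flt (okL_rowL _ _ _ _ _ fun j hj => ?_)
    rw [I76_eq] at hj
    exact List.mem_range.1 hj

theorem lev_rowTQ (v : ℕ → ℝ) (i : ℕ) : lev v (rowTQ i) =
    ∑ j ∈ range 76, (lkf 16 256 j 10 (Tr.get tpT i) : ℝ) * v j := by
  unfold rowTQ
  cases hb : Nat.beq (Tr.get tpT i) 0 with
  | true =>
    have h5 : Tr.get tpT i = 0 := Nat.eq_of_beq_eq_true hb
    rw [cond_true, h5]
    simp [lkf_zero, lev_nil]
  | false =>
    rw [cond_false, lev_flt, lev_rowL, sum_J I76_eq]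
    push_cast
    rw [one_mul]

theorem ev_tLQ (v : ℕ → ℝ) {l : List (ℕ × ℤ)} (hl : okL l = true) :
    (tLQ l).ev v 0 0 = 4 * (lev v l * ∑ i ∈ range 76, ∑ j ∈ range 76,
      (lkf 16 256 j 10 (Tr.get tpT i) : ℝ) * (v i * v j)) := by
  unfold tLQ
  rw [ev_sumT, sum_J I76_eq, Finset.mul_sum, Finset.mul_sum]
  refine Finset.sum_congr rfl fun i hi => ?_
  have hi' : i < 76 := Finset.mem_range.1 hi
  rw [ev_sumT, sum_map_mul v _ _ (4 * (lev v l * v i)) fun q hq => ?_, lev_rowTQ]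
  · rw [Finset.sum_mul, Finset.mul_sum, Finset.mul_sum]
    refine Finset.sum_congr rfl fun j _ => ?_
    ring
  · rw [ev_sumT]
    have e2 : (q.2 : ℝ) * v q.1 * (4 * (lev v l * v i)) =
        lev v l * (4 * ((q.2 : ℝ) * v q.1) * v i) := by ring
    rw [e2]
    refine sum_map_mul v _ _ _ fun e he => ?_
    rw [ev_monoT v _ (okL_mem hl e he) hi' (okL_rowTQ i q hq)]
    have e4 : ((Int.mul (.ofNat 4) (Int.mul e.2 q.2) : ℤ) : ℝ) = 4 * ((e.2 : ℝ) * q.2) := by
      have h1 : (Int.mul (.ofNat 4) (Int.mul e.2 q.2) : ℤ) = 4 * (e.2 * q.2) := rfl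
      rw [h1]
      push_cast
      ring
    rw [e4]
    ring

theorem chkTB : (((tLQ l4M).add (tabU I76 (Tr.get e4T) 4 16 256 10)).add
    (tabU I76 (Tr.get tbT) (-4) 16 256 10)).isZero = true := by
  decide +kernel

/-- `ell (react R)` as a cubic form in the 76 coordinates. -/
theorem ell_react_eq {R : T6'} (h : Lin 1 R) : ell (react R) = V tp (cv 1 R) := by
  have h1 := trie_soundU (cv 1 R) I76_eq chkTP
  rw [ev_tTP _ rfl, tevs_eTP h] at h1
  have z : lev (cv 1 R) [(0, 1)] = 1 := by simp [lev, cv]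
  have h3 : V tp (cv 1 R) =
      ∑ k ∈ range 76, ∑ i ∈ range 76, ∑ j ∈ range 76,
        (lkf 16 256 j 10 (Tr.get tpT (Nat.add (Nat.mul 76 k) i)) : ℝ) *
          (cv 1 R k * cv 1 R i * cv 1 R j) := rfl
  rw [h3]
  rw [z] at h1
  push_cast at h1
  linarith

/-- Rows `k ≥ 1` of the table vanish. -/
theorem tpT_zero {n : ℕ} (h : 76 ≤ n) : Tr.get tpT n = 0 := by
  have e : Tr.get tpT n = bif Nat.ble 76 n then 0 else Tr.get tpT_0 n := rfl
  rw [e, Nat.ble_eq_true_of_le h, cond_true]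

/-- `ell (react R)` as a quadratic form in the 76 coordinates. -/
theorem ell_react_quad {R : T6'} (h : Lin 1 R) : ell (react R) =
    ∑ i ∈ range 76, ∑ j ∈ range 76,
      (lkf 16 256 j 10 (Tr.get tpT i) : ℝ) * (cv 1 R i * cv 1 R j) := by
  rw [ell_react_eq h]
  have h3 : V tp (cv 1 R) =
      ∑ k ∈ range 76, ∑ i ∈ range 76, ∑ j ∈ range 76,
        (lkf 16 256 j 10 (Tr.get tpT (Nat.add (Nat.mul 76 k) i)) : ℝ) *
          (cv 1 R k * cv 1 R i * cv 1 R j) := rfl
  have z : cv 1 R 0 = 1 := by simp [cv]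
  rw [h3, Finset.sum_eq_single_of_mem 0 (Finset.mem_range.2 (by norm_num))]
  · refine Finset.sum_congr rfl fun i _ => Finset.sum_congr rfl fun j _ => ?_
    have e : Nat.add (Nat.mul 76 0) i = i := by
      show 76 * 0 + i = i
      omega
    rw [e, z, one_mul]
  · intro k _ hk
    refine Finset.sum_eq_zero fun i _ => Finset.sum_eq_zero fun j _ => ?_
    have e : (76 : ℕ) ≤ Nat.add (Nat.mul 76 k) i := by
      show 76 ≤ 76 * k + i
      omega
    rw [tpT_zero e, lkf_zero]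
    simp

/-- The target of the slices `trT ≤ 4`. -/
theorem target_B {R : T6'} (h : Lin 1 R) :
    HopfSix.gaussBonnet R + 96 * (4 - trT R) * ell (react R) = 96 * V tb (cv 1 R) := by
  have h1 := trie_soundU (cv 1 R) I76_eq chkTB
  rw [BT.ev_add, ev_tLQ _ rfl, ← ell_react_quad h, ev_tabU _ I76_eq, lev_l4M h] at h1
  have h2 := gb_e4 h
  have h3 : V tb (cv 1 R) =
      ∑ k ∈ range 76, ∑ i ∈ range 76, ∑ j ∈ range 76,
        (lkf 16 256 j 10 (Tr.get tbT (Nat.add (Nat.mul 76 k) i)) : ℝ) *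
          (cv 1 R k * cv 1 R i * cv 1 R j) := rfl
  have h4 : ∑ k ∈ range 76, ∑ i ∈ range 76, ∑ j ∈ range 76,
      (e4 k i j : ℝ) * (cv 1 R k * cv 1 R i * cv 1 R j) =
      ∑ k ∈ range 76, ∑ i ∈ range 76, ∑ j ∈ range 76,
        (lkf 16 256 j 10 (Tr.get e4T (Nat.add (Nat.mul 76 k) i)) : ℝ) *
          (cv 1 R k * cv 1 R i * cv 1 R j) := rfl
  rw [h3]
  rw [← h4, ← h2] at h1
  push_cast at h1
  linarith

end EinsteinSix
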