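import Pool.Agent.Lib.EinsteinSix.Fin3
import Pool.Agent.Lib.EinsteinSix.Frame

/-!
# Closed Einstein six-manifolds of nonpositive sectional curvature: `∫ GB ≤ 0`
-/

set_option autoImplicit false

open MeasureTheory Finset Matrix H91.Split Polynomial

namespace EinsteinSix

variable {P : Type*} [TopologicalSpace P] [CompactSpace P] [MeasurableSpace P] [BorelSpace P]

theorem integrable_cont {μ : Measure P} [IsFiniteMeasure μ] (f : C(P, ℝ)) :
    Integrable (fun p => f p) μ := by
  refine Integrable.of_bound f.continuous.aestronglyMeasurable ‖f‖ ?_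
  exact Filter.Eventually.of_forall fun p => f.norm_coe_le_norm p

/-- Evaluation at a frame. -/
noncomputable def ev (A : Subalgebra ℝ C(P, ℝ)) (p : P) : A →ₐ[ℝ] ℝ :=
  (ContinuousMap.evalAlgHom ℝ ℝ p).comp A.val

omit [CompactSpace P] [MeasurableSpace P] [BorelSpace P] in
theorem ev_apply (A : Subalgebra ℝ C(P, ℝ)) (p : P) (a : A) : ev A p a = (a : C(P, ℝ)) p := rfl

theorem FrameBundle.isAlgCurv {μ : Measure P} (F : FrameBundle 6 P μ) (p : P) :
    HopfSix.IsAlgCurv (F.curv p) := by
  have hz : ∀ a b : F.A, a = b → (a : C(P, ℝ)) p = (b : C(P, ℝ)) p := by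
    rintro a b rfl; rfl
  constructor
  · intro i j k l
    simpa [FrameBundle.curv] using hz _ _ (F.cartan.skew12 i j k l)
  · intro i j k l
    exact hz _ _ (F.cartan.pair i j k l)
  · intro i j k l
    simpa [FrameBundle.curv] using hz _ _ (F.cartan.bianchi i j k l)

theorem integral_gb_nonneg {μ : Measure P} [IsFiniteMeasure μ] (F : FrameBundle 6 P μ)
    {lam : ℝ} (hlam : lam < 0)
    (hE : ∀ i k, ∑ j, F.cartan.R i j k j = algebraMap ℝ F.A (if i = k then lam else 0))
    (hcls : ∀ p, Cls (fun i j k l => -(5 / -lam) * F.curv p i j k l))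
    (G : C(P, ℝ))
    (hG : ∀ p, G p = HopfSix.gaussBonnet (fun i j k l => -(5 / -lam) * F.curv p i j k l) -
      defect (fun i j k l => -(5 / -lam) * F.curv p i j k l)) :
    0 ≤ ∫ p, G p ∂μ := by
  have hc : 0 < -lam / 5 := by linarith
  have key : ∀ ε : ℝ, 0 < ε → -ε * μ.real Set.univ ≤ ∫ p, G p ∂μ := by
    intro ε hε
    obtain ⟨N, k, g, hk, hg, happ⟩ := approx ε hε
    set U : Fin N → F.A := fun i => F.cartan.U (5 / -lam) (g i) with hU
    set W : C(P, ℝ) := ∑ m, ∑ i, ((F.cartan.B m (U i) : F.A) : C(P, ℝ)) ^ 2 with hW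
    have key2 : ∀ ε₁ : ℝ, 0 < ε₁ →
        (-lam / 5) * (-ε * μ.real Set.univ - ∫ p, G p ∂μ) ≤ ε₁ * ∫ p, W p ∂μ := by
      intro ε₁ hε₁
      obtain ⟨h, hh⟩ := happ ε₁ hε₁
      set X : C(P, ℝ) := ∑ m, ((F.cartan.B m (aeval (∑ i, U i ^ k) h *
        F.cartan.B m (∑ i, U i ^ k)) : F.A) : C(P, ℝ)) with hX
      have hX0 : ∫ p, X p ∂μ = 0 := by
        have : ∀ p, X p = ∑ m, ((F.cartan.B m (aeval (∑ i, U i ^ k) h *
            F.cartan.B m (∑ i, U i ^ k)) : F.A) : C(P, ℝ)) p := by
          intro p
          rw [hX, ContinuousMap.coe_sum, Finset.sum_apply]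
        simp_rw [this]
        rw [integral_finsetSum _ (fun m _ => integrable_cont _)]
        exact sum_eq_zero fun m _ => F.integral_B m _
      have hpt : ∀ p, (-lam / 5) * (-ε - G p) - ε₁ * W p ≤ X p := by
        intro p
        have hUp : ∀ i, ev F.A p (U i) =
            ell (rot (g i) (fun i j k l => -(5 / -lam) * F.curv p i j k l)) := fun i =>
          F.cartan.U_at (ev F.A p) _ _
        have hXp : X p = ∑ m, ev F.A p (F.cartan.B m (aeval (∑ i, U i ^ k) h *
            F.cartan.B m (∑ i, U i ^ k))) := by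
          rw [hX, ContinuousMap.coe_sum, Finset.sum_apply]
          rfl
        have hWp : W p = ∑ m, ∑ i, ev F.A p (F.cartan.B m (U i)) ^ 2 := by
          rw [hW, ContinuousMap.coe_sum, Finset.sum_apply]
          refine sum_congr rfl fun m _ => ?_
          rw [ContinuousMap.coe_sum, Finset.sum_apply]
          rfl
        obtain ⟨h1, h2⟩ := hh _ (hcls p)
        have h1' : -ε ≤ G p + h.eval (∑ i, ell (rot (g i)
            (fun i j k l => -(5 / -lam) * F.curv p i j k l)) ^ k) *
            ∑ i, (k : ℝ) * ell (rot (g i)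
              (fun i j k l => -(5 / -lam) * F.curv p i j k l)) ^ (k - 1) *
              ell (rot (g i) (react (fun i j k l => -(5 / -lam) * F.curv p i j k l))) := by
          rw [hG p]
          linarith
        clear h1
        rw [hXp]
        simp_rw [div_single]
        simp_rw [hUp]
        have hlap : ∀ i, ∑ m, ev F.A p (F.cartan.B m (F.cartan.B m (U i))) =
            (-lam / 5) * ell (rot (g i)
              (react (fun i j k l => -(5 / -lam) * F.curv p i j k l))) := by
          intro i
          rw [← map_sum]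
          exact F.cartan.lapl_U (ev F.A p) hlam hE (g i)
        set S : T6 := fun i j k l => -(5 / -lam) * F.curv p i j k l with hS
        have e1 : ∑ m, (h.eval (∑ i, ell (rot (g i) S) ^ k) *
              (∑ i, (k : ℝ) * ell (rot (g i) S) ^ (k - 1) *
                  ev F.A p (F.cartan.B m (F.cartan.B m (U i))) +
                ∑ i, (k : ℝ) * ((k : ℝ) - 1) * ell (rot (g i) S) ^ (k - 2) *
                  ev F.A p (F.cartan.B m (U i)) ^ 2) +
              (derivative h).eval (∑ i, ell (rot (g i) S) ^ k) *
                (∑ i, (k : ℝ) * ell (rot (g i) S) ^ (k - 1) *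
                  ev F.A p (F.cartan.B m (U i))) ^ 2) =
            (-lam / 5) * (h.eval (∑ i, ell (rot (g i) S) ^ k) *
              ∑ i, (k : ℝ) * ell (rot (g i) S) ^ (k - 1) * ell (rot (g i) (react S))) +
            ∑ m, (h.eval (∑ i, ell (rot (g i) S) ^ k) *
                ∑ i, (k : ℝ) * ((k : ℝ) - 1) * ell (rot (g i) S) ^ (k - 2) *
                  ev F.A p (F.cartan.B m (U i)) ^ 2 +
              (derivative h).eval (∑ i, ell (rot (g i) S) ^ k) *
                (∑ i, (k : ℝ) * ell (rot (g i) S) ^ (k - 1) *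
                  ev F.A p (F.cartan.B m (U i))) ^ 2) := by
          have e2 : (-lam / 5) * (h.eval (∑ i, ell (rot (g i) S) ^ k) *
              ∑ i, (k : ℝ) * ell (rot (g i) S) ^ (k - 1) * ell (rot (g i) (react S))) =
              ∑ m, h.eval (∑ i, ell (rot (g i) S) ^ k) *
                ∑ i, (k : ℝ) * ell (rot (g i) S) ^ (k - 1) *
                  ev F.A p (F.cartan.B m (F.cartan.B m (U i))) := by
            rw [← mul_sum, sum_comm]
            have : ∑ i, ∑ m, (k : ℝ) * ell (rot (g i) S) ^ (k - 1) *
                  ev F.A p (F.cartan.B m (F.cartan.B m (U i))) =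
                (-lam / 5) * ∑ i, (k : ℝ) * ell (rot (g i) S) ^ (k - 1) *
                  ell (rot (g i) (react S)) := by
              rw [mul_sum]
              refine sum_congr rfl fun i _ => ?_
              rw [← mul_sum, hlap i]
              ring
            rw [this]
            ring
          rw [e2, ← sum_add_distrib]
          refine sum_congr rfl fun m _ => ?_
          ring
        rw [e1]
        have e3 : -ε₁ * W p ≤ ∑ m, (h.eval (∑ i, ell (rot (g i) S) ^ k) *
                ∑ i, (k : ℝ) * ((k : ℝ) - 1) * ell (rot (g i) S) ^ (k - 2) *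
                  ev F.A p (F.cartan.B m (U i)) ^ 2 +
              (derivative h).eval (∑ i, ell (rot (g i) S) ^ k) *
                (∑ i, (k : ℝ) * ell (rot (g i) S) ^ (k - 1) *
                  ev F.A p (F.cartan.B m (U i))) ^ 2) := by
          rw [hWp, mul_sum]
          exact sum_le_sum fun m _ => h2 _
        have e4 : (-lam / 5) * (-ε - G p) ≤ (-lam / 5) * (h.eval (∑ i, ell (rot (g i) S) ^ k) *
              ∑ i, (k : ℝ) * ell (rot (g i) S) ^ (k - 1) * ell (rot (g i) (react S))) := by
          refine mul_le_mul_of_nonneg_left ?_ hc.le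
          linarith
        linarith
      have i0 : Integrable (fun p => -ε - G p) μ := (integrable_const _).sub (integrable_cont G)
      have i1 : Integrable (fun p => (-lam / 5) * (-ε - G p)) μ := i0.const_mul _
      have i2 : Integrable (fun p => ε₁ * W p) μ := (integrable_cont W).const_mul _
      have hint : ∫ p, ((-lam / 5) * (-ε - G p) - ε₁ * W p) ∂μ ≤ ∫ p, X p ∂μ :=
        integral_mono (i1.sub i2) (integrable_cont X) hpt
      rw [integral_sub i1 i2, integral_const_mul, integral_const_mul,
        integral_sub (integrable_const _) (integrable_cont G), integral_const, hX0,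
        smul_eq_mul] at hint
      linarith
    have hW0 : 0 ≤ ∫ p, W p ∂μ := by
      refine integral_nonneg fun p => ?_
      simp only [hW, ContinuousMap.coe_sum, Finset.sum_apply, ContinuousMap.coe_pow, Pi.pow_apply]
      positivity
    have h3 : (-lam / 5) * (-ε * μ.real Set.univ - ∫ p, G p ∂μ) ≤ 0 := by
      refine le_of_forall_pos_lt_add fun δ hδ => ?_
      have := key2 (δ / (2 * ((∫ p, W p ∂μ) + 1))) (by positivity)
      have h5 : δ / (2 * ((∫ p, W p ∂μ) + 1)) * ∫ p, W p ∂μ < δ := by
        rw [div_mul_eq_mul_div, div_lt_iff₀ (by positivity)]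
        nlinarith
      linarith
    nlinarith
  have hμ : 0 ≤ μ.real Set.univ := measureReal_nonneg
  refine le_of_forall_pos_lt_add fun δ hδ => ?_
  have := key (δ / (2 * (μ.real Set.univ + 1))) (by positivity)
  have h5 : δ / (2 * (μ.real Set.univ + 1)) * μ.real Set.univ < δ := by
    rw [div_mul_eq_mul_div, div_lt_iff₀ (by positivity)]
    nlinarith
  linarith

/-- The defect is nonnegative. -/
theorem Cls.defect_nonneg {R : T6} (h : Cls R) : 0 ≤ defect R := by
  obtain ⟨g, hg, hs⟩ := exists_eq_defect R
  rw [← hs]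
  exact (h.rot hg).dfr_nonneg

theorem rot_smul' (c : ℝ) (g : M6) (R : T6) (i j k l : Fin 6) :
    rot g (fun i j k l => c * R i j k l) i j k l = c * rot g R i j k l := by
  simp only [rot, mul_sum]
  refine sum_congr rfl fun _ _ => sum_congr rfl fun _ _ => sum_congr rfl fun _ _ =>
    sum_congr rfl fun _ _ => ?_
  ring

/-- **Closed Einstein six-manifolds of nonpositive sectional curvature.** The integral of the
Gauss-Bonnet-Chern integrand is nonpositive; if it vanishes then at almost every frame the curvature
tensor is, up to a rotation, that of a product of two hyperbolic three-spaces (or zero). -/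
theorem main {μ : Measure P} [IsFiniteMeasure μ] (F : FrameBundle 6 P μ) (lam : ℝ)
    (hE : ∀ p i k, ∑ j, F.curv p i j k j = if i = k then lam else 0)
    (hK : ∀ p, ∀ x y : Fin 6 → ℝ,
      ∑ i, ∑ j, ∑ k, ∑ l, F.curv p i j k l * x i * y j * x k * y l ≤ 0) :
    ∫ p, HopfSix.gaussBonnet (F.curv p) ∂μ ≤ 0 ∧
      (∫ p, HopfSix.gaussBonnet (F.curv p) ∂μ = 0 → ∀ᵐ p ∂μ, ∃ g : M6, gᵀ * g = 1 ∧
        rot g (F.curv p) = prodTensor (lam / 2)) := by
  rcases isEmpty_or_nonempty P with hP | ⟨⟨p₀⟩⟩
  · exact ⟨integral_nonpos fun p => (hP.false p).elim,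
      fun _ => Filter.Eventually.of_forall fun p => (hP.false p).elim⟩
  have halg : ∀ p, HopfSix.IsAlgCurv (F.curv p) := F.isAlgCurv
  have hric : ∀ p i, ∑ j, F.curv p i j i j = lam := fun p i => by simpa using hE p i i
  have hlam : lam ≤ 0 := by
    rw [← hric p₀ 0]
    refine sum_nonpos fun j _ => ?_
    have := hK p₀ (Pi.single 0 1) (Pi.single j 1)
    rw [← form4, form4_single] at this
    exact this
  rcases hlam.lt_or_eq with hlam | rfl
  · have hc : 0 < 5 / -lam := by
      have : 0 < -lam := by linarith
      positivity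
    have hEA : ∀ i k, ∑ j, F.cartan.R i j k j = algebraMap ℝ F.A (if i = k then lam else 0) := by
      intro i k
      apply Subtype.ext
      ext p
      have := hE p i k
      simp only [FrameBundle.curv] at this
      simp only [AddSubmonoidClass.coe_finsetSum, ContinuousMap.coe_sum, Finset.sum_apply]
      rw [this]
      split_ifs <;> simp
    have hcls : ∀ p, Cls (fun i j k l => -(5 / -lam) * F.curv p i j k l) := by
      intro p
      refine ⟨⟨?_, ?_, ?_⟩, ?_, ?_⟩
      · intro i j k l
        rw [(halg p).skew i j k l]; ring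
      · intro i j k l
        rw [(halg p).pair i j k l]
      · intro i j k l
        have := (halg p).bianchi i j k l
        linear_combination (-(5 / -lam)) * this
      · intro i k
        rw [ric, ← mul_sum, hE p i k]
        have : lam ≠ 0 := hlam.ne
        split_ifs
        · field_simp
        · simp
      · intro x y
        have := hK p x y
        have e : ∑ i, ∑ j, ∑ k, ∑ l, -(5 / -lam) * F.curv p i j k l * x i * y j * x k * y l =
            -(5 / -lam) * ∑ i, ∑ j, ∑ k, ∑ l, F.curv p i j k l * x i * y j * x k * y l := by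
          simp only [mul_sum]
          refine sum_congr rfl fun i _ => sum_congr rfl fun j _ => sum_congr rfl fun k _ =>
            sum_congr rfl fun l _ => ?_
          ring
        rw [e]
        nlinarith
    have hcont : ∀ i j k l, Continuous fun p => F.curv p i j k l := fun i j k l =>
      (F.cartan.R i j k l : C(P, ℝ)).continuous
    have hcontS : Continuous fun p => (fun i j k l => -(5 / -lam) * F.curv p i j k l : T6) :=
      continuous_pi fun i => continuous_pi fun j => continuous_pi fun k => continuous_pi fun l =>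
        continuous_const.mul (hcont i j k l)
    have hcontg : Continuous fun p =>
        HopfSix.gaussBonnet (fun i j k l => -(5 / -lam) * F.curv p i j k l) := by
      unfold HopfSix.gaussBonnet
      fun_prop
    have hconts : Continuous fun p =>
        defect (fun i j k l => -(5 / -lam) * F.curv p i j k l) :=
      continuous_defect.comp hcontS
    have hcontG : Continuous fun p =>
        HopfSix.gaussBonnet (fun i j k l => -(5 / -lam) * F.curv p i j k l) -
          defect (fun i j k l => -(5 / -lam) * F.curv p i j k l) :=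
      hcontg.sub hconts
    have h1 := integral_gb_nonneg F hlam hEA hcls ⟨_, hcontG⟩ (fun p => rfl)
    simp only [ContinuousMap.coe_mk] at h1
    have i1 := integrable_cont (μ := μ) ⟨_, hcontg⟩
    have i2 := integrable_cont (μ := μ) ⟨_, hconts⟩
    simp only [ContinuousMap.coe_mk] at i1 i2
    rw [integral_sub i1 i2] at h1
    simp_rw [gb_smul] at h1
    rw [integral_const_mul] at h1
    have h2 : (-(5 / -lam)) ^ 3 < 0 := by
      have : (-(5 / -lam)) ^ 3 = -(5 / -lam) ^ 3 := by ring
      rw [this]
      have : 0 < (5 / -lam) ^ 3 := by positivity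
      linarith
    have h3 : 0 ≤ ∫ p, defect (fun i j k l => -(5 / -lam) * F.curv p i j k l) ∂μ :=
      integral_nonneg fun p => (hcls p).defect_nonneg
    refine ⟨by nlinarith, fun h0 => ?_⟩
    rw [h0, mul_zero, zero_sub] at h1
    have h4 : ∫ p, defect (fun i j k l => -(5 / -lam) * F.curv p i j k l) ∂μ = 0 := by
      linarith
    rw [integral_eq_zero_iff_of_nonneg (fun p => (hcls p).defect_nonneg) i2] at h4
    filter_upwards [h4] with p hp
    obtain ⟨g, hg, hs⟩ := exists_eq_defect (fun i j k l => -(5 / -lam) * F.curv p i j k l)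
    refine ⟨g, hg, ?_⟩
    have h5 : dfr (rot g (fun i j k l => -(5 / -lam) * F.curv p i j k l)) = 0 := by
      rw [hs]
      exact hp
    have h6 := ((hcls p).rot hg).dfr_zero h5
    funext i j k l
    have h7 := congrFun (congrFun (congrFun (congrFun h6 i) j) k) l
    rw [rot_smul'] at h7
    have hne : lam ≠ 0 := hlam.ne
    have h8 : rot g (F.curv p) i j k l = (lam / 5) * prodTensor (5 / 2) i j k l := by
      rw [← h7]
      field_simp
    rw [h8]
    simp only [prodTensor]
    split_ifs <;> ring
  · have hz : ∀ p, F.curv p = fun _ _ _ _ => 0 := fun p => ricci_flat (halg p) (hric p) (hK p)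
    refine ⟨?_, fun _ => Filter.Eventually.of_forall fun p => ⟨1, by simp, ?_⟩⟩
    · simp_rw [hz, gb_zero]
      simp
    · rw [hz]
      funext i j k l
      simp [rot, prodTensor]

theorem form4_eq_zero {R : T6} (h : HopfSix.IsAlgCurv R) (y z w : Fin 6 → ℝ) :
    form4 R y y z w = 0 := by
  have h1 : form4 R y y z w = -form4 R y y z w := by
    conv_lhs => rw [form4, sum_comm]
    simp only [form4, ← sum_neg_distrib]
    refine sum_congr rfl fun i _ => sum_congr rfl fun j _ => sum_congr rfl fun k _ =>
      sum_congr rfl fun l _ => ?_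
    rw [h.skew j i k l]
    ring
  linarith

theorem form4_smul (R : T6) (c d : ℝ) (x y : Fin 6 → ℝ) :
    form4 R (c • x) (d • y) (c • x) (d • y) = (c * d) ^ 2 * form4 R x y x y := by
  simp only [form4, mul_sum, Pi.smul_apply, smul_eq_mul]
  refine sum_congr rfl fun i _ => sum_congr rfl fun j _ => sum_congr rfl fun k _ =>
    sum_congr rfl fun l _ => ?_
  ring

theorem form4_nonpos {R : T6} (h : HopfSix.IsAlgCurv R)
    (hK : ∀ x y : Fin 6 → ℝ, LinearIndependent ℝ ![x, y] → form4 R x y x y < 0)
    (x y : Fin 6 → ℝ) : form4 R x y x y ≤ 0 := by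
  by_cases hl : LinearIndependent ℝ ![x, y]
  · exact (hK x y hl).le
  · rw [LinearIndependent.pair_iff] at hl
    push Not at hl
    obtain ⟨s, t, hst, hne⟩ := hl
    have h0 : ∀ y : Fin 6 → ℝ, form4 R y y y y = 0 := fun y => form4_eq_zero h y y y
    by_cases hs : s = 0
    · have ht := hne hs
      have hy : y = (0 : ℝ) • x := by
        rw [hs, zero_smul, zero_add] at hst
        rw [zero_smul]
        exact (smul_eq_zero.1 hst).resolve_left ht
      have h1 := form4_smul R 1 0 x x
      rw [one_smul, ← hy, h0] at h1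
      rw [h1]
      simp
    · have hx : x = (-(t / s)) • y := by
        have h2 : s • x = -(t • y) := eq_neg_of_add_eq_zero_left hst
        have h3 : x = s⁻¹ • (s • x) := by rw [smul_smul, inv_mul_cancel₀ hs, one_smul]
        rw [h3, h2, smul_neg, smul_smul, neg_smul]
        congr 2
        field_simp
      have h1 := form4_smul R (-(t / s)) 1 y y
      rw [one_smul, ← hx, h0] at h1
      rw [h1]
      simp

theorem rot_eq_form4 (g : M6) (R : T6) (i j k l : Fin 6) :
    rot g R i j k l = form4 R (fun a => g a i) (fun a => g a j) (fun a => g a k)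
      (fun a => g a l) := by
  simp only [rot, form4]
  refine sum_congr rfl fun _ _ => sum_congr rfl fun _ _ => sum_congr rfl fun _ _ =>
    sum_congr rfl fun _ _ => ?_
  ring

theorem linInd_cols {g : M6} (hg : gᵀ * g = 1) :
    LinearIndependent ℝ ![(fun a => g a 0 : Fin 6 → ℝ), fun a => g a 3] := by
  have h1 : ∀ i j, ∑ m, g m i * g m j = if i = j then 1 else 0 := (orth_iff g).1 hg
  rw [LinearIndependent.pair_iff]
  intro s t hst
  have h2 : ∀ a, s * g a 0 + t * g a 3 = 0 := fun a => by
    have := congrFun hst a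
    simpa using this
  constructor
  · have : ∑ a, (s * g a 0 + t * g a 3) * g a 0 = 0 := sum_eq_zero fun a _ => by rw [h2, zero_mul]
    have e : ∑ a, (s * g a 0 + t * g a 3) * g a 0 =
        s * ∑ a, g a 0 * g a 0 + t * ∑ a, g a 3 * g a 0 := by
      rw [mul_sum, mul_sum, ← sum_add_distrib]
      exact sum_congr rfl fun a _ => by ring
    rw [e, h1, h1] at this
    simpa using this
  · have : ∑ a, (s * g a 0 + t * g a 3) * g a 3 = 0 := sum_eq_zero fun a _ => by rw [h2, zero_mul]
    have e : ∑ a, (s * g a 0 + t * g a 3) * g a 3 =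
        s * ∑ a, g a 0 * g a 3 + t * ∑ a, g a 3 * g a 3 := by
      rw [mul_sum, mul_sum, ← sum_add_distrib]
      exact sum_congr rfl fun a _ => by ring
    rw [e, h1, h1] at this
    simpa using this

/-- Strict version for negative sectional curvature. -/
theorem main_neg {μ : Measure P} [IsFiniteMeasure μ] (F : FrameBundle 6 P μ) (lam : ℝ)
    (hE : ∀ p i k, ∑ j, F.curv p i j k j = if i = k then lam else 0)
    (hK : ∀ p, ∀ x y : Fin 6 → ℝ, LinearIndependent ℝ ![x, y] →
      ∑ i, ∑ j, ∑ k, ∑ l, F.curv p i j k l * x i * y j * x k * y l < 0)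
    (hμ : μ ≠ 0) : ∫ p, HopfSix.gaussBonnet (F.curv p) ∂μ < 0 := by
  have hm := main F lam hE fun p x y => form4_nonpos (F.isAlgCurv p) (hK p) x y
  refine lt_of_le_of_ne hm.1 fun h0 => ?_
  have h1 := hm.2 h0
  have : (ae μ).NeBot := ae_neBot.2 hμ
  obtain ⟨p, g, hg, hp⟩ := h1.exists
  have h2 : rot g (F.curv p) 0 3 0 3 = 0 := by
    rw [hp]
    have h3 : ¬ ((0 : Fin 6) < 3 ↔ (3 : Fin 6) < 3) := by decide
    simp only [prodTensor, if_neg h3]
  rw [rot_eq_form4] at h2
  exact (hK p _ _ (linInd_cols hg)).ne h2

end EinsteinSix
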