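import Pool.Agent.Lib.EinsteinSix.ApGeo

/-!
# Symmetries of the reaction term
-/

set_option autoImplicit false

namespace EinsteinSix

open Finset Matrix H91.Split

/-! ### Symmetries -/

theorem quad_skew {R : T6} (hs : ∀ i j k l, R i j k l = -R j i k l) (i j k l : Fin 6) :
    quad R i j k l = -quad R j i k l := by
  simp only [quad, ← sum_neg_distrib]
  refine sum_congr rfl fun p _ => sum_congr rfl fun q _ => ?_
  rw [hs j i p q]
  ring

theorem quad_pair {R : T6} (hp : ∀ i j k l, R i j k l = R k l i j) (i j k l : Fin 6) :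
    quad R i j k l = quad R k l i j := by
  have e : ∀ i j k l : Fin 6, quad R i j k l = ∑ p, ∑ q, R i j p q * R k l p q +
      2 * ∑ p, ∑ q, R i p k q * R j p l q - 2 * ∑ p, ∑ q, R i p l q * R j p k q := by
    intro i j k l
    simp only [quad, mul_sum, ← sum_add_distrib, ← sum_sub_distrib]
    exact sum_congr rfl fun p _ => sum_congr rfl fun q _ => by ring
  rw [e, e]
  have h1 : ∑ p, ∑ q, R i j p q * R k l p q = ∑ p, ∑ q, R k l p q * R i j p q :=
    sum_congr rfl fun p _ => sum_congr rfl fun q _ => by ring
  have h2 : ∑ p, ∑ q, R i p k q * R j p l q = ∑ p, ∑ q, R k p i q * R l p j q := by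
    rw [sum_comm]
    exact sum_congr rfl fun p _ => sum_congr rfl fun q _ => by rw [hp i q k p, hp j q l p]
  have h3 : ∑ p, ∑ q, R i p l q * R j p k q = ∑ p, ∑ q, R k p j q * R l p i q := by
    rw [sum_comm]
    exact sum_congr rfl fun p _ => sum_congr rfl fun q _ => by
      rw [hp i q l p, hp j q k p]; ring
  rw [h1, h2, h3]

theorem react_skew {R : T6} (hs : ∀ i j k l, R i j k l = -R j i k l) (i j k l : Fin 6) :
    react R i j k l = -react R j i k l := by
  simp only [react]
  rw [quad_skew hs, hs i j k l]
  ring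

theorem react_pair {R : T6} (hp : ∀ i j k l, R i j k l = R k l i j) (i j k l : Fin 6) :
    react R i j k l = react R k l i j := by
  simp only [react]
  rw [quad_pair hp, hp i j k l]

end EinsteinSix
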