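import Pool.Agent.Lib.EinsteinSix.ApGeo

/-!
# The equality case: lower bound of the reaction term (R1)

`ell_quad` is the exact expression of `ell (quad R)` as squares plus three blocks `Λ² A × Λ² B`;
`react_lower` follows from `K >= 0` (see `Rigid.lean` for the proof in words).
-/

set_option autoImplicit false

namespace EinsteinSix

open Finset Matrix H91.Split

/-- Square norm of the mixed part `Λ² A → Λ² B`. -/
def nsq (R : T6) : ℝ :=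
  R 0 1 3 4 ^ 2 + R 0 1 3 5 ^ 2 + R 0 1 4 5 ^ 2 + (R 0 2 3 4 ^ 2 + R 0 2 3 5 ^ 2 + R 0 2 4 5 ^ 2) +
    (R 1 2 3 4 ^ 2 + R 1 2 3 5 ^ 2 + R 1 2 4 5 ^ 2)

/-- The `BB` block of a pair `(i,j)`. -/
noncomputable def bbl (R : T6) (i j : Fin 6) : ℝ :=
  3 * (R i j 3 4 ^ 2 + R i j 3 5 ^ 2 + R i j 4 5 ^ 2)
  + 2 * (R i 3 i 3 * R j 3 j 3 + R i 4 i 4 * R j 4 j 4 + R i 5 i 5 * R j 5 j 5
    + 2 * (R i 3 i 4 * R j 3 j 4) + 2 * (R i 3 i 5 * R j 3 j 5) + 2 * (R i 4 i 5 * R j 4 j 5))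
  - 2 * (R i 3 j 3 ^ 2 + R i 4 j 4 ^ 2 + R i 5 j 5 ^ 2
    + 2 * ((R i 3 j 4 + R i 4 j 3) / 2) ^ 2 + 2 * ((R i 3 j 5 + R i 5 j 3) / 2) ^ 2
    + 2 * ((R i 4 j 5 + R i 5 j 4) / 2) ^ 2)

/-- The mixed block with one index `b`. -/
def mbl (R : T6) (b : Fin 6) : ℝ :=
  2 * ((R 0 2 0 b + R 1 2 1 b) ^ 2 + (R 0 1 0 b - R 1 2 2 b) ^ 2 + (R 0 1 1 b + R 0 2 2 b) ^ 2)

theorem ell_quad {R : T6} (h : HopfSix.IsAlgCurv R) :
    ell (quad R) = R 0 1 0 1 ^ 2 + R 0 2 0 2 ^ 2 + R 1 2 1 2 ^ 2 + ell R ^ 2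
      + 2 * (R 0 2 1 2 ^ 2 + R 0 1 1 2 ^ 2 + R 0 1 0 2 ^ 2)
      + (mbl R 3 + mbl R 4 + mbl R 5) + (bbl R 0 1 + bbl R 0 2 + bbl R 1 2) := by
  have hz1 : ∀ i k l, R i i k l = 0 := fun i k l => by linarith [h.skew i i k l]
  have hz2 : ∀ i j k, R i j k k = 0 := fun i j k => by rw [h.pair, hz1]
  have hs1 : ∀ i j k l, j < i → R i j k l = -R j i k l := fun i j k l _ => h.skew i j k l
  have hs2 : ∀ i j k l, l < k → R i j k l = -R i j l k := fun i j k l _ => by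
    rw [h.pair i j k l, h.skew k l i j, h.pair l k i j]
  have hp : ∀ i j k l, (k < i ∨ (k = i ∧ l < j)) → R i j k l = R k l i j := fun i j k l _ => h.pair i j k l
  have B := h.bianchi
  have b3 := B 0 1 2 3
  have b4 := B 0 1 2 4
  have b5 := B 0 1 2 5
  have c1 := B 0 1 3 4
  have c2 := B 0 1 3 5
  have c3 := B 0 1 4 5
  have c4 := B 0 2 3 4
  have c5 := B 0 2 3 5
  have c6 := B 0 2 4 5
  have c7 := B 1 2 3 4
  have c8 := B 1 2 3 5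
  have c9 := B 1 2 4 5
  simp only [ell, quad, Fin.sum_univ_six, mbl, bbl]
  simp (disch := decide) only [hz1, hz2, hs1, hs2, hp] at b3 b4 b5 c1 c2 c3 c4 c5 c6 c7 c8 c9 ⊢
  linear_combination 2 * (R 0 1 2 3 + R 0 3 1 2 - R 0 2 1 3) * b3
    + 2 * (R 0 1 2 4 + R 0 4 1 2 - R 0 2 1 4) * b4
    + 2 * (R 0 1 2 5 + R 0 5 1 2 - R 0 2 1 5) * b5
    + (R 0 3 1 4 - R 0 4 1 3 + R 0 1 3 4) * (-c1)
    + (R 0 3 1 5 - R 0 5 1 3 + R 0 1 3 5) * (-c2)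
    + (R 0 4 1 5 - R 0 5 1 4 + R 0 1 4 5) * (-c3)
    + (R 0 3 2 4 - R 0 4 2 3 + R 0 2 3 4) * (-c4)
    + (R 0 3 2 5 - R 0 5 2 3 + R 0 2 3 5) * (-c5)
    + (R 0 4 2 5 - R 0 5 2 4 + R 0 2 4 5) * (-c6)
    + (R 1 3 2 4 - R 1 4 2 3 + R 1 2 3 4) * (-c7)
    + (R 1 3 2 5 - R 1 5 2 3 + R 1 2 3 5) * (-c8)
    + (R 1 4 2 5 - R 1 5 2 4 + R 1 2 4 5) * (-c9)


theorem sec_four {R : T6} (h : SecNonneg R) (i j b c : Fin 6) (s t : ℝ) :
    0 ≤ (R i b i b + t * (R i b i c + R i c i b) + t ^ 2 * R i c i c)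
      + s * (R i b j b + R j b i b + t * (R i b j c + R i c j b + R j b i c + R j c i b)
        + t ^ 2 * (R i c j c + R j c i c))
      + s ^ 2 * (R j b j b + t * (R j b j c + R j c j b) + t ^ 2 * R j c j c) := by
  have e := h (fun a => (if a = i then 1 else 0) + s * (if a = j then 1 else 0))
    (fun a => (if a = b then 1 else 0) + t * (if a = c then 1 else 0))
  simp only [mul_add, add_mul, sum_add_distrib, mul_ite, ite_mul, mul_one, mul_zero, one_mul,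
    zero_mul, sum_ite_eq', mem_univ, if_true, sum_ite_eq] at e
  convert e using 1
  ring

theorem pos_diag {R : T6} (h : SecNonneg R) (i b : Fin 6) : 0 ≤ R i b i b := by
  have := sec_four h i i b b 0 0
  nlinarith

theorem p_bound {R : T6} (ha : HopfSix.IsAlgCurv R) (h : SecNonneg R) (i b c : Fin 6) :
    |R i b i c| ≤ (R i b i b + R i c i c) / 2 := by
  have h1 := sec_four h i i b c 0 1
  have h2 := sec_four h i i b c 0 (-1)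
  have h3 := ha.pair i b i c
  rw [abs_le]
  constructor <;> nlinarith

theorem m_bound {R : T6} (ha : HopfSix.IsAlgCurv R) (h : SecNonneg R) (i j b c : Fin 6) :
    |(R i b j c + R i c j b) / 2| ≤ (R i b i b + R i c i c + R j b j b + R j c j c) / 4 := by
  have h1 := sec_four h i j b c 1 1
  have h2 := sec_four h i j b c 1 (-1)
  have h3 := sec_four h i j b c (-1) 1
  have h4 := sec_four h i j b c (-1) (-1)
  have e1 := ha.pair i b j c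
  have e2 := ha.pair i c j b
  have e3 := ha.pair i b i c
  have e4 := ha.pair j b j c
  have e5 := ha.pair i b j b
  have e6 := ha.pair i c j c
  rw [abs_le]
  constructor <;> nlinarith

theorem block_ineq (p3 p4 p5 p34 p35 p45 q3 q4 q5 q34 q35 q45 m3 m4 m5 m34 m35 m45 : ℝ)
    (hp3 : 0 ≤ p3) (hp4 : 0 ≤ p4) (hp5 : 0 ≤ p5) (hq3 : 0 ≤ q3) (hq4 : 0 ≤ q4) (hq5 : 0 ≤ q5)
    (h1 : |p34| ≤ (p3 + p4) / 2) (h2 : |p35| ≤ (p3 + p5) / 2) (h3 : |p45| ≤ (p4 + p5) / 2)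
    (k1 : |q34| ≤ (q3 + q4) / 2) (k2 : |q35| ≤ (q3 + q5) / 2) (k3 : |q45| ≤ (q4 + q5) / 2)
    (l1 : |m3| ≤ (p3 + q3) / 2) (l2 : |m4| ≤ (p4 + q4) / 2) (l3 : |m5| ≤ (p5 + q5) / 2)
    (n1 : |m34| ≤ (p3 + p4 + q3 + q4) / 4) (n2 : |m35| ≤ (p3 + p5 + q3 + q5) / 4)
    (n3 : |m45| ≤ (p4 + p5 + q4 + q5) / 4) :
    -((p3 + p4 + p5) + (q3 + q4 + q5)) ^ 2 - (p3 + p4 + p5) * (q3 + q4 + q5) ≤
      2 * (p3 * q3 + p4 * q4 + p5 * q5 + 2 * (p34 * q34) + 2 * (p35 * q35) + 2 * (p45 * q45))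
      - 2 * (m3 ^ 2 + m4 ^ 2 + m5 ^ 2 + 2 * m34 ^ 2 + 2 * m35 ^ 2 + 2 * m45 ^ 2) := by
  have sq : ∀ x y : ℝ, |x| ≤ y → x ^ 2 ≤ y ^ 2 := fun x y hxy =>
    sq_le_sq' (by linarith [neg_abs_le x]) (le_trans (le_abs_self x) hxy)
  have pr : ∀ x y u v : ℝ, |x| ≤ u → |y| ≤ v → -(u * v) ≤ x * y := fun x y u v hx hy => by
    have h0 : |x * y| ≤ u * v := by
      rw [abs_mul]; exact mul_le_mul hx hy (abs_nonneg _) ((abs_nonneg _).trans hx)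
    linarith [neg_abs_le (x * y)]
  have a1 := pr _ _ _ _ h1 k1
  have a2 := pr _ _ _ _ h2 k2
  have a3 := pr _ _ _ _ h3 k3
  have b1 := sq _ _ l1
  have b2 := sq _ _ l2
  have b3 := sq _ _ l3
  have d1 := sq _ _ n1
  have d2 := sq _ _ n2
  have d3 := sq _ _ n3
  have e1 := mul_nonneg hp3 hq3
  have e2 := mul_nonneg hp4 hq4
  have e3 := mul_nonneg hp5 hq5
  have f1 := mul_nonneg (add_nonneg hp3 hq3) (add_nonneg hp4 hq4)
  have f2 := mul_nonneg (add_nonneg hp3 hq3) (add_nonneg hp5 hq5)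
  have f3 := mul_nonneg (add_nonneg hp4 hq4) (add_nonneg hp5 hq5)
  nlinarith

theorem bbl_lower {R : T6} (ha : HopfSix.IsAlgCurv R) (h : SecNonneg R) (i j : Fin 6) :
    3 * (R i j 3 4 ^ 2 + R i j 3 5 ^ 2 + R i j 4 5 ^ 2)
      - ((R i 3 i 3 + R i 4 i 4 + R i 5 i 5) + (R j 3 j 3 + R j 4 j 4 + R j 5 j 5)) ^ 2
      - (R i 3 i 3 + R i 4 i 4 + R i 5 i 5) * (R j 3 j 3 + R j 4 j 4 + R j 5 j 5) ≤ bbl R i j := by
  have hm : ∀ b, |R i b j b| ≤ (R i b i b + R j b j b) / 2 := fun b => by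
    have := m_bound ha h i j b b
    have e1 : (R i b j b + R i b j b) / 2 = R i b j b := by ring
    have e2 : (R i b i b + R i b i b + R j b j b + R j b j b) / 4 = (R i b i b + R j b j b) / 2 := by ring
    rwa [e1, e2] at this
  have := block_ineq (R i 3 i 3) (R i 4 i 4) (R i 5 i 5) (R i 3 i 4) (R i 3 i 5) (R i 4 i 5)
    (R j 3 j 3) (R j 4 j 4) (R j 5 j 5) (R j 3 j 4) (R j 3 j 5) (R j 4 j 5)
    (R i 3 j 3) (R i 4 j 4) (R i 5 j 5) ((R i 3 j 4 + R i 4 j 3) / 2) ((R i 3 j 5 + R i 5 j 3) / 2)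
    ((R i 4 j 5 + R i 5 j 4) / 2)
    (pos_diag h _ _) (pos_diag h _ _) (pos_diag h _ _) (pos_diag h _ _) (pos_diag h _ _) (pos_diag h _ _)
    (p_bound ha h _ _ _) (p_bound ha h _ _ _) (p_bound ha h _ _ _)
    (p_bound ha h _ _ _) (p_bound ha h _ _ _) (p_bound ha h _ _ _)
    (hm 3) (hm 4) (hm 5) (m_bound ha h _ _ _ _) (m_bound ha h _ _ _ _) (m_bound ha h _ _ _ _)
  unfold bbl
  linarith

theorem react_lower {R : T6} (h : Cls R) (h1 : 15 - 2 * ell R ≤ 1) :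
    3 * nsq R - 7 * (15 - 2 * ell R) ≤ ell (react R) := by
  have hz1 : ∀ i k l, R i i k l = 0 := fun i k l => by linarith [h.alg.skew i i k l]
  have hd : ∀ i j, R i j i j = R j i j i := fun i j => by
    rw [h.alg.skew i j i j, h.alg.pair j i i j, h.alg.skew i j j i]; ring
  have e0 : R 0 1 0 1 + R 0 2 0 2 + R 0 3 0 3 + R 0 4 0 4 + R 0 5 0 5 = 5 := by
    have := h.ein 0 0
    simp only [ric, Fin.sum_univ_six, hz1, if_true] at this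
    linarith
  have e1 : R 0 1 0 1 + R 1 2 1 2 + R 1 3 1 3 + R 1 4 1 4 + R 1 5 1 5 = 5 := by
    have := h.ein 1 1
    simp only [ric, Fin.sum_univ_six, hz1, if_true] at this
    rw [hd 0 1]
    linarith
  have e2 : R 0 2 0 2 + R 1 2 1 2 + R 2 3 2 3 + R 2 4 2 4 + R 2 5 2 5 = 5 := by
    have := h.ein 2 2
    simp only [ric, Fin.sum_univ_six, hz1, if_true] at this
    rw [hd 0 2, hd 1 2]
    linarith
  have q := ell_quad h.alg
  have g1 := bbl_lower h.alg h.sec 0 1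
  have g2 := bbl_lower h.alg h.sec 0 2
  have g3 := bbl_lower h.alg h.sec 1 2
  have m3 : 0 ≤ mbl R 3 := by unfold mbl; positivity
  have m4 : 0 ≤ mbl R 4 := by unfold mbl; positivity
  have m5 : 0 ≤ mbl R 5 := by unfold mbl; positivity
  have er : ell (react R) = ell (quad R) - 10 * ell R := by simp only [ell, react]; ring
  have hn : nsq R = R 0 1 3 4 ^ 2 + R 0 1 3 5 ^ 2 + R 0 1 4 5 ^ 2 + (R 0 2 3 4 ^ 2 + R 0 2 3 5 ^ 2 + R 0 2 4 5 ^ 2) +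
    (R 1 2 3 4 ^ 2 + R 1 2 3 5 ^ 2 + R 1 2 4 5 ^ 2) := rfl
  have he : ell R = R 0 1 0 1 + R 0 2 0 2 + R 1 2 1 2 := rfl
  have t0 : 0 ≤ R 0 3 0 3 + R 0 4 0 4 + R 0 5 0 5 := by
    linarith [pos_diag h.sec 0 3, pos_diag h.sec 0 4, pos_diag h.sec 0 5]
  have t1 : 0 ≤ R 1 3 1 3 + R 1 4 1 4 + R 1 5 1 5 := by
    linarith [pos_diag h.sec 1 3, pos_diag h.sec 1 4, pos_diag h.sec 1 5]
  have t2 : 0 ≤ R 2 3 2 3 + R 2 4 2 4 + R 2 5 2 5 := by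
    linarith [pos_diag h.sec 2 3, pos_diag h.sec 2 4, pos_diag h.sec 2 5]
  rw [er, q, hn]
  generalize hu0 : R 0 3 0 3 + R 0 4 0 4 + R 0 5 0 5 = u0 at *
  generalize hu1 : R 1 3 1 3 + R 1 4 1 4 + R 1 5 1 5 = u1 at *
  generalize hu2 : R 2 3 2 3 + R 2 4 2 4 + R 2 5 2 5 = u2 at *
  have hu : 15 - 2 * ell R = u0 + u1 + u2 := by
    rw [he]; linarith
  have k1 : (ell R) ^ 2 / 3 ≤ R 0 1 0 1 ^ 2 + R 0 2 0 2 ^ 2 + R 1 2 1 2 ^ 2 := by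
    rw [he]
    nlinarith [sq_nonneg (R 0 1 0 1 - R 0 2 0 2), sq_nonneg (R 0 1 0 1 - R 1 2 1 2),
      sq_nonneg (R 0 2 0 2 - R 1 2 1 2)]
  have s1 : 0 ≤ R 0 2 1 2 ^ 2 + R 0 1 1 2 ^ 2 + R 0 1 0 2 ^ 2 := by positivity
  have hell : ell R = (15 - (u0 + u1 + u2)) / 2 := by linarith
  have k2 : -(5 * (u0 + u1 + u2)) ≤ 4 / 3 * (ell R) ^ 2 - 10 * ell R := by
    rw [hell]
    nlinarith
  have k3 : 0 ≤ u0 * u1 := mul_nonneg t0 t1
  have k4 : 0 ≤ u0 * u2 := mul_nonneg t0 t2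
  have k5 : 0 ≤ u1 * u2 := mul_nonneg t1 t2
  have k6 : (u0 + u1 + u2) * (u0 + u1 + u2) ≤ u0 + u1 + u2 := by
    rw [hu] at h1
    nlinarith
  rw [hu]
  nlinarith

end EinsteinSix
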