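import Pool.Agent.Lib.H87.HopfKC.Cert.GenSum
import Pool.Agent.Lib.EinsteinSix.Geo

/-!
# Terms with real entries: table check for the rows, sectional curvature terms
-/

set_option autoImplicit false

open Finset H91.Split HopfKC HopfKC.Gs

namespace EinsteinSix

/-- Coefficient sum of a linear form given by a list. -/
noncomputable def cfl (l : List (ℕ × ℤ)) (k : ℕ) : ℤ :=
  lsum l fun e => bif Nat.beq e.1 k then e.2 else .ofNat 0

/-- Check of packed rows against a matrix of linear forms. -/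
noncomputable def ckL (n : ℕ) (r : ℕ → ℕ) (L : ℕ → ℕ → List (ℕ × ℤ)) : Bool :=
  (List.range n).all fun b => (List.range n).all fun d =>
    ((L b d).all fun e => Nat.blt e.1 76) &&
    I76.all fun k => isz (Int.sub (reA (av (r k) b d)) (cfl (L b d) k)) &&
      isz (imA (av (r k) b d))

/-- Check of a packed matrix with real entries and row indices below `n`. -/
noncomputable def ckW (n W : ℕ) : Bool :=
  I76.all fun i => (en (col W i)).all fun e => Nat.blt e.1 n && isz e.2.2

theorem ckW_lt {n W : ℕ} (h : ckW n W = true) : ∀ i < 76, ∀ e ∈ en (col W i), e.1 < n := by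
  intro i hi e he
  have h1 := List.all_eq_true.1 (List.all_eq_true.1 h i (I76_mem i hi)) e he
  rw [Bool.and_eq_true] at h1
  exact Nat.le_of_ble_eq_true h1.1

theorem ckW_im {n W : ℕ} (h : ckW n W = true) : ∀ i < 76, ∀ e ∈ en (col W i), e.2.2 = 0 := by
  intro i hi e he
  have h1 := List.all_eq_true.1 (List.all_eq_true.1 h i (I76_mem i hi)) e he
  rw [Bool.and_eq_true] at h1
  exact (isz_iff _).1 h1.2

theorem lev_cfl (v : ℕ → ℝ) (l : List (ℕ × ℤ)) (hl : ∀ e ∈ l, e.1 < 76) :
    lev v l = ∑ k ∈ range 76, (cfl l k : ℝ) * v k := by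
  induction l with
  | nil => simp [lev, cfl, lsum_nil]
  | cons a l ih =>
    have h1 := ih (fun e he => hl e (List.mem_cons_of_mem _ he))
    have ha := hl a List.mem_cons_self
    rw [lev_cons, h1]
    have h2 : ∀ k, ((cfl (a :: l) k : ℤ) : ℝ) * v k =
        (if a.1 = k then (a.2 : ℝ) * v k else 0) + (cfl l k : ℝ) * v k := by
      intro k
      unfold cfl
      rw [lsum_cons]
      by_cases hk : a.1 = k
      · have hb : Nat.beq a.1 k = true := (beq_iff _ _).2 hk
        rw [hb, if_pos hk]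
        simp only [cond_true]
        push_cast
        ring
      · have hb : Nat.beq a.1 k = false := by
          rw [← Bool.not_eq_true, beq_iff]; exact hk
        rw [hb, if_neg hk]
        simp only [cond_false]
        push_cast
        simp
    simp only [h2, Finset.sum_add_distrib]
    congr 1
    rw [Finset.sum_ite_eq, if_pos (Finset.mem_range.2 ha)]

theorem Avg_lev {n : ℕ} {r : ℕ → ℕ} {L : ℕ → ℕ → List (ℕ × ℤ)} (h : ckL n r L = true)
    (v : ℕ → ℝ) {b d : ℕ} (hb : b < n) (hd : d < n) :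
    Avg r v b d = ((lev v (L b d) : ℝ) : ℂ) := by
  have h1 := List.all_eq_true.1 (List.all_eq_true.1 h b (List.mem_range.2 hb)) d
    (List.mem_range.2 hd)
  rw [Bool.and_eq_true] at h1
  obtain ⟨h2, h3⟩ := h1
  rw [lev_cfl v (L b d) fun e he => Nat.le_of_ble_eq_true (List.all_eq_true.1 h2 e he)]
  unfold Avg
  push_cast
  refine Finset.sum_congr rfl fun k hk => ?_
  have h4 := List.all_eq_true.1 h3 k (I76_mem k (Finset.mem_range.1 hk))
  rw [Bool.and_eq_true, isz_iff, isz_iff] at h4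
  have g1 : reA (av (r k) b d) = cfl (L b d) k := sub_eq_zero.1 h4.1
  rw [avd_eq, g1, h4.2]
  simp

theorem wv_real {n W : ℕ} (h : ckW n W = true) (v : ℕ → ℝ) (b : ℕ) :
    wv W v b = (((wv W v b).re : ℝ) : ℂ) := by
  apply Complex.ext
  · simp
  · rw [Complex.ofReal_im]
    unfold wv
    rw [Complex.im_sum]
    refine Finset.sum_eq_zero fun i hi => ?_
    have hx : (xc W i b).im = 0 := by
      have hall := ckW_im h i (Finset.mem_range.1 hi)
      unfold xc
      revert hall
      generalize en (col W i) = l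
      intro hall
      induction l with
      | nil => simp
      | cons a l ih =>
        rw [List.map_cons, List.sum_cons, Complex.add_im,
          ih fun e he => hall e (List.mem_cons_of_mem _ he)]
        have := hall a List.mem_cons_self
        split_ifs
        · simp [vl, this]
        · simp
    rw [Complex.mul_im, hx]
    simp

/-- **Terms with real entries.** -/
theorem V_real {n : ℕ} {r : ℕ → ℕ} {L : ℕ → ℕ → List (ℕ × ℤ)} {W : ℕ}
    (h : ckL n r L = true) (hW : ckW n W = true) (v : ℕ → ℝ) :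
    V (kpg r W) v = ∑ b ∈ range n, ∑ d ∈ range n,
      lev v (L b d) * (wv W v b).re * (wv W v d).re := by
  unfold V
  rw [kpg_sum n r W (ckW_lt hW) v, Complex.re_sum]
  refine Finset.sum_congr rfl fun b hb => ?_
  rw [Complex.re_sum]
  refine Finset.sum_congr rfl fun d hd => ?_
  rw [Avg_lev h v (Finset.mem_range.1 hb) (Finset.mem_range.1 hd), wv_real hW v b, wv_real hW v d,
    Complex.conj_ofReal, ← Complex.ofReal_mul, ← Complex.ofReal_mul, Complex.ofReal_re,
    Complex.ofReal_re, Complex.ofReal_re]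

/-! ### Sectional curvature terms -/

/-- The linear forms `2 sum_{a,c} x_a x_c R(a, b, c, d)`. -/
def LJ (x : Fin 6 → ℤ) (b d : ℕ) : List (ℕ × ℤ) :=
  (List.finRange 6).flatMap fun a => (List.finRange 6).flatMap fun c =>
    (ent a (Fin.ofNat 6 b) c (Fin.ofNat 6 d)).map fun e => (e.1, (x a * x c) * e.2)

/-- Check of the packed rows of a sectional curvature type. -/
noncomputable def ckJ (r : ℕ → ℕ) (x : Fin 6 → ℤ) : Bool := ckL 6 r (LJ x)

theorem lev_flatMap {α : Type} (v : ℕ → ℝ) (l : List α) (f : α → List (ℕ × ℤ)) :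
    lev v (l.flatMap f) = (l.map fun a => lev v (f a)).sum := by
  induction l with
  | nil => simp [lev]
  | cons a l ih => rw [List.flatMap_cons, lev_append, ih, List.map_cons, List.sum_cons]

theorem lev_LJ {S : T6'} (h : Lin 1 S) (x : Fin 6 → ℤ) (b d : Fin 6) :
    lev (cv 1 S) (LJ x b d) = ∑ a, ∑ c, (x a : ℝ) * x c * (2 * S a b c d) := by
  unfold LJ
  rw [lev_flatMap, ← List.sum_ofFn, List.ofFn_eq_map]
  congr 1
  refine List.map_congr_left fun a _ => ?_
  rw [lev_flatMap, ← List.sum_ofFn, List.ofFn_eq_map]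
  congr 1
  refine List.map_congr_left fun c _ => ?_
  rw [lev_scale, show Fin.ofNat 6 (b : ℕ) = b from Fin.ofNat_val_eq_self b,
    show Fin.ofNat 6 (d : ℕ) = d from Fin.ofNat_val_eq_self d, lev_ent h]
  push_cast
  ring

/-- The sectional curvature terms. -/
theorem J_eq {S : T6'} (h : Lin 1 S) {r : ℕ → ℕ} {x : Fin 6 → ℤ} {W : ℕ}
    (hr : ckJ r x = true) (hW : ckW 6 W = true) :
    V (kpg r W) (cv 1 S) =
      2 * Kf S (fun a => (x a : ℝ)) (fun b => (wv W (cv 1 S) b.1).re) := by
  rw [V_real hr hW]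
  rw [← Fin.sum_univ_eq_sum_range (fun b => ∑ d ∈ range 6, lev (cv 1 S) (LJ x b d) *
    (wv W (cv 1 S) b).re * (wv W (cv 1 S) d).re) 6]
  have h2 : ∀ b : Fin 6, ∑ d ∈ range 6, lev (cv 1 S) (LJ x b.1 d) *
      (wv W (cv 1 S) b.1).re * (wv W (cv 1 S) d).re = ∑ d : Fin 6, ∑ a : Fin 6, ∑ c : Fin 6,
        2 * (S a b c d * x a * (wv W (cv 1 S) b.1).re * x c * (wv W (cv 1 S) d.1).re) := by
    intro b
    rw [← Fin.sum_univ_eq_sum_range (fun d => lev (cv 1 S) (LJ x b.1 d) *
      (wv W (cv 1 S) b.1).re * (wv W (cv 1 S) d).re) 6]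
    refine Finset.sum_congr rfl fun d _ => ?_
    rw [lev_LJ h, Finset.sum_mul, Finset.sum_mul]
    refine Finset.sum_congr rfl fun a _ => ?_
    rw [Finset.sum_mul, Finset.sum_mul]
    refine Finset.sum_congr rfl fun c _ => ?_
    ring
  simp only [h2]
  unfold Kf
  simp only [Finset.mul_sum]
  have sw : ∀ f : Fin 6 → Fin 6 → Fin 6 → Fin 6 → ℝ, ∑ b, ∑ d, ∑ a, ∑ e, f a b e d =
      ∑ a, ∑ b, ∑ e, ∑ d, f a b e d := by
    intro f
    calc ∑ b, ∑ d, ∑ a, ∑ e, f a b e d = ∑ b, ∑ a, ∑ d, ∑ e, f a b e d :=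
          Finset.sum_congr rfl fun b _ => Finset.sum_comm
      _ = ∑ a, ∑ b, ∑ d, ∑ e, f a b e d := Finset.sum_comm
      _ = ∑ a, ∑ b, ∑ e, ∑ d, f a b e d :=
          Finset.sum_congr rfl fun a _ => Finset.sum_congr rfl fun b _ => Finset.sum_comm
  exact sw fun a b e d => 2 * (S a b e d * x a * (wv W (cv 1 S) b.1).re * x e *
    (wv W (cv 1 S) d.1).re)

theorem J_nonneg {S : T6'} (h : Lin 1 S) (hs : SecNonneg S) {r : ℕ → ℕ} {x : Fin 6 → ℤ} {W : ℕ}
    (hr : ckJ r x = true) (hW : ckW 6 W = true) : 0 ≤ V (kpg r W) (cv 1 S) := by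
  rw [J_eq h hr hW]
  have := hs (fun a => (x a : ℝ)) (fun b => (wv W (cv 1 S) b.1).re)
  unfold Kf
  linarith

theorem ckJ_e1 : ckJ (rwo 2) ![1, 0, 0, 0, 0, 0] = true := by decide +kernel

theorem ckJ_e4 : ckJ (rwo 3) ![0, 0, 0, 1, 0, 0] = true := by decide +kernel

end EinsteinSix
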