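import Pool.Agent.Lib.EinsteinSix.Geo
import Pool.Agent.Lib.EinsteinSix.Sl.A1.Slice
import Pool.Agent.Lib.EinsteinSix.Sl.A2.Slice
import Pool.Agent.Lib.EinsteinSix.Sl.B1.Slice
import Pool.Agent.Lib.EinsteinSix.Sl.B2.Slice

/-!
# The four slices of the pointwise inequality (certificates in `Sl/{A1,A2,B1,B2}`)
-/

set_option autoImplicit false

namespace EinsteinSix

open Finset Matrix H91.Split

/-- Slice A1: `trT ≥ 47/10`. -/
theorem slice_A1 {R : T6} (h : AdmE R) (h1 : 47 / 10 ≤ HopfKC.trT R) :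
    12 * HopfKC.trT R ≤ HopfSix.gaussBonnet R :=
  Sl.slice_A1 h h1

/-- Slice A2: `4 ≤ trT ≤ 47/10`. -/
theorem slice_A2 {R : T6} (h : AdmE R) (h1 : 4 ≤ HopfKC.trT R) (h2 : HopfKC.trT R ≤ 47 / 10) :
    12 * HopfKC.trT R ≤ HopfSix.gaussBonnet R :=
  Sl.slice_A2 h h1 h2

/-- Slice B1: `3 ≤ trT ≤ 4`. -/
theorem slice_B1 {R : T6} (h : AdmE R) (h1 : 3 ≤ HopfKC.trT R) (h2 : HopfKC.trT R ≤ 4) :
    12 * HopfKC.trT R ≤ HopfSix.gaussBonnet R + 96 * (4 - HopfKC.trT R) * ell (react R) :=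
  Sl.slice_B1 h h1 h2

/-- Slice B2: `trT ≤ 3`. -/
theorem slice_B2 {R : T6} (h : AdmE R) (h2 : HopfKC.trT R ≤ 3) :
    12 * HopfKC.trT R ≤ HopfSix.gaussBonnet R + 96 * (4 - HopfKC.trT R) * ell (react R) :=
  Sl.slice_B2 h h2

end EinsteinSix
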