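import Pool.Agent.Lib.EinsteinSix.Flow
import Pool.Agent.Lib.EinsteinSix.Frame

/-!
# Instance: the round sphere `S^n = O(n+1) / O(n)`
-/

set_option autoImplicit false

open MeasureTheory Finset Matrix NormedSpace

namespace EinsteinSix

/-- The orthogonal group. -/
abbrev OG (m : ℕ) := Matrix.orthogonalGroup (Fin m) ℝ

noncomputable instance (m : ℕ) : MeasurableSpace (OG m) := borel _
instance (m : ℕ) : BorelSpace (OG m) := ⟨rfl⟩

theorem og_left {m : ℕ} (x : OG m) : (x : Matrix (Fin m) (Fin m) ℝ)ᵀ * x = 1 :=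
  (Matrix.mem_orthogonalGroup_iff' (Fin m) ℝ).1 x.2

theorem isCompact_og (m : ℕ) :
    IsCompact ((Matrix.orthogonalGroup (Fin m) ℝ : Set (Matrix (Fin m) (Fin m) ℝ))) := by
  have hbox : IsCompact (Set.univ.pi fun _ : Fin m => Set.univ.pi fun _ : Fin m =>
      Set.Icc (-1 : ℝ) 1) := isCompact_univ_pi fun _ => isCompact_univ_pi fun _ => isCompact_Icc
  refine hbox.of_isClosed_subset (isClosed_unitary (R := Matrix (Fin m) (Fin m) ℝ)) ?_
  intro g' hg i _ j _
  set g : Matrix (Fin m) (Fin m) ℝ := g' with hgdef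
  have h1 : gᵀ * g = 1 := (Matrix.mem_orthogonalGroup_iff' (Fin m) ℝ).1 hg
  have h2 : ∑ k, g k j * g k j = 1 := by
    have := congrFun (congrFun h1 j) j
    simpa [Matrix.mul_apply, Matrix.transpose_apply] using this
  have h3 : g i j * g i j ≤ ∑ k, g k j * g k j :=
    single_le_sum (f := fun k => g k j * g k j) (fun k _ => mul_self_nonneg _) (mem_univ i)
  rw [h2] at h3
  change g i j ∈ Set.Icc (-1 : ℝ) 1
  constructor <;> nlinarith

instance (m : ℕ) : CompactSpace (OG m) := isCompact_iff_compactSpace.1 (isCompact_og m)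

/-- Coordinate functions. -/
def co {m : ℕ} (a b : Fin m) : C(OG m, ℝ) :=
  ⟨fun x => (x : Matrix (Fin m) (Fin m) ℝ) a b,
    (continuous_subtype_val.matrix_elem a b)⟩

/-- The set of coordinate functions. -/
def gens (m : ℕ) : Set C(OG m, ℝ) := {f | ∃ a b, f = co a b}

/-- The algebra of polynomial functions. -/
abbrev Alg (m : ℕ) := Algebra.adjoin ℝ (gens m)

/-- Coordinate functions. -/
def coA {m : ℕ} (a b : Fin m) : Alg m := ⟨co a b, Algebra.subset_adjoin ⟨a, b, rfl⟩⟩

theorem exp_mem_og {m : ℕ} (M : Matrix (Fin m) (Fin m) ℝ) (t : ℝ) :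
    exp (t • (M - Mᵀ)) ∈ Matrix.orthogonalGroup (Fin m) ℝ := by
  rw [Matrix.mem_orthogonalGroup_iff', ← Matrix.exp_transpose]
  rw [← Matrix.exp_add_of_commute]
  · have : (t • (M - Mᵀ))ᵀ + t • (M - Mᵀ) = 0 := by
      rw [Matrix.transpose_smul, Matrix.transpose_sub, Matrix.transpose_transpose, ← smul_add]
      simp
    rw [this, exp_zero]
  · have : (t • (M - Mᵀ))ᵀ = -(t • (M - Mᵀ)) := by
      rw [Matrix.transpose_smul, Matrix.transpose_sub, Matrix.transpose_transpose, ← smul_neg]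
      simp
    rw [this]
    exact (Commute.refl _).neg_left

/-- The flow of right translations. -/
noncomputable def rflow {m : ℕ} (M : Matrix (Fin m) (Fin m) ℝ) (t : ℝ) (x : OG m) : OG m :=
  x * ⟨exp (t • (M - Mᵀ)), exp_mem_og M t⟩

theorem rflow_zero {m : ℕ} (M : Matrix (Fin m) (Fin m) ℝ) (x : OG m) : rflow M 0 x = x := by
  apply Subtype.ext
  simp [rflow]

theorem rflow_add {m : ℕ} (M : Matrix (Fin m) (Fin m) ℝ) (s t : ℝ) (x : OG m) :
    rflow M (s + t) x = rflow M s (rflow M t x) := by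
  apply Subtype.ext
  simp only [rflow, Submonoid.coe_mul]
  rw [Matrix.mul_assoc, ← Matrix.exp_add_of_commute, ← add_smul, add_comm]
  exact ((Commute.refl _).smul_left _).smul_right _

open scoped Matrix.Norms.Operator in
theorem hasDerivAt_exp_entry {m : ℕ} (X : Matrix (Fin m) (Fin m) ℝ) (a b : Fin m) :
    HasDerivAt (fun t : ℝ => (exp (t • X)) a b) (X a b) 0 := by
  have h := hasDerivAt_exp_smul_const (𝕂 := ℝ) X 0
  have h2 := ((LinearMap.toContinuousLinearMap
    (Matrix.entryLinearMap ℝ ℝ a b)).hasFDerivAt (x := exp ((0 : ℝ) • X))).comp_hasDerivAt 0 h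
  have h3 := h2.congr_deriv (g' := X a b) (by simp; rfl)
  exact h3

theorem hasDer_co {m : ℕ} (M : Matrix (Fin m) (Fin m) ℝ) (a b : Fin m) :
    HasDer (rflow M) (co a b) (∑ c, (M - Mᵀ) c b • co a c) := by
  intro x
  have h1 : HasDerivAt (fun t : ℝ => ∑ c, (x : Matrix (Fin m) (Fin m) ℝ) a c *
      (exp (t • (M - Mᵀ))) c b) (∑ c, (x : Matrix (Fin m) (Fin m) ℝ) a c * (M - Mᵀ) c b) 0 := by
    refine HasDerivAt.fun_sum fun c _ => ?_
    exact (hasDerivAt_exp_entry _ c b).const_mul _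
  have h2 : (∑ c, (M - Mᵀ) c b • co a c : C(OG m, ℝ)) x =
      ∑ c, (x : Matrix (Fin m) (Fin m) ℝ) a c * (M - Mᵀ) c b := by
    rw [ContinuousMap.coe_sum, Finset.sum_apply]
    refine sum_congr rfl fun c _ => ?_
    simp [co, mul_comm]
  rw [h2]
  refine h1.congr_deriv rfl |>.congr_of_eventuallyEq (Filter.Eventually.of_forall fun t => ?_)
  simp [co, rflow, Matrix.mul_apply]

theorem gens_closed {m : ℕ} (M : Matrix (Fin m) (Fin m) ℝ) :
    ∀ f ∈ gens m, ∃ g ∈ Algebra.adjoin ℝ (gens m), HasDer (rflow M) f g := by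
  rintro _ ⟨a, b, rfl⟩
  exact ⟨∑ c, (M - Mᵀ) c b • co a c, Subalgebra.sum_mem _ fun c _ => Subalgebra.smul_mem _
    (Algebra.subset_adjoin (show co a c ∈ gens m from ⟨a, c, rfl⟩)) _, hasDer_co M a b⟩

/-- The left invariant vector field of the skew matrix `M - Mᵀ`. -/
noncomputable def DM {m : ℕ} (M : Matrix (Fin m) (Fin m) ℝ) : Derivation ℝ (Alg m) (Alg m) :=
  flowDer (rflow_zero M) (gens m) (gens_closed M)

theorem DM_co {m : ℕ} (M : Matrix (Fin m) (Fin m) ℝ) (a b : Fin m) :
    DM M (coA a b) = ∑ c, (M - Mᵀ) c b • coA a c := by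
  refine flowDer_eq _ _ _ ?_
  have : ((∑ c, (M - Mᵀ) c b • coA a c : Alg m) : C(OG m, ℝ)) = ∑ c, (M - Mᵀ) c b • co a c := by
    rw [AddSubmonoidClass.coe_finsetSum]
    rfl
  rw [this]
  exact hasDer_co M a b

theorem der_ext' {m : ℕ} {D D' : Derivation ℝ (Alg m) (Alg m)}
    (h : ∀ a b, D (coA a b) = D' (coA a b)) : D = D' := by
  refine der_ext ?_
  rintro _ ⟨a, b, rfl⟩
  exact h a b

theorem DM_congr {m : ℕ} {M N : Matrix (Fin m) (Fin m) ℝ} (h : M - Mᵀ = N - Nᵀ) :
    DM M = DM N := der_ext' fun a b => by rw [DM_co, DM_co, h]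

theorem DM_add {m : ℕ} (M N : Matrix (Fin m) (Fin m) ℝ) : DM (M + N) = DM M + DM N :=
  der_ext' fun a b => by
    rw [Derivation.add_apply, DM_co, DM_co, DM_co, ← sum_add_distrib]
    refine sum_congr rfl fun c _ => ?_
    rw [← add_smul]
    congr 1
    simp only [Matrix.sub_apply, Matrix.add_apply, Matrix.transpose_apply]
    ring

theorem DM_zero {m : ℕ} : DM (0 : Matrix (Fin m) (Fin m) ℝ) = 0 :=
  der_ext' fun a b => by simp [DM_co]

theorem DM_neg {m : ℕ} (M : Matrix (Fin m) (Fin m) ℝ) : DM (-M) = -DM M :=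
  der_ext' fun a b => by
    rw [Derivation.neg_apply, DM_co, DM_co, ← sum_neg_distrib]
    refine sum_congr rfl fun c _ => ?_
    rw [← neg_smul]
    congr 1
    simp only [Matrix.sub_apply, Matrix.neg_apply, Matrix.transpose_apply]
    ring

theorem DM_sub {m : ℕ} (M N : Matrix (Fin m) (Fin m) ℝ) : DM (M - N) = DM M - DM N := by
  rw [sub_eq_add_neg, DM_add, DM_neg]
  exact (sub_eq_add_neg (DM M) (DM N)).symm

theorem DM_transpose {m : ℕ} (M : Matrix (Fin m) (Fin m) ℝ) : DM Mᵀ = -DM M := by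
  rw [← DM_neg]
  refine DM_congr ?_
  simp
  abel

theorem DM_lie {m : ℕ} (M N : Matrix (Fin m) (Fin m) ℝ) :
    ⁅DM M, DM N⁆ = DM ((M - Mᵀ) * (N - Nᵀ)) := der_ext' fun a b => by
  rw [Derivation.commutator_apply, DM_co, DM_co, DM_co, map_sum, map_sum]
  simp only [Derivation.map_smul, DM_co, smul_sum, smul_smul]
  rw [sum_comm, sum_comm (s := univ) (t := univ) (f := fun c d => ((M - Mᵀ) c b * (N - Nᵀ) d c) •
    coA a d), ← sum_sub_distrib]
  refine sum_congr rfl fun c _ => ?_
  rw [← sum_sub_distrib]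
  simp only [← sub_smul]
  rw [← sum_smul]
  congr 1
  rw [Matrix.transpose_mul, Matrix.sub_apply, Matrix.mul_apply, Matrix.mul_apply,
    ← sum_sub_distrib]
  refine sum_congr rfl fun d _ => ?_
  simp only [Matrix.sub_apply, Matrix.transpose_apply]
  ring

/-- Elementary matrices. -/
def EM {m : ℕ} (i j : Fin m) : Matrix (Fin m) (Fin m) ℝ := Matrix.single i j 1

theorem EM_mul {m : ℕ} (i j k l : Fin m) : EM i j * EM k l = if j = k then EM i l else 0 := by
  unfold EM
  split_ifs with h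
  · subst h
    rw [Matrix.single_mul_single_same, one_mul]
  · exact Matrix.single_mul_single_of_ne _ _ _ _ h _

theorem EM_T {m : ℕ} (i j : Fin m) : (EM i j)ᵀ = EM j i := Matrix.transpose_single _ _ _

/-- The commutation relations of the orthogonal Lie algebra. -/
theorem DM_EM_lie {m : ℕ} (i j k l : Fin m) : ⁅DM (EM i j), DM (EM k l)⁆ =
    (if j = k then DM (EM i l) else 0) - (if j = l then DM (EM i k) else 0)
    - (if i = k then DM (EM j l) else 0) + (if i = l then DM (EM j k) else 0) := by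
  rw [DM_lie, EM_T, EM_T, sub_mul, mul_sub, mul_sub, EM_mul, EM_mul, EM_mul, EM_mul,
    DM_sub, DM_sub, DM_sub]
  have e : ∀ (p : Prop) [Decidable p] (M : Matrix (Fin m) (Fin m) ℝ),
      DM (if p then M else 0) = if p then DM M else 0 := by
    intro p _ M
    split_ifs
    · rfl
    · exact DM_zero
  rw [e, e, e, e]
  abel

/-- The matrix of a derivation in the moving frame. -/
noncomputable def mat {m : ℕ} (D : Derivation ℝ (Alg m) (Alg m)) (e c : Fin m) : Alg m :=
  ∑ a, coA a e * D (coA a c)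

theorem coA_orth {m : ℕ} (e d : Fin m) : ∑ a, coA a e * coA a d = if e = d then 1 else 0 := by
  apply Subtype.ext
  rw [AddSubmonoidClass.coe_finsetSum]
  ext x
  rw [ContinuousMap.coe_sum, Finset.sum_apply]
  have h := congrFun (congrFun (og_left x) e) d
  rw [Matrix.mul_apply, Matrix.one_apply] at h
  simp only [Matrix.transpose_apply] at h
  refine Eq.trans ?_ (h.trans ?_)
  · rfl
  · split_ifs <;> rfl

theorem mat_DM {m : ℕ} (M : Matrix (Fin m) (Fin m) ℝ) (e c : Fin m) :
    mat (DM M) e c = (M - Mᵀ) e c • 1 := by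
  simp only [mat, DM_co, mul_sum, mul_smul_comm]
  rw [sum_comm]
  simp only [← smul_sum, coA_orth]
  rw [sum_eq_single e]
  · simp
  · intro b _ hb
    rw [if_neg (Ne.symm hb), smul_zero]
  · simp

theorem mat_smul {m : ℕ} (u : Alg m) (D : Derivation ℝ (Alg m) (Alg m)) (e c : Fin m) :
    mat (u • D) e c = u * mat D e c := by
  simp only [mat, mul_sum, Derivation.smul_apply, smul_eq_mul]
  refine sum_congr rfl fun a _ => ?_
  ring

theorem mat_add {m : ℕ} (D D' : Derivation ℝ (Alg m) (Alg m)) (e c : Fin m) :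
    mat (D + D') e c = mat D e c + mat D' e c := by
  simp only [mat, Derivation.add_apply, mul_add, sum_add_distrib]

theorem mat_sum {m : ℕ} {ι : Type*} (s : Finset ι) (D : ι → Derivation ℝ (Alg m) (Alg m))
    (e c : Fin m) : mat (∑ i ∈ s, D i) e c = ∑ i ∈ s, mat (D i) e c := by
  classical
  induction s using Finset.induction_on with
  | empty => simp [mat]
  | insert a s ha ih => rw [sum_insert ha, sum_insert ha, mat_add, ih]

theorem der_sum_apply {m : ℕ} {ι : Type*} (s : Finset ι) (D : ι → Derivation ℝ (Alg m) (Alg m))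
    (x : Alg m) : (∑ i ∈ s, D i) x = ∑ i ∈ s, D i x := by
  classical
  induction s using Finset.induction_on with
  | empty => simp
  | insert a s ha ih => rw [sum_insert ha, sum_insert ha, Derivation.add_apply, ih]

end EinsteinSix
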