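import Pool.Agent.Lib.EinsteinSix.Sphere

/-!
# Instance: the round sphere `S^n = O(n+1) / O(n)`, part 2
-/

set_option autoImplicit false

open MeasureTheory Finset Matrix NormedSpace

namespace EinsteinSix

/-- Cartan's structure equations on `O(n+1)`, the frame bundle of the round unit sphere `S^n`:
constant curvature one. -/
noncomputable def sphereCartan (n : ℕ) : Cartan n (Alg (n + 1)) where
  B := fun m => DM (EM m.succ 0)
  V := fun i j => DM (EM i.succ j.succ)
  R := fun i j k l => ((if i = k then (1 : ℝ) else 0) * (if j = l then 1 else 0) -
    (if i = l then 1 else 0) * (if j = k then 1 else 0)) • 1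
  V_skew := fun i j => by rw [← DM_transpose, EM_T]
  R_skew := fun i j k l => by
    rw [← neg_smul]; congr 1; ring
  VV := fun i j k l => by
    rw [DM_EM_lie]
    simp only [Fin.succ_inj]
  VB := fun i j m => by
    rw [DM_EM_lie]
    simp only [Fin.succ_inj, Fin.succ_ne_zero, if_false]
    abel
  BB := fun i j => by
    rw [DM_EM_lie]
    refine der_ext' fun a b => ?_
    have h2 : DM (EM (Fin.succ j) (Fin.succ i)) = - DM (EM (Fin.succ i) (Fin.succ j)) := by
      rw [← DM_transpose, EM_T]
    have e : ∀ (k l : Fin n), ((((if i = k then (1 : ℝ) else 0) * (if j = l then 1 else 0) -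
      (if i = l then 1 else 0) * (if j = k then 1 else 0)) • (1 : Alg (n + 1))) •
        DM (EM (Fin.succ k) (Fin.succ l))) (coA a b) =
        (if i = k then if j = l then DM (EM (Fin.succ k) (Fin.succ l)) (coA a b) else 0 else 0) -
        (if j = k then if i = l then DM (EM (Fin.succ k) (Fin.succ l)) (coA a b) else 0 else 0) := by
      intro k l
      rw [Derivation.smul_apply]
      split_ifs <;> simp <;> ring
    simp only [Fin.succ_ne_zero, (Fin.succ_ne_zero _).symm, if_false, if_true,
      Derivation.neg_apply, Derivation.smul_apply, der_sum_apply, Derivation.add_apply,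
      Derivation.sub_apply, e]
    have h3 : DM (EM (0 : Fin (n + 1)) 0) = 0 := by
      rw [← DM_zero]
      refine DM_congr ?_
      simp [EM_T]
    have h4 : (DM (EM (Fin.succ j) (Fin.succ i))) (coA a b) =
        -(DM (EM (Fin.succ i) (Fin.succ j))) (coA a b) := by rw [h2, Derivation.neg_apply]
    have h5 : ∑ k, ∑ l, ((if i = k then if j = l then (DM (EM (Fin.succ k) (Fin.succ l))) (coA a b)
        else 0 else 0) - (if j = k then if i = l then
          (DM (EM (Fin.succ k) (Fin.succ l))) (coA a b) else 0 else 0)) =
        (DM (EM (Fin.succ i) (Fin.succ j))) (coA a b) -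
          (DM (EM (Fin.succ j) (Fin.succ i))) (coA a b) := by
      simp only [sum_sub_distrib]
      congr 1
      · rw [sum_eq_single i, sum_eq_single j]
        · simp
        · intro c _ hc; simp [Ne.symm hc]
        · simp
        · intro c _ hc; simp [Ne.symm hc]
        · simp
      · rw [sum_eq_single j, sum_eq_single i]
        · simp
        · intro c _ hc; simp [Ne.symm hc]
        · simp
        · intro c _ hc; simp [Ne.symm hc]
        · simp
    rw [h3, ite_self, h5, h4]
    simp only [Derivation.coe_zero, Pi.zero_apply]
    rw [sub_neg_eq_add, ← two_smul ℝ, smul_smul]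
    norm_num
  indep := fun a b hb h => by
    have key : ∀ e c, ∑ i, a i * mat (DM (EM (Fin.succ i) (0 : Fin (n + 1)))) e c +
        ∑ i, ∑ j, b i j * mat (DM (EM (Fin.succ i) (Fin.succ j))) e c = 0 := by
      intro e c
      have := congrArg (fun D => mat D e c) h
      simp only [mat_add, mat_sum, mat_smul] at this
      rw [this]
      simp [mat]
    simp only [mat_DM] at key
    constructor
    · intro i
      have := key i.succ 0
      simpa [EM, Matrix.single, Fin.succ_ne_zero, (Fin.succ_ne_zero _).symm] using this
    · intro i j
      have h1 := key i.succ j.succ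
      have e1 : ∀ x : Fin n, (EM (Fin.succ x) (0 : Fin (n + 1)) -
          (EM (Fin.succ x) (0 : Fin (n + 1)))ᵀ) i.succ j.succ = 0 := by
        intro x
        simp [EM, Matrix.single, (Fin.succ_ne_zero _).symm]
      have e2 : ∀ x y : Fin n, b x y * (EM (Fin.succ x) (Fin.succ y) -
          (EM (Fin.succ x) (Fin.succ y))ᵀ) i.succ j.succ • (1 : Alg (n + 1)) =
          (if x = i then if y = j then b x y else 0 else 0) -
          (if x = j then if y = i then b x y else 0 else 0) := by
        intro x y
        clear hb h key h1 e1
        simp only [EM, Matrix.single, Matrix.sub_apply, Matrix.transpose_apply, Matrix.of_apply,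
          Fin.succ_inj]
        rw [mul_smul_comm, mul_one, sub_smul, ite_smul, ite_smul, one_smul, zero_smul, ite_and,
          ite_and]
      simp only [e1, e2, zero_smul, mul_zero, sum_const_zero, zero_add] at h1
      have e3 : ∑ x, ∑ y, ((if x = i then if y = j then b x y else 0 else 0) -
          (if x = j then if y = i then b x y else 0 else 0)) = b i j - b j i := by
        simp only [sum_sub_distrib]
        congr 1
        · rw [sum_eq_single i, sum_eq_single j]
          · simp
          · intro c _ hc; simp [hc]
          · simp
          · intro c _ hc; simp [hc]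
          · simp
        · rw [sum_eq_single j, sum_eq_single i]
          · simp
          · intro c _ hc; simp [hc]
          · simp
          · intro c _ hc; simp [hc]
          · simp
      rw [e3, hb j i, sub_neg_eq_add, ← two_smul ℝ] at h1
      exact (smul_eq_zero.1 h1).resolve_left two_ne_zero

/-- The round unit sphere `S^n`: frame bundle `O(n+1)`. -/
noncomputable def sphere (n : ℕ) (μ : Measure (OG (n + 1))) [IsFiniteMeasure μ]
    [μ.IsMulRightInvariant] : FrameBundle n (OG (n + 1)) μ where
  A := Algebra.adjoin ℝ (gens (n + 1))
  cartan := sphereCartan n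
  integral_B := fun i u => by
    refine integral_der (φ := rflow (EM i.succ 0)) (rflow_zero _) (rflow_add _) ?_
      (hasDer_flowDer (rflow_zero _) _ (gens_closed _) u)
    intro t
    exact measurePreserving_mul_right μ _

/-- The round sphere has constant curvature one. -/
theorem sphere_curv (n : ℕ) (μ : Measure (OG (n + 1))) [IsFiniteMeasure μ]
    [μ.IsMulRightInvariant] (p : OG (n + 1)) (i j k l : Fin n) :
    (sphere n μ).curv p i j k l = (if i = k then (1 : ℝ) else 0) * (if j = l then 1 else 0) -
      (if i = l then 1 else 0) * (if j = k then 1 else 0) := by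
  change (((((if i = k then (1 : ℝ) else 0) * (if j = l then 1 else 0) -
    (if i = l then 1 else 0) * (if j = k then 1 else 0)) • (1 : Alg (n + 1))) : Alg (n + 1)) :
      C(OG (n + 1), ℝ)) p = _
  simp

/-- A nonzero finite right invariant measure on the orthogonal group. -/
noncomputable def haarR (m : ℕ) : Measure (OG m) := (Measure.haar : Measure (OG m)).inv

instance (m : ℕ) : IsFiniteMeasure (haarR m) := by
  constructor
  rw [haarR, Measure.inv_apply]
  exact measure_lt_top _ _

instance (m : ℕ) : (haarR m).IsMulRightInvariant := by
  unfold haarR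
  infer_instance

theorem haarR_ne_zero (m : ℕ) : haarR m Set.univ ≠ 0 := by
  rw [haarR, Measure.inv_apply]
  have h := (isOpen_univ (X := OG m)).measure_pos (Measure.haar : Measure (OG m)) ⟨1, trivial⟩
  simpa using h.ne'

end EinsteinSix
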