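import Pool.Agent.Lib.EinsteinSix.Sphere2

/-!
# Instance: the flat torus `T^n`, frame bundle `O(n) × T^n`
-/

set_option autoImplicit false

open MeasureTheory Finset Matrix NormedSpace

namespace EinsteinSix

noncomputable instance : MeasurableSpace Circle := borel _
instance : BorelSpace Circle := ⟨rfl⟩

theorem continuous_circle_coe : Continuous (fun z : Circle => (z : ℂ)) := continuous_induced_dom

/-- The frame bundle of the flat torus. -/
abbrev FT (n : ℕ) := OG n × (Fin n → Circle)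

variable {n : ℕ}

/-- Coordinates of the frame. -/
noncomputable def cf' (a b : Fin n) : C(FT n, ℝ) := (co a b).comp ⟨Prod.fst, continuous_fst⟩

/-- Cosine of a coordinate of the base point. -/
noncomputable def ref (a : Fin n) : C(FT n, ℝ) :=
  ⟨fun p => (p.2 a : ℂ).re, by
    exact Complex.continuous_re.comp (continuous_circle_coe.comp
      ((continuous_apply a).comp continuous_snd))⟩

/-- Sine of a coordinate of the base point. -/
noncomputable def imf (a : Fin n) : C(FT n, ℝ) :=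
  ⟨fun p => (p.2 a : ℂ).im, by
    exact Complex.continuous_im.comp (continuous_circle_coe.comp
      ((continuous_apply a).comp continuous_snd))⟩

/-- Generators of the algebra of functions. -/
noncomputable def tgens (n : ℕ) : Set C(FT n, ℝ) :=
  {f | (∃ a b, f = cf' a b) ∨ (∃ a, f = ref a) ∨ ∃ a, f = imf a}

/-- The algebra of (trigonometric) polynomial functions. -/
noncomputable abbrev TAlg (n : ℕ) := Algebra.adjoin ℝ (tgens n)

theorem cf_mem (a b : Fin n) : cf' a b ∈ tgens n := Or.inl ⟨a, b, rfl⟩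
theorem ref_mem (a : Fin n) : ref a ∈ tgens n := Or.inr (Or.inl ⟨a, rfl⟩)
theorem imf_mem (a : Fin n) : imf a ∈ tgens n := Or.inr (Or.inr ⟨a, rfl⟩)

/-- Generators as elements of the algebra. -/
noncomputable def cfA (a b : Fin n) : TAlg n := ⟨cf' a b, Algebra.subset_adjoin (cf_mem a b)⟩
/-- Generators as elements of the algebra. -/
noncomputable def refA (a : Fin n) : TAlg n := ⟨ref a, Algebra.subset_adjoin (ref_mem a)⟩
/-- Generators as elements of the algebra. -/
noncomputable def imfA (a : Fin n) : TAlg n := ⟨imf a, Algebra.subset_adjoin (imf_mem a)⟩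

/-- Vertical flow. -/
noncomputable def vflow (M : Matrix (Fin n) (Fin n) ℝ) (t : ℝ) (p : FT n) : FT n :=
  (rflow M t p.1, p.2)

/-- Horizontal flow: straight lines in the direction of the `m`-th frame vector. -/
noncomputable def hflow (m : Fin n) (t : ℝ) (p : FT n) : FT n :=
  (p.1, fun a => Circle.exp (t * (p.1 : Matrix (Fin n) (Fin n) ℝ) a m) * p.2 a)

theorem vflow_zero (M : Matrix (Fin n) (Fin n) ℝ) (p : FT n) : vflow M 0 p = p := by
  simp [vflow, rflow_zero]

theorem hflow_zero (m : Fin n) (p : FT n) : hflow m 0 p = p := by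
  simp [hflow]

theorem hflow_add (m : Fin n) (s t : ℝ) (p : FT n) :
    hflow m (s + t) p = hflow m s (hflow m t p) := by
  simp only [hflow, add_mul, Circle.exp_add, mul_assoc]

theorem hder_cf (m a b : Fin n) : HasDer (hflow m) (cf' a b) 0 := fun p => by
  simpa [hflow, cf', co] using hasDerivAt_const (0 : ℝ) ((p.1 : Matrix (Fin n) (Fin n) ℝ) a b)

theorem hder_re (m a : Fin n) : HasDer (hflow m) (ref a) (-(cf' a m * imf a)) := fun p => by
  set c := (p.1 : Matrix (Fin n) (Fin n) ℝ) a m with hc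
  set x := (p.2 a : ℂ).re with hx
  set y := (p.2 a : ℂ).im with hy
  have h1 : HasDerivAt (fun t : ℝ => Real.cos (t * c) * x - Real.sin (t * c) * y) (-(c * y)) 0 := by
    have h0 : HasDerivAt (fun t : ℝ => t * c) c 0 := by simpa using (hasDerivAt_id (0 : ℝ)).mul_const c
    have h2 := (h0.cos.mul_const x).fun_sub (h0.sin.mul_const y)
    refine h2.congr_deriv ?_
    simp
  refine (h1.congr_deriv ?_).congr_of_eventuallyEq (Filter.Eventually.of_forall fun t => ?_)
  · rfl
  · simp only [hflow, ref, ContinuousMap.coe_mk, Circle.coe_mul, Circle.coe_exp, Complex.mul_re]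
    rw [Complex.exp_ofReal_mul_I_re, Complex.exp_ofReal_mul_I_im]

theorem hder_im (m a : Fin n) : HasDer (hflow m) (imf a) (cf' a m * ref a) := fun p => by
  set c := (p.1 : Matrix (Fin n) (Fin n) ℝ) a m with hc
  set x := (p.2 a : ℂ).re with hx
  set y := (p.2 a : ℂ).im with hy
  have h1 : HasDerivAt (fun t : ℝ => Real.cos (t * c) * y + Real.sin (t * c) * x) (c * x) 0 := by
    have h0 : HasDerivAt (fun t : ℝ => t * c) c 0 := by simpa using (hasDerivAt_id (0 : ℝ)).mul_const c
    have h2 := (h0.cos.mul_const y).fun_add (h0.sin.mul_const x)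
    refine h2.congr_deriv ?_
    simp
  refine (h1.congr_deriv ?_).congr_of_eventuallyEq (Filter.Eventually.of_forall fun t => ?_)
  · rfl
  · simp only [hflow, imf, ContinuousMap.coe_mk, Circle.coe_mul, Circle.coe_exp, Complex.mul_im]
    rw [Complex.exp_ofReal_mul_I_re, Complex.exp_ofReal_mul_I_im]

theorem vder_cf (M : Matrix (Fin n) (Fin n) ℝ) (a b : Fin n) :
    HasDer (vflow M) (cf' a b) (∑ c, (M - Mᵀ) c b • cf' a c) := fun p => by
  have h := hasDer_co M a b p.1
  have e : (∑ c, (M - Mᵀ) c b • cf' a c : C(FT n, ℝ)) p = (∑ c, (M - Mᵀ) c b • co a c : C(OG n, ℝ)) p.1 := by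
    rw [ContinuousMap.coe_sum, ContinuousMap.coe_sum, Finset.sum_apply, Finset.sum_apply]
    rfl
  rw [e]
  exact h

theorem vder_re (M : Matrix (Fin n) (Fin n) ℝ) (a : Fin n) : HasDer (vflow M) (ref a) 0 :=
  fun p => by simpa [vflow, ref] using hasDerivAt_const (0 : ℝ) ((p.2 a : ℂ).re)

theorem vder_im (M : Matrix (Fin n) (Fin n) ℝ) (a : Fin n) : HasDer (vflow M) (imf a) 0 :=
  fun p => by simpa [vflow, imf] using hasDerivAt_const (0 : ℝ) ((p.2 a : ℂ).im)

theorem hclosed (m : Fin n) : ∀ f ∈ tgens n, ∃ g ∈ Algebra.adjoin ℝ (tgens n),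
    HasDer (hflow m) f g := by
  rintro _ (⟨a, b, rfl⟩ | ⟨a, rfl⟩ | ⟨a, rfl⟩)
  · exact ⟨0, zero_mem _, hder_cf m a b⟩
  · exact ⟨_, neg_mem (mul_mem (Algebra.subset_adjoin (cf_mem a m))
      (Algebra.subset_adjoin (imf_mem a))), hder_re m a⟩
  · exact ⟨_, mul_mem (Algebra.subset_adjoin (cf_mem a m))
      (Algebra.subset_adjoin (ref_mem a)), hder_im m a⟩

theorem vclosed (M : Matrix (Fin n) (Fin n) ℝ) : ∀ f ∈ tgens n,
    ∃ g ∈ Algebra.adjoin ℝ (tgens n), HasDer (vflow M) f g := by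
  rintro _ (⟨a, b, rfl⟩ | ⟨a, rfl⟩ | ⟨a, rfl⟩)
  · exact ⟨∑ c, (M - Mᵀ) c b • cf' a c, Subalgebra.sum_mem _ fun c _ => Subalgebra.smul_mem _
      (Algebra.subset_adjoin (cf_mem a c)) _, vder_cf M a b⟩
  · exact ⟨0, zero_mem _, vder_re M a⟩
  · exact ⟨0, zero_mem _, vder_im M a⟩

/-- Horizontal vector fields. -/
noncomputable def TB (m : Fin n) : Derivation ℝ (TAlg n) (TAlg n) :=
  flowDer (hflow_zero m) (tgens n) (hclosed m)

/-- Vertical vector fields. -/
noncomputable def TV (M : Matrix (Fin n) (Fin n) ℝ) : Derivation ℝ (TAlg n) (TAlg n) :=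
  flowDer (vflow_zero M) (tgens n) (vclosed M)

theorem TB_cf (m a b : Fin n) : TB m (cfA a b) = 0 := flowDer_eq _ _ _ (hder_cf m a b)
theorem TB_re (m a : Fin n) : TB m (refA a) = -(cfA a m * imfA a) :=
  flowDer_eq _ _ _ (hder_re m a)
theorem TB_im (m a : Fin n) : TB m (imfA a) = cfA a m * refA a := flowDer_eq _ _ _ (hder_im m a)
theorem TV_re (M : Matrix (Fin n) (Fin n) ℝ) (a : Fin n) : TV M (refA a) = 0 :=
  flowDer_eq _ _ _ (vder_re M a)
theorem TV_im (M : Matrix (Fin n) (Fin n) ℝ) (a : Fin n) : TV M (imfA a) = 0 :=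
  flowDer_eq _ _ _ (vder_im M a)
theorem TV_cf (M : Matrix (Fin n) (Fin n) ℝ) (a b : Fin n) :
    TV M (cfA a b) = ∑ c, (M - Mᵀ) c b • cfA a c := by
  refine flowDer_eq _ _ _ ?_
  have : ((∑ c, (M - Mᵀ) c b • cfA a c : TAlg n) : C(FT n, ℝ)) =
      ∑ c, (M - Mᵀ) c b • cf' a c := by
    rw [AddSubmonoidClass.coe_finsetSum]
    rfl
  rw [this]
  exact vder_cf M a b

theorem tder_ext {D D' : Derivation ℝ (TAlg n) (TAlg n)}
    (h1 : ∀ a b, D (cfA a b) = D' (cfA a b)) (h2 : ∀ a, D (refA a) = D' (refA a))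
    (h3 : ∀ a, D (imfA a) = D' (imfA a)) : D = D' := by
  refine der_ext ?_
  rintro _ (⟨a, b, rfl⟩ | ⟨a, rfl⟩ | ⟨a, rfl⟩)
  · exact h1 a b
  · exact h2 a
  · exact h3 a

end EinsteinSix
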