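import Pool.Agent.Lib.EinsteinSix.Torus

/-!
# Instance: the flat torus, part 2
-/

set_option autoImplicit false

open MeasureTheory Finset Matrix NormedSpace

namespace EinsteinSix

variable {n : ℕ}

theorem TV_congr {M N : Matrix (Fin n) (Fin n) ℝ} (h : M - Mᵀ = N - Nᵀ) :
    TV M = TV N :=
  tder_ext (fun a b => by rw [TV_cf, TV_cf, h]) (fun a => by rw [TV_re, TV_re])
    (fun a => by rw [TV_im, TV_im])

theorem TV_zero : TV (0 : Matrix (Fin n) (Fin n) ℝ) = 0 :=
  tder_ext (fun a b => by simp [TV_cf]) (fun a => by simp [TV_re]) (fun a => by simp [TV_im])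

theorem TV_neg (M : Matrix (Fin n) (Fin n) ℝ) : TV (-M) = -TV M :=
  tder_ext (fun a b => by
    rw [Derivation.neg_apply, TV_cf, TV_cf, ← sum_neg_distrib]
    refine sum_congr rfl fun c _ => ?_
    rw [← neg_smul]
    congr 1
    simp only [Matrix.sub_apply, Matrix.neg_apply, Matrix.transpose_apply]
    ring) (fun a => by simp [TV_re]) (fun a => by simp [TV_im])

theorem TV_sub (M N : Matrix (Fin n) (Fin n) ℝ) : TV (M - N) = TV M - TV N :=
  tder_ext (fun a b => by
    rw [Derivation.sub_apply, TV_cf, TV_cf, TV_cf, ← sum_sub_distrib]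
    refine sum_congr rfl fun c _ => ?_
    rw [← sub_smul]
    congr 1
    simp only [Matrix.sub_apply, Matrix.transpose_apply]
    ring) (fun a => by simp [TV_re]) (fun a => by simp [TV_im])

theorem TV_transpose (M : Matrix (Fin n) (Fin n) ℝ) : TV Mᵀ = -TV M := by
  rw [← TV_neg]
  refine TV_congr ?_
  simp
  abel

theorem TV_lie (M N : Matrix (Fin n) (Fin n) ℝ) :
    ⁅TV M, TV N⁆ = TV ((M - Mᵀ) * (N - Nᵀ)) := by
  refine tder_ext (fun a b => ?_) (fun a => ?_) (fun a => ?_)
  · rw [Derivation.commutator_apply, TV_cf, TV_cf, TV_cf, map_sum, map_sum]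
    simp only [Derivation.map_smul, TV_cf, smul_sum, smul_smul]
    rw [sum_comm, sum_comm (s := univ) (t := univ) (f := fun c d =>
      ((M - Mᵀ) c b * (N - Nᵀ) d c) • cfA a d), ← sum_sub_distrib]
    refine sum_congr rfl fun c _ => ?_
    rw [← sum_sub_distrib]
    simp only [← sub_smul]
    rw [← sum_smul]
    congr 1
    rw [Matrix.transpose_mul, Matrix.sub_apply, Matrix.mul_apply, Matrix.mul_apply,
      ← sum_sub_distrib]
    refine sum_congr rfl fun d _ => ?_
    simp only [Matrix.sub_apply, Matrix.transpose_apply]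
    ring
  · rw [Derivation.commutator_apply, TV_re, TV_re, TV_re]
    simp
  · rw [Derivation.commutator_apply, TV_im, TV_im, TV_im]
    simp

theorem TV_EM_lie (i j k l : Fin n) : ⁅TV (EM i j), TV (EM k l)⁆ =
    (if j = k then TV (EM i l) else 0) - (if j = l then TV (EM i k) else 0)
    - (if i = k then TV (EM j l) else 0) + (if i = l then TV (EM j k) else 0) := by
  rw [TV_lie, EM_T, EM_T, sub_mul, mul_sub, mul_sub, EM_mul, EM_mul, EM_mul, EM_mul,
    TV_sub, TV_sub, TV_sub]
  have e : ∀ (p : Prop) [Decidable p] (M : Matrix (Fin n) (Fin n) ℝ),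
      TV (if p then M else 0) = if p then TV M else 0 := by
    intro p _ M
    split_ifs
    · rfl
    · exact TV_zero
  rw [e, e, e, e]
  abel

theorem sk_sum (i j m : Fin n) (f : Fin n → TAlg n) :
    ∑ c, (EM i j - (EM i j)ᵀ) c m • f c = (if j = m then f i else 0) - (if i = m then f j else 0) := by
  simp only [EM, Matrix.single, Matrix.sub_apply, Matrix.transpose_apply, Matrix.of_apply,
    sub_smul, sum_sub_distrib, ite_smul, one_smul, zero_smul, ite_and]
  congr 1
  · simp
  · simp

theorem TVB (i j m : Fin n) : ⁅TV (EM i j), TB m⁆ =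
    (if j = m then TB i else 0) - (if i = m then TB j else 0) := by
  refine tder_ext (fun a b => ?_) (fun a => ?_) (fun a => ?_)
  · rw [Derivation.commutator_apply, TB_cf, TV_cf, map_sum]
    simp only [Derivation.map_smul, TB_cf, smul_zero, sum_const_zero, map_zero, sub_zero]
    rw [Derivation.sub_apply]
    split_ifs <;> simp [TB_cf]
  · rw [Derivation.commutator_apply, TB_re, TV_re, map_zero, sub_zero, map_neg,
      Derivation.leibniz, TV_im, smul_zero, zero_add, TV_cf, sk_sum, Derivation.sub_apply]
    split_ifs <;> simp [TB_re] <;> ring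
  · rw [Derivation.commutator_apply, TB_im, TV_im, map_zero, sub_zero,
      Derivation.leibniz, TV_re, smul_zero, zero_add, TV_cf, sk_sum, Derivation.sub_apply]
    split_ifs <;> simp [TB_im] <;> ring

theorem TBB (i j : Fin n) : ⁅(TB i : Derivation ℝ (TAlg n) (TAlg n)), TB j⁆ = 0 := by
  refine tder_ext (fun a b => ?_) (fun a => ?_) (fun a => ?_)
  · rw [Derivation.commutator_apply, TB_cf, TB_cf]
    simp
  · rw [Derivation.commutator_apply, TB_re, TB_re, map_neg, map_neg, Derivation.leibniz,
      Derivation.leibniz, TB_cf, TB_cf, TB_im, TB_im]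
    simp only [smul_zero, add_zero, smul_eq_mul, Derivation.coe_zero, Pi.zero_apply]
    ring
  · rw [Derivation.commutator_apply, TB_im, TB_im, Derivation.leibniz,
      Derivation.leibniz, TB_cf, TB_cf, TB_re, TB_re]
    simp only [smul_zero, add_zero, smul_eq_mul, Derivation.coe_zero, Pi.zero_apply]
    ring

theorem cfA_orth (e d : Fin n) : ∑ a, cfA a e * cfA a d = if e = d then 1 else 0 := by
  apply Subtype.ext
  rw [AddSubmonoidClass.coe_finsetSum]
  ext x
  rw [ContinuousMap.coe_sum, Finset.sum_apply]
  have h := congrFun (congrFun (og_left x.1) e) d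
  rw [Matrix.mul_apply, Matrix.one_apply] at h
  simp only [Matrix.transpose_apply] at h
  refine Eq.trans ?_ (h.trans ?_)
  · rfl
  · split_ifs <;> rfl

theorem reim (a : Fin n) : refA a * refA a + imfA a * imfA a = 1 := by
  apply Subtype.ext
  ext x
  have h := Circle.normSq_coe (x.2 a)
  rw [Complex.normSq_apply] at h
  exact h

theorem tder_sum_apply {ι : Type*} (s : Finset ι) (D : ι → Derivation ℝ (TAlg n) (TAlg n))
    (x : TAlg n) : (∑ i ∈ s, D i) x = ∑ i ∈ s, D i x := by
  classical
  induction s using Finset.induction_on with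
  | empty => simp
  | insert a s ha ih => rw [sum_insert ha, sum_insert ha, Derivation.add_apply, ih]

theorem tindep (a : Fin n → TAlg n) (b : Fin n → Fin n → TAlg n) (hb : ∀ i j, b i j = -b j i)
    (h : ∑ i, a i • TB i + ∑ i, ∑ j, b i j • TV (EM i j) = 0) :
    (∀ i, a i = 0) ∧ ∀ i j, b i j = 0 := by
  have hb0 : ∀ i j, b i j = 0 := by
    have key : ∀ c d, ∑ i, ∑ j, b i j * ∑ e, (EM i j - (EM i j)ᵀ) e d • cfA c e = 0 := by
      intro c d
      have h1 := congrArg (fun D => D (cfA c d)) h
      simp only [Derivation.add_apply, tder_sum_apply, Derivation.smul_apply, TB_cf,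
        smul_eq_mul, TV_cf, Derivation.coe_zero, Pi.zero_apply, mul_zero, sum_const_zero,
        zero_add] at h1
      exact h1
    simp only [sk_sum] at key
    intro i j
    have h2 : ∑ c, cfA c i * ∑ x, ∑ y, b x y * ((if y = j then cfA c x else 0) -
        (if x = j then cfA c y else 0)) = 0 := sum_eq_zero fun c _ => by rw [key, mul_zero]
    have h3 : ∀ c, ∑ x, ∑ y, b x y * ((if y = j then cfA c x else 0) -
        (if x = j then cfA c y else 0)) = ∑ x, (b x j - b j x) * cfA c x := by
      intro c
      simp only [mul_sub, sum_sub_distrib, sub_mul, mul_ite, mul_zero]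
      congr 1
      · simp
      · rw [sum_eq_single j]
        · simp
        · intro x _ hx; simp [hx]
        · simp
    have h4 : ∑ x, (b x j - b j x) * ∑ c, cfA c i * cfA c x = 0 := by
      rw [← h2]
      simp only [h3, mul_sum]
      rw [sum_comm]
      exact sum_congr rfl fun c _ => sum_congr rfl fun x _ => by ring
    simp only [cfA_orth] at h4
    rw [sum_eq_single i] at h4
    · rw [if_pos rfl, mul_one, hb j i, sub_neg_eq_add, ← two_smul ℝ] at h4
      exact (smul_eq_zero.1 h4).resolve_left two_ne_zero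
    · intro x _ hx; rw [if_neg (Ne.symm hx), mul_zero]
    · simp
  refine ⟨fun j => ?_, hb0⟩
  have h1 : ∑ i, a i • TB i = (0 : Derivation ℝ (TAlg n) (TAlg n)) := by
    have h2 : ∑ i, ∑ j, b i j • TV (EM i j) = (0 : Derivation ℝ (TAlg n) (TAlg n)) :=
      sum_eq_zero fun i _ => sum_eq_zero fun j _ => by rw [hb0, zero_smul]
    rw [h2, add_zero] at h
    exact h
  have hr : ∀ c, ∑ i, a i * (cfA c i * imfA c) = 0 := by
    intro c
    have := congrArg (fun D => D (refA c)) h1
    simp only [tder_sum_apply, Derivation.smul_apply, TB_re, smul_eq_mul, Derivation.coe_zero,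
      Pi.zero_apply] at this
    have e : ∑ i, a i * -(cfA c i * imfA c) = -∑ i, a i * (cfA c i * imfA c) := by
      rw [← sum_neg_distrib]
      exact sum_congr rfl fun i _ => by ring
    rw [e] at this
    exact neg_eq_zero.1 this
  have hi : ∀ c, ∑ i, a i * (cfA c i * refA c) = 0 := by
    intro c
    have := congrArg (fun D => D (imfA c)) h1
    simp only [tder_sum_apply, Derivation.smul_apply, TB_im, smul_eq_mul, Derivation.coe_zero,
      Pi.zero_apply] at this
    exact this
  have hc : ∀ c, ∑ i, a i * cfA c i = 0 := by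
    intro c
    have : ∑ i, a i * cfA c i = imfA c * ∑ i, a i * (cfA c i * imfA c) +
        refA c * ∑ i, a i * (cfA c i * refA c) := by
      rw [mul_sum, mul_sum, ← sum_add_distrib]
      refine sum_congr rfl fun i _ => ?_
      have := reim c
      linear_combination (-(a i * cfA c i)) * this
    rw [this, hr, hi]
    simp
  have h5 : ∑ i, a i * ∑ c, cfA c j * cfA c i = 0 := by
    have h6 : ∑ c, cfA c j * ∑ i, a i * cfA c i = 0 := sum_eq_zero fun c _ => by
      rw [hc, mul_zero]
    rw [← h6]
    simp only [mul_sum]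
    rw [sum_comm]
    exact sum_congr rfl fun c _ => sum_congr rfl fun x _ => by ring
  simp only [cfA_orth] at h5
  rw [sum_eq_single j] at h5
  · simpa using h5
  · intro x _ hx; rw [if_neg (Ne.symm hx), mul_zero]
  · simp

/-- Cartan's structure equations on the frame bundle of the flat torus. -/
noncomputable def torusCartan (n : ℕ) : Cartan n (TAlg n) where
  B := TB
  V := fun i j => TV (EM i j)
  R := fun _ _ _ _ => 0
  V_skew := fun i j => by rw [← TV_transpose, EM_T]
  R_skew := fun i j k l => by simp
  VV := TV_EM_lie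
  VB := TVB
  BB := fun i j => by
    rw [TBB]
    simp
    exact (neg_zero (G := Derivation ℝ (TAlg n) (TAlg n))).symm
  indep := tindep

theorem vflow_add (M : Matrix (Fin n) (Fin n) ℝ) (s t : ℝ) (p : FT n) :
    vflow M (s + t) p = vflow M s (vflow M t p) := by
  simp only [vflow, rflow_add]

theorem hflow_mp (ν : Measure (OG n)) [IsFiniteMeasure ν] (τ : Measure (Fin n → Circle))
    [IsFiniteMeasure τ] [τ.IsMulLeftInvariant] (m : Fin n) (t : ℝ) :
    MeasurePreserving (hflow m t) (ν.prod τ) (ν.prod τ) := by
  refine MeasurePreserving.skew_product (f := id) (g := fun g (x : Fin n → Circle) => fun a =>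
    Circle.exp (t * (g : Matrix (Fin n) (Fin n) ℝ) a m) * x a) (MeasurePreserving.id ν) ?_ ?_
  · refine Continuous.measurable ?_
    refine continuous_pi fun a => Continuous.mul ?_ ((continuous_apply a).comp continuous_snd)
    exact Circle.exp.continuous.comp (continuous_const.mul
      ((co a m).continuous.comp continuous_fst))
  · exact Filter.Eventually.of_forall fun g => map_mul_left_eq_self τ
      (fun a => Circle.exp (t * (g : Matrix (Fin n) (Fin n) ℝ) a m))

/-- The flat torus `T^n`, frame bundle `O(n) × T^n`. -/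
noncomputable def torus (n : ℕ) (ν : Measure (OG n)) [IsFiniteMeasure ν]
    (τ : Measure (Fin n → Circle)) [IsFiniteMeasure τ] [τ.IsMulLeftInvariant] :
    FrameBundle n (FT n) (ν.prod τ) where
  A := Algebra.adjoin ℝ (tgens n)
  cartan := torusCartan n
  integral_B := fun i u =>
    integral_der (hflow_zero i) (hflow_add i) (hflow_mp ν τ i)
      (hasDer_flowDer (hflow_zero i) _ (hclosed i) u)

/-- The flat torus is flat. -/
theorem torus_curv (n : ℕ) (ν : Measure (OG n)) [IsFiniteMeasure ν]
    (τ : Measure (Fin n → Circle)) [IsFiniteMeasure τ] [τ.IsMulLeftInvariant] (p : FT n)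
    (i j k l : Fin n) : (torus n ν τ).curv p i j k l = 0 := rfl

end EinsteinSix
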